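import Mathlib

/-! Limit sets and attractors of flows; LaSalle's principle. -/

set_option autoImplicit false
set_option linter.unusedSectionVars false

open scoped Topology
open Set Filter MeasureTheory

namespace Pool.Agent.W5h51.FL

section defs

variable {X : Type*} [TopologicalSpace X]

/-- The `ω`-limit set of the forward orbit of `p` under the flow `φ`. -/
def omegaFlow (φ : X → ℝ → X) (p : X) : Set X :=
  {q | ∀ U ∈ 𝓝 q, ∀ T : ℝ, ∃ t : ℝ, T ≤ t ∧ φ p t ∈ U}

/-- `Λ` is an attractor of the flow `φ`: it is invariant, it contains a point whose forward orbit is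
dense in `Λ`, and its basin `{p | ω(p) ⊆ Λ}` has positive measure. -/
def IsFlowAttractor [MeasurableSpace X] (μ : Measure X) (φ : X → ℝ → X) (Λ : Set X) : Prop :=
  (∀ t : ℝ, (fun x => φ x t) '' Λ = Λ) ∧ (∃ x ∈ Λ, Λ ⊆ closure (φ x '' Ici 0)) ∧
    0 < μ {p | omegaFlow φ p ⊆ Λ}

/-- The flow `φ` has finitely many attractors covering the space: the union of their basins has full
measure. -/
def FlowFiniteAttractors [MeasurableSpace X] (μ : Measure X) (φ : X → ℝ → X) : Prop :=
  ∃ (k : ℕ) (Λ : Fin k → Set X), (∀ i, IsFlowAttractor μ φ (Λ i)) ∧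
    μ {p | ∀ i, ¬ omegaFlow φ p ⊆ Λ i} = 0

end defs

section dyn

variable {X : Type*} [TopologicalSpace X] {φ : X → ℝ → X}

lemma mem_omegaFlow {p q : X} : q ∈ omegaFlow φ p ↔ MapClusterPt q atTop (φ p) := by
  rw [mapClusterPt_iff_frequently]
  constructor
  · intro h s hs
    rw [frequently_atTop]
    exact fun T => h s hs T
  · intro h U hU T
    have := h U hU
    rw [frequently_atTop] at this
    exact this T

/-- An `ω`-limit set contained in the union of two disjoint closed sets is contained in one of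
them. -/
lemma omega_sep [T2Space X] [CompactSpace X] {p : X} (hc : Continuous (φ p)) {A B : Set X}
    (hA : IsClosed A) (hB : IsClosed B) (hAB : Disjoint A B) (h : omegaFlow φ p ⊆ A ∪ B) :
    omegaFlow φ p ⊆ A ∨ omegaFlow φ p ⊆ B := by
  obtain ⟨U, V, hU, hV, hAU, hBV, hUV⟩ :=
    SeparatedNhds.of_isCompact_isCompact hA.isCompact hB.isCompact hAB
  have hev : ∀ᶠ t in atTop, φ p t ∈ U ∪ V := by
    by_contra hne
    rw [not_eventually] at hne
    obtain ⟨q, hq, hq'⟩ := ((hU.union hV).isClosed_compl.isCompact).exists_mapClusterPt_of_frequently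
      (f := φ p) (l := atTop) hne
    have := h (mem_omegaFlow.2 hq')
    exact hq (this.imp (fun h => hAU h) (fun h => hBV h))
  obtain ⟨T, hT⟩ := eventually_atTop.1 hev
  have hconn : IsPreconnected (φ p '' Ici T) := isPreconnected_Ici.image _ hc.continuousOn
  have hsub : φ p '' Ici T ⊆ U ∪ V := by
    rintro _ ⟨t, ht, rfl⟩
    exact hT t ht
  have hcl : ∀ W W' : Set X, IsOpen W' → Disjoint W W' → φ p '' Ici T ⊆ W →
      ∀ q ∈ omegaFlow φ p, q ∉ W' := by
    intro W W' hW' hd hs q hq hqW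
    obtain ⟨t, ht, ht'⟩ := hq W' (hW'.mem_nhds hqW) T
    exact Set.disjoint_left.1 hd (hs (mem_image_of_mem _ ht)) ht'
  rcases hconn.subset_or_subset hU hV hUV hsub with h1 | h1
  · left
    intro q hq
    exact (h hq).resolve_right fun hqB => hcl U V hV hUV h1 q hq (hBV hqB)
  · right
    intro q hq
    exact (h hq).resolve_left fun hqA => hcl V U hU hUV.symm h1 q hq (hAU hqA)

lemma omega_nonempty [CompactSpace X] (p : X) : (omegaFlow φ p).Nonempty := by
  obtain ⟨q, -, hq⟩ := isCompact_univ.exists_mapClusterPt (f := atTop) (u := φ p) (by simp)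
  exact ⟨q, mem_omegaFlow.2 hq⟩

/-- An `ω`-limit set contained in a finite union of disjoint closed sets is contained in one of
them. -/
lemma omega_one [T2Space X] [CompactSpace X] {p : X} (hc : Continuous (φ p)) {m : ℕ}
    (M : Fin m → Set X) (hcl : ∀ i, IsClosed (M i)) (hdis : ∀ i j, i ≠ j → Disjoint (M i) (M j))
    (h : omegaFlow φ p ⊆ ⋃ i, M i) : ∃ i, omegaFlow φ p ⊆ M i := by
  obtain ⟨q, hq⟩ := omega_nonempty (φ := φ) p
  obtain ⟨i, hi⟩ := mem_iUnion.1 (h hq)
  have hB : IsClosed (⋃ j ∈ {j | j ≠ i}, M j) := by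
    refine (Set.toFinite {j : Fin m | j ≠ i}).isClosed_biUnion fun j _ => hcl j
  have hd : Disjoint (M i) (⋃ j ∈ {j | j ≠ i}, M j) := by
    rw [Set.disjoint_iUnion₂_right]
    intro j hj
    exact hdis i j (Ne.symm hj)
  have hsub : omegaFlow φ p ⊆ M i ∪ ⋃ j ∈ {j | j ≠ i}, M j := by
    intro x hx
    obtain ⟨j, hj⟩ := mem_iUnion.1 (h hx)
    by_cases hji : j = i
    · left; rw [← hji]; exact hj
    · right; exact mem_iUnion₂.2 ⟨j, hji, hj⟩
  rcases omega_sep hc (hcl i) hB hd hsub with h1 | h1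
  · exact ⟨i, h1⟩
  · exact absurd (h1 hq) (Set.disjoint_left.1 hd hi)

/-- **LaSalle's principle.** -/
theorem lasalle [T2Space X] [CompactSpace X] (hadd : ∀ x s t, φ x (s + t) = φ (φ x s) t)
    (hct : ∀ t, Continuous fun x => φ x t)
    {h : X → ℝ} (hh : Continuous h) (hm : ∀ x, ∀ t, 0 ≤ t → h x ≤ h (φ x t)) {p q : X}
    (hq : q ∈ omegaFlow φ p) (t : ℝ) : h (φ q t) = h q := by
  have hmono : Monotone fun s => h (φ p s) := by
    intro s t hst
    have h1 := hm (φ p s) (t - s) (by linarith)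
    rw [← hadd] at h1
    have h2 : s + (t - s) = t := by ring
    rwa [h2] at h1
  have hbdd : BddAbove (range fun s => h (φ p s)) := by
    obtain ⟨C, hC⟩ := (isCompact_univ.image hh).bddAbove
    refine ⟨C, ?_⟩
    rintro _ ⟨s, rfl⟩
    exact hC (mem_image_of_mem _ (mem_univ _))
  have hlim := tendsto_atTop_ciSup hmono hbdd
  set L := ⨆ s, h (φ p s) with hL
  have hval : ∀ q ∈ omegaFlow φ p, h q = L := by
    intro q hq
    have h1 : MapClusterPt (h q) atTop (h ∘ φ p) :=
      (mem_omegaFlow.1 hq).continuousAt_comp hh.continuousAt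
    have h2 : Tendsto (h ∘ φ p) atTop (𝓝 L) := hlim
    exact eq_of_nhds_neBot (ClusterPt.mono h1 h2)
  have hinv : φ q t ∈ omegaFlow φ p := by
    intro U hU T
    obtain ⟨s, hs, hs'⟩ := hq ((fun x => φ x t) ⁻¹' U) ((hct t).continuousAt.preimage_mem_nhds hU)
      (T - t)
    refine ⟨s + t, by linarith, ?_⟩
    rw [hadd]
    exact hs'
  rw [hval _ hinv, hval _ hq]

/-- Finitely many attractors from a finite cover. -/
theorem finite_of_cover [MeasurableSpace X] (μ : Measure X) {m : ℕ} (M : Fin m → Set X)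
    (hinv : ∀ i t, (fun x => φ x t) '' M i = M i)
    (htr : ∀ i, ∃ x ∈ M i, M i ⊆ closure (φ x '' Ici 0))
    (hcov : ∀ p, ∃ i, omegaFlow φ p ⊆ M i) : FlowFiniteAttractors μ φ := by
  classical
  set J : Finset (Fin m) := Finset.univ.filter fun i => 0 < μ {p | omegaFlow φ p ⊆ M i} with hJ
  have hmem : ∀ i, i ∈ J ↔ 0 < μ {p | omegaFlow φ p ⊆ M i} := by
    intro i
    rw [hJ, Finset.mem_filter]
    exact ⟨fun h => h.2, fun h => ⟨Finset.mem_univ _, h⟩⟩
  let e := J.equivFin
  refine ⟨J.card, fun i => M (e.symm i), fun i => ⟨hinv _, htr _, ?_⟩, ?_⟩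
  · exact (hmem _).1 (e.symm i).2
  · have hsub : {p | ∀ i, ¬ omegaFlow φ p ⊆ M (e.symm i)} ⊆
        ⋃ i ∈ {i | i ∉ J}, {p | omegaFlow φ p ⊆ M i} := by
      intro p hp
      obtain ⟨i, hi⟩ := hcov p
      refine mem_iUnion₂.2 ⟨i, ?_, hi⟩
      intro hiJ
      apply hp (e ⟨i, hiJ⟩)
      rw [Equiv.symm_apply_apply]
      exact hi
    refine measure_mono_null hsub ?_
    rw [measure_biUnion_null_iff (Set.to_countable _)]
    intro i hi
    by_contra h0
    exact hi ((hmem i).2 (pos_iff_ne_zero.2 h0))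

end dyn

end Pool.Agent.W5h51.FL
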