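import Mathlib
import Pool.Agent.Helper186.Flow

/-! Flows of `C¹` vector fields on compact manifolds (adapted from `Pool.Agent.Helper186.Flow`). -/

open scoped Topology ContDiff Manifold
open Set Metric Filter Pool.Agent.Helper186

noncomputable section

namespace Pool.Agent.W5h51.FL

universe u

variable {E : Type u} [NormedAddCommGroup E] [NormedSpace ℝ E] [FiniteDimensional ℝ E]
  {H : Type*} [TopologicalSpace H] {I : ModelWithCorners ℝ E H} [I.Boundaryless]
  {M : Type*} [TopologicalSpace M] [ChartedSpace H M] [IsManifold I ∞ M]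
  {V : (x : M) → TangentSpace I x}

set_option linter.unusedSectionVars false

/-- Local `C¹` flows on manifolds. -/
theorem exists_local_flow_manifold [IsManifold I 1 M]
    (hV : ContMDiff I I.tangent 1 (fun x => (⟨x, V x⟩ : TangentBundle I M))) (x₀ : M) :
    ∃ U ∈ 𝓝 x₀, ∃ ε > (0 : ℝ), ∃ a : M → ℝ → M, (∀ x ∈ U, a x 0 = x) ∧
      (∀ x ∈ U, IsMIntegralCurveOn (a x) V (Ioo (-ε) ε)) ∧
      ContMDiffAt (I.prod 𝓘(ℝ, ℝ)) I 1 (fun p : M × ℝ => a p.1 p.2) (x₀, 0) := by
  have hv := hV x₀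
  rw [contMDiffAt_iff] at hv
  obtain ⟨_, hv⟩ := hv
  have hv2 := (hv.contDiffAt (range_mem_nhds_isInteriorPoint
    (BoundarylessManifold.isInteriorPoint (x := x₀)))).snd
  obtain ⟨r, hr, ε, hε, α, hα0, hαd, hαc⟩ := exists_local_flow (n := 1) one_ne_zero
    (by exact_mod_cast hv2)
  set φ := extChartAt I x₀ with hφ
  have hαx : α (φ x₀, 0) = φ x₀ := hα0 _ (mem_closedBall_self hr.le)
  have htgt : φ.target ∈ 𝓝 (φ x₀) := extChartAt_target_mem_nhds x₀
  have h1 : ∀ᶠ q in 𝓝 ((φ x₀, 0) : E × ℝ), α q ∈ φ.target := by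
    have h2 : ∀ᶠ z in 𝓝 (α (φ x₀, 0)), z ∈ φ.target := by rw [hαx]; exact htgt
    exact hαc.continuousAt.eventually h2
  obtain ⟨η, hη, hη'⟩ := Metric.eventually_nhds_iff.1 h1
  refine ⟨φ.source ∩ φ ⁻¹' (closedBall (φ x₀) (min r (η / 2))), ?_, min ε η, by positivity,
    fun x t => φ.symm (α (φ x, t)), ?_, ?_, ?_⟩
  · apply Filter.inter_mem (extChartAt_source_mem_nhds x₀)
    exact (continuousAt_extChartAt x₀).preimage_mem_nhds
      (closedBall_mem_nhds _ (by positivity))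
  · rintro x ⟨hx1, hx2⟩
    have : α (φ x, 0) = φ x :=
      hα0 _ (closedBall_subset_closedBall (min_le_left _ _) hx2)
    simp only [this]
    exact φ.left_inv hx1
  · rintro x ⟨hx1, hx2⟩ t ht
    have ht' : t ∈ Ioo (-ε) ε :=
      ⟨by linarith [ht.1, min_le_left ε η], by linarith [ht.2, min_le_left ε η]⟩
    have hd := hαd (φ x) (closedBall_subset_closedBall (min_le_left _ _) hx2) t ht'
    have hmem : α (φ x, t) ∈ φ.target := by
      apply hη'
      rw [Prod.dist_eq]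
      apply max_lt
      · have := (mem_closedBall.1 hx2).trans (min_le_right _ _)
        exact lt_of_le_of_lt this (by linarith)
      · simp only [dist_zero_right, Real.norm_eq_abs]
        rw [abs_lt]
        constructor
        · linarith [ht.1, min_le_right ε η]
        · linarith [ht.2, min_le_right ε η]
    exact (hasMFDerivAt_of_chart (V := V) x₀ (fun s => α (φ x, s)) t hmem hd).hasMFDerivWithinAt
  · have h3 : ContMDiffAt (I.prod 𝓘(ℝ, ℝ)) 𝓘(ℝ, E × ℝ) 1
        (fun p : M × ℝ => (φ p.1, p.2)) (x₀, 0) := by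
      apply ContMDiffAt.prodMk_space
      · exact (contMDiffAt_extChartAt (x := x₀)).comp (x₀, (0:ℝ)) contMDiffAt_fst
      · exact contMDiffAt_snd
    have hαc' : ContDiffAt ℝ 1 α (φ x₀, 0) := by exact_mod_cast hαc
    have h4 : ContMDiffAt (I.prod 𝓘(ℝ, ℝ)) 𝓘(ℝ, E) 1
        (fun p : M × ℝ => α (φ p.1, p.2)) (x₀, 0) :=
      ContMDiffAt.comp (x₀, (0:ℝ)) hαc'.contMDiffAt h3
    have h5 : ContMDiffAt 𝓘(ℝ, E) I 1 φ.symm (α (φ x₀, 0)) := by
      rw [hαx]
      exact (contMDiffOn_extChartAt_symm x₀).contMDiffAt htgt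
    exact ContMDiffAt.comp (x₀, (0:ℝ)) h5 h4

/-- Local existence, uniform on compact sets. -/
lemma exists_uniform_time_compact [IsManifold I 1 M]
    (hV : ContMDiff I I.tangent 1 (fun x => (⟨x, V x⟩ : TangentBundle I M)))
    {C : Set M} (hC : IsCompact C) :
    ∃ ε > (0:ℝ), ∀ x ∈ C, ∃ γ : ℝ → M, γ 0 = x ∧ IsMIntegralCurveOn γ V (Ioo (-ε) ε) := by
  refine hC.induction_on (p := fun S => ∃ ε > (0:ℝ), ∀ x ∈ S, ∃ γ : ℝ → M, γ 0 = x ∧
    IsMIntegralCurveOn γ V (Ioo (-ε) ε)) ⟨1, one_pos, by simp⟩ ?_ ?_ ?_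
  · rintro s t hst ⟨ε, hε, h⟩
    exact ⟨ε, hε, fun x hx => h x (hst hx)⟩
  · rintro s t ⟨ε₁, hε₁, h₁⟩ ⟨ε₂, hε₂, h₂⟩
    refine ⟨min ε₁ ε₂, by positivity, ?_⟩
    rintro x (hx | hx)
    · obtain ⟨γ, h0, hγ⟩ := h₁ x hx
      exact ⟨γ, h0, hγ.mono (Ioo_subset_Ioo (neg_le_neg (min_le_left _ _)) (min_le_left _ _))⟩
    · obtain ⟨γ, h0, hγ⟩ := h₂ x hx
      exact ⟨γ, h0, hγ.mono (Ioo_subset_Ioo (neg_le_neg (min_le_right _ _)) (min_le_right _ _))⟩
  · intro x _
    obtain ⟨U, hU, ε, hε, a, ha0, had, -⟩ := exists_local_flow_manifold hV x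
    exact ⟨U, mem_nhdsWithin_of_mem_nhds hU, ε, hε, fun y hy => ⟨a y, ha0 y hy, had y hy⟩⟩

/-- `Fl` is the flow of the vector field `V`: `Fl x` is the integral curve of `V` starting at `x`. -/
def IsFlow (V : (x : M) → TangentSpace I x) (Fl : M → ℝ → M) : Prop :=
  ∀ x, Fl x 0 = x ∧ IsMIntegralCurve (Fl x) V

/-- A `C¹` vector field on a compact manifold has a flow. -/
theorem exists_flow [T2Space M] [CompactSpace M] [IsManifold I 1 M]
    (hV : ContMDiff I I.tangent 1 (fun x => (⟨x, V x⟩ : TangentBundle I M))) :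
    ∃ Fl : M → ℝ → M, IsFlow V Fl := by
  obtain ⟨ε, hε, h⟩ := exists_uniform_time_compact hV (isCompact_univ (X := M))
  choose Fl hFl using fun x =>
    exists_isMIntegralCurve_of_isMIntegralCurveOn hV hε (fun y => h y (mem_univ y)) x
  exact ⟨Fl, hFl⟩

/-- The flow is unique. -/
theorem flow_unique [T2Space M] [IsManifold I 1 M]
    (hV : ContMDiff I I.tangent 1 (fun x => (⟨x, V x⟩ : TangentBundle I M)))
    {γ γ' : ℝ → M} (h : IsMIntegralCurve γ V) (h' : IsMIntegralCurve γ' V) (h0 : γ 0 = γ' 0) :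
    γ = γ' :=
  isMIntegralCurve_Ioo_eq_of_contMDiff_boundaryless (t₀ := 0) hV h h' h0

/-- The group property of a flow. -/
lemma flow_add [T2Space M] [IsManifold I 1 M]
    (hV : ContMDiff I I.tangent 1 (fun x => (⟨x, V x⟩ : TangentBundle I M)))
    {Fl : M → ℝ → M} (hFl : IsFlow V Fl) (x : M) (s t : ℝ) :
    Fl x (s + t) = Fl (Fl x s) t := by
  have h1 : IsMIntegralCurve (fun t => Fl x (s + t)) V := by
    have := (hFl x).2.comp_add s
    convert this using 2
    simp [Function.comp, add_comm]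
  have h3 : (fun t => Fl x (s + t)) = Fl (Fl x s) :=
    flow_unique hV h1 (hFl (Fl x s)).2 (by simp [(hFl (Fl x s)).1])
  exact congrFun h3 t

/-- The maps `x ↦ Fl x t` of a flow are continuous. -/
theorem continuous_flow [T2Space M] [CompactSpace M] [IsManifold I 1 M]
    (hV : ContMDiff I I.tangent 1 (fun x => (⟨x, V x⟩ : TangentBundle I M)))
    {Fl : M → ℝ → M} (hFl : IsFlow V Fl) (t : ℝ) : Continuous (fun x => Fl x t) := by
  -- uniform time of continuity
  obtain ⟨δ, hδ, h⟩ : ∃ δ > (0:ℝ), ∀ t, |t| < δ → Continuous (fun x => Fl x t) := by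
    have key : ∀ x₀ : M, ∃ U ∈ 𝓝 x₀, ∃ δ > (0:ℝ), ∀ t, |t| < δ → ∀ x ∈ U,
        ContinuousAt (fun x => Fl x t) x := by
      intro x₀
      obtain ⟨U, hU, ε, hε, a, ha0, had, hac⟩ := exists_local_flow_manifold hV x₀
      have hac' := (contMDiffAt_iff_contMDiffAt_nhds (by simp)).1 hac
      rw [nhds_prod_eq, Filter.eventually_prod_iff] at hac'
      obtain ⟨P, hP, Q, hQ, hPQ⟩ := hac'
      obtain ⟨δ₁, hδ₁, hδ₁'⟩ := Metric.eventually_nhds_iff.1 hQ
      refine ⟨interior U ∩ {x | P x}, inter_mem (interior_mem_nhds.2 hU) hP, min ε δ₁,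
        by positivity, fun t ht x hx => ?_⟩
      have ht1 : t ∈ Ioo (-ε) ε := abs_lt.1 (ht.trans_le (min_le_left _ _))
      have ht2 : Q t := hδ₁' (by
        rw [Real.dist_eq, sub_zero]
        exact ht.trans_le (min_le_right _ _))
      have h1 : ContinuousAt (fun x => a x t) x :=
        (hPQ hx.2 ht2).continuousAt.comp (f := fun x : M => ((x, t) : M × ℝ))
          (Continuous.continuousAt (by fun_prop))
      refine h1.congr ?_
      filter_upwards [isOpen_interior.mem_nhds hx.1] with y hy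
      have hy' := interior_subset hy
      exact (isMIntegralCurveOn_Ioo_eqOn_of_contMDiff_boundaryless (t₀ := 0)
          (show (0:ℝ) ∈ Ioo (-ε) ε from ⟨by simpa using hε, hε⟩) hV
          ((hFl y).2.isMIntegralCurveOn _) (had y hy') (by rw [(hFl y).1, ha0 _ hy']) ht1).symm
    have h2 := isCompact_univ.induction_on (X := M) (p := fun S => ∃ δ > (0:ℝ), ∀ t, |t| < δ →
      ∀ x ∈ S, ContinuousAt (fun x => Fl x t) x) ⟨1, one_pos, by simp⟩
      (by
        rintro s t hst ⟨ε, hε, h⟩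
        exact ⟨ε, hε, fun τ hτ x hx => h τ hτ x (hst hx)⟩)
      (by
        rintro s t ⟨ε₁, hε₁, h₁⟩ ⟨ε₂, hε₂, h₂⟩
        refine ⟨min ε₁ ε₂, by positivity, fun τ hτ => ?_⟩
        rintro x (hx | hx)
        · exact h₁ τ (hτ.trans_le (min_le_left _ _)) x hx
        · exact h₂ τ (hτ.trans_le (min_le_right _ _)) x hx)
      (by
        intro x _
        obtain ⟨U, hU, δ, hδ, h⟩ := key x
        exact ⟨U, mem_nhdsWithin_of_mem_nhds hU, δ, hδ, h⟩)
    obtain ⟨δ, hδ, h⟩ := h2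
    exact ⟨δ, hδ, fun t ht => continuous_iff_continuousAt.2 fun x => h t ht x (mem_univ x)⟩
  obtain ⟨k, hk⟩ := exists_nat_gt (|t| / δ)
  have hk0 : 0 < (k:ℝ) := lt_of_le_of_lt (by positivity) hk
  have hs : |t / k| < δ := by
    rw [abs_div, abs_of_pos hk0, div_lt_iff₀ hk0]
    rwa [div_lt_iff₀ hδ, mul_comm] at hk
  have hm : ∀ m : ℕ, Continuous (fun x => Fl x (m * (t / k))) := by
    intro m
    induction m with
    | zero =>
      simp only [Nat.cast_zero, zero_mul]
      exact continuous_id.congr fun x => ((hFl x).1).symm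
    | succ m ih =>
      refine ((h _ hs).comp ih).congr fun x => ?_
      show Fl (Fl x (m * (t / k))) (t / k) = _
      rw [← flow_add hV hFl]
      congr 1
      push_cast
      ring
  have := hm k
  refine this.congr fun x => ?_
  congr 1
  field_simp

end Pool.Agent.W5h51.FL
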