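import Mathlib

/-! Generic nondegeneracy of zeros in families containing all translations (Sard, Fubini). -/

set_option autoImplicit false
set_option linter.unusedSectionVars false

open scoped Topology ContDiff
open Set Filter MeasureTheory

namespace Pool.Agent.W5h51.FL

variable {E : Type*} [NormedAddCommGroup E] [NormedSpace ℝ E] [FiniteDimensional ℝ E]
  {J : Type*} [Fintype J]

/-- For almost every `a`, all zeros of `F_a = g + ∑ a_j f_j` in the compact set `K` are
nondegenerate, if the family contains all the constants. -/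
theorem ae_nondeg {W K : Set E} (hW : IsOpen W) (hK : IsCompact K) (hKW : K ⊆ W)
    {g : E → E} (hg : ContDiffOn ℝ 1 g W) {f : J → E → E} (hf : ∀ j, ContDiffOn ℝ 1 (f j) W)
    (L : E →ₗ[ℝ] (J → ℝ)) (hL : ∀ b, ∀ z ∈ W, ∑ j, L b j • f j z = b) :
    ∀ᵐ a : J → ℝ, ∀ z ∈ K, g z + ∑ j, a j • f j z = 0 →
      (fderiv ℝ g z + ∑ j, a j • fderiv ℝ (f j) z).det ≠ 0 := by
  classical
  borelize E
  have hgc := hg.continuousOn
  have hg' : ContinuousOn (fderiv ℝ g) W := hg.continuousOn_fderiv_of_isOpen hW le_rfl
  have hf' : ∀ j, ContinuousOn (fderiv ℝ (f j)) W := fun j =>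
    (hf j).continuousOn_fderiv_of_isOpen hW le_rfl
  set G : Set (J → ℝ) := {a | ∀ z ∈ K, ¬ (g z + ∑ j, a j • f j z = 0 ∧
      (fderiv ℝ g z + ∑ j, a j • fderiv ℝ (f j) z).det = 0)} with hG
  have hopen : IsOpen G := by
    rw [isOpen_iff_eventually]
    intro a ha
    show ∀ᶠ a in 𝓝 a, ∀ z ∈ K, ¬ (g z + ∑ j, a j • f j z = 0 ∧
      (fderiv ℝ g z + ∑ j, a j • fderiv ℝ (f j) z).det = 0)
    refine hK.eventually_forall_of_forall_eventually
      (P := fun (a : J → ℝ) z => ¬ (g z + ∑ j, a j • f j z = 0 ∧
        (fderiv ℝ g z + ∑ j, a j • fderiv ℝ (f j) z).det = 0)) fun z hz => ?_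
    have hzW : W ∈ 𝓝 z := hW.mem_nhds (hKW hz)
    have c1 : ContinuousAt (fun q : (J → ℝ) × E => g q.2 + ∑ j, q.1 j • f j q.2) (a, z) := by
      refine ContinuousAt.add ?_ ?_
      · exact ContinuousAt.comp (g := g) (f := Prod.snd) (hgc.continuousAt hzW) continuousAt_snd
      · refine tendsto_finsetSum _ fun j _ => ?_
        have h1 : ContinuousAt (fun q : (J → ℝ) × E => q.1 j) (a, z) :=
          ((continuous_apply j).comp continuous_fst).continuousAt
        have h2 : ContinuousAt (fun q : (J → ℝ) × E => f j q.2) (a, z) :=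
          ContinuousAt.comp (g := f j) (f := Prod.snd) ((hf j).continuousOn.continuousAt hzW)
            continuousAt_snd
        exact h1.smul h2
    have c2 : ContinuousAt (fun q : (J → ℝ) × E =>
        fderiv ℝ g q.2 + ∑ j, q.1 j • fderiv ℝ (f j) q.2) (a, z) := by
      refine ContinuousAt.add ?_ ?_
      · exact ContinuousAt.comp (g := fderiv ℝ g) (f := Prod.snd) (hg'.continuousAt hzW)
          continuousAt_snd
      · refine tendsto_finsetSum _ fun j _ => ?_
        have h1 : ContinuousAt (fun q : (J → ℝ) × E => q.1 j) (a, z) :=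
          ((continuous_apply j).comp continuous_fst).continuousAt
        have h2 : ContinuousAt (fun q : (J → ℝ) × E => fderiv ℝ (f j) q.2) (a, z) :=
          ContinuousAt.comp (g := fderiv ℝ (f j)) (f := Prod.snd) ((hf' j).continuousAt hzW)
            continuousAt_snd
        exact h1.smul h2
    have c3 := ContinuousLinearMap.continuous_det.continuousAt.comp c2
    by_cases h1 : g z + ∑ j, a j • f j z = 0
    · have h2 : (fderiv ℝ g z + ∑ j, a j • fderiv ℝ (f j) z).det ≠ 0 := fun h2 =>
        ha z hz ⟨h1, h2⟩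
      filter_upwards [c3.eventually_ne h2] with q hq h
      exact hq h.2
    · filter_upwards [c1.eventually_ne h1] with q hq h
      exact hq h.1
  have hae : ∀ᵐ a : J → ℝ, a ∈ G := by
    refine ae_mem_of_ae_add_linearMap_mem L Measure.addHaar volume hopen.measurableSet
      fun y => ?_
    set F : E → E := fun z => g z + ∑ j, y j • f j z with hF
    set F' : E → E →L[ℝ] E := fun z => fderiv ℝ g z + ∑ j, y j • fderiv ℝ (f j) z with hF'
    have hder : ∀ z ∈ W, HasFDerivAt F (F' z) z := by
      intro z hz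
      have h1 : HasFDerivAt g (fderiv ℝ g z) z :=
        ((hg.contDiffAt (hW.mem_nhds hz)).differentiableAt (by simp)).hasFDerivAt
      have h2 : ∀ j ∈ Finset.univ, HasFDerivAt (fun z => y j • f j z) (y j • fderiv ℝ (f j) z) z :=
        fun j _ => (((hf j).contDiffAt (hW.mem_nhds hz)).differentiableAt
          (by simp)).hasFDerivAt.const_smul (y j)
      have h3 := h1.add (HasFDerivAt.fun_sum h2)
      exact h3
    set S : Set E := {z ∈ W | (F' z).det = 0} with hS
    have hnull : (Measure.addHaar : Measure E) (F '' S) = 0 :=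
      addHaar_image_eq_zero_of_det_fderivWithin_eq_zero _
        (fun z hz => (hder z hz.1).hasFDerivWithinAt) (fun z hz => hz.2)
    have hnull' : (Measure.addHaar : Measure E) (-(F '' S)) = 0 := by
      rw [Measure.measure_neg]
      exact hnull
    rw [ae_iff]
    refine measure_mono_null ?_ hnull'
    intro b hb
    simp only [hG, mem_ofPred_eq, not_forall, not_not] at hb
    obtain ⟨z, hz, h1, h2⟩ := hb
    have hzW := hKW hz
    have e1 : ∑ j, (y + L b) j • f j z = ∑ j, y j • f j z + b := by
      simp only [Pi.add_apply, add_smul, Finset.sum_add_distrib]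
      rw [hL b z hzW]
    have e2 : ∑ j, (y + L b) j • fderiv ℝ (f j) z = ∑ j, y j • fderiv ℝ (f j) z := by
      simp only [Pi.add_apply, add_smul, Finset.sum_add_distrib]
      have h3 : HasFDerivAt (fun z => ∑ j, L b j • f j z) (∑ j, L b j • fderiv ℝ (f j) z) z :=
        HasFDerivAt.fun_sum fun j _ => (((hf j).contDiffAt (hW.mem_nhds hzW)).differentiableAt
          (by simp)).hasFDerivAt.const_smul (L b j)
      have h4 : HasFDerivAt (fun z => ∑ j, L b j • f j z) (0 : E →L[ℝ] E) z := by
        refine (hasFDerivAt_const b z).congr_of_eventuallyEq ?_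
        filter_upwards [hW.mem_nhds hzW] with w hw
        exact hL b w hw
      rw [h3.unique h4, add_zero]
    rw [Set.mem_neg]
    refine ⟨z, ⟨hzW, ?_⟩, ?_⟩
    · show (fderiv ℝ g z + ∑ j, y j • fderiv ℝ (f j) z).det = 0
      rw [← e2]
      exact h2
    · rw [e1] at h1
      show g z + ∑ j, y j • f j z = -b
      rw [eq_neg_iff_add_eq_zero, ← h1, add_assoc]
  filter_upwards [hae] with a ha z hz h1 h2
  exact ha z hz ⟨h1, h2⟩

end Pool.Agent.W5h51.FL
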