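import Mathlib
import Pool.Agent.W5h51.FL.Sard

/-! On a closed manifold almost every perturbation of a function within a suitable finite
dimensional space of smooth functions has only finitely many critical points. -/

set_option autoImplicit false
set_option linter.unusedSectionVars false

open scoped Topology ContDiff Manifold
open Set Filter MeasureTheory

noncomputable section

namespace Pool.Agent.W5h51.FL

universe u

lemma two_le_infty : (2 : ℕ∞ω) ≤ ∞ := ENat.LEInfty.out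

section eucl

variable {n : ℕ}

/-- gradient in the Euclidean space -/
def gr (h : EuclideanSpace ℝ (Fin n) → ℝ) (z : EuclideanSpace ℝ (Fin n)) :
    EuclideanSpace ℝ (Fin n) :=
  (InnerProductSpace.toDual ℝ (EuclideanSpace ℝ (Fin n))).symm (fderiv ℝ h z)

lemma gr_contDiffOn {h : EuclideanSpace ℝ (Fin n) → ℝ} {W : Set (EuclideanSpace ℝ (Fin n))}
    (hW : IsOpen W) (hh : ContDiffOn ℝ 2 h W) : ContDiffOn ℝ 1 (gr h) W := by
  have h1 : ContDiffOn ℝ 1 (fderiv ℝ h) W := hh.fderiv_of_isOpen hW (by norm_num)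
  exact ((InnerProductSpace.toDual ℝ (EuclideanSpace ℝ (Fin n))).symm.contDiff).comp_contDiffOn h1

lemma gr_sum {J : Type*} [Fintype J] {W : Set (EuclideanSpace ℝ (Fin n))} (hW : IsOpen W)
    {f : J → EuclideanSpace ℝ (Fin n) → ℝ} (hf : ∀ j, ContDiffOn ℝ 2 (f j) W) (a : J → ℝ)
    {z : EuclideanSpace ℝ (Fin n)} (hz : z ∈ W) :
    ∑ j, a j • gr (f j) z = gr (fun z => ∑ j, a j * f j z) z := by
  have h1 : HasFDerivAt (fun z => ∑ j, a j * f j z) (∑ j, a j • fderiv ℝ (f j) z) z :=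
    HasFDerivAt.fun_sum fun j _ => (((hf j).contDiffAt (hW.mem_nhds hz)).differentiableAt
      (by simp)).hasFDerivAt.const_mul (a j)
  unfold gr
  rw [h1.fderiv, map_sum]
  refine Finset.sum_congr rfl fun j _ => ?_
  rw [map_smulₛₗ]
  rfl

lemma gr_add {W : Set (EuclideanSpace ℝ (Fin n))} (hW : IsOpen W)
    {f g : EuclideanSpace ℝ (Fin n) → ℝ} (hf : ContDiffOn ℝ 2 f W) (hg : ContDiffOn ℝ 2 g W)
    {z : EuclideanSpace ℝ (Fin n)} (hz : z ∈ W) :
    gr (fun z => f z + g z) z = gr f z + gr g z := by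
  have h1 : HasFDerivAt (fun z => f z + g z) (fderiv ℝ f z + fderiv ℝ g z) z :=
    ((hf.contDiffAt (hW.mem_nhds hz)).differentiableAt (by simp)).hasFDerivAt.add
      ((hg.contDiffAt (hW.mem_nhds hz)).differentiableAt (by simp)).hasFDerivAt
  unfold gr
  rw [h1.fderiv, map_add]

lemma gr_inner {W : Set (EuclideanSpace ℝ (Fin n))} (hW : IsOpen W)
    {f : EuclideanSpace ℝ (Fin n) → ℝ} (b : EuclideanSpace ℝ (Fin n))
    (hf : ∀ z ∈ W, f z = inner ℝ b z) {z : EuclideanSpace ℝ (Fin n)} (hz : z ∈ W) :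
    gr f z = b := by
  have h1 : HasFDerivAt f (innerSL ℝ b) z := by
    refine (innerSL ℝ b).hasFDerivAt.congr_of_eventuallyEq ?_
    filter_upwards [hW.mem_nhds hz] with w hw
    rw [hf w hw]
    rfl
  unfold gr
  rw [h1.fderiv]
  rw [LinearIsometryEquiv.symm_apply_eq]
  rfl

end eucl

section mfd

variable {n : ℕ} {M : Type u} [TopologicalSpace M] [ChartedSpace (EuclideanSpace ℝ (Fin n)) M]
  [IsManifold (𝓡 n) ∞ M]

lemma chart_contDiffOn {h : M → ℝ} (hh : ContMDiff (𝓡 n) 𝓘(ℝ, ℝ) 2 h) (c : M) :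
    ContDiffOn ℝ 2 (h ∘ (extChartAt (𝓡 n) c).symm) (extChartAt (𝓡 n) c).target := by
  rw [← contMDiffOn_iff_contDiffOn]
  have h1 := (contMDiffOn_extChartAt_symm (I := 𝓡 n) (n := ∞) c).of_le
    two_le_infty
  exact hh.comp_contMDiffOn h1

lemma fd_zero {h : M → ℝ} {x c : M} (hh : MDifferentiableAt (𝓡 n) 𝓘(ℝ, ℝ) h x)
    (h0 : mfderiv (𝓡 n) 𝓘(ℝ, ℝ) h x = 0) (hx : x ∈ (extChartAt (𝓡 n) c).source) :
    fderiv ℝ (h ∘ (extChartAt (𝓡 n) c).symm) (extChartAt (𝓡 n) c x) = 0 := by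
  have hx' : (extChartAt (𝓡 n) c).symm (extChartAt (𝓡 n) c x) = x :=
    (extChartAt (𝓡 n) c).left_inv hx
  have ht : extChartAt (𝓡 n) c x ∈ (extChartAt (𝓡 n) c).target :=
    (extChartAt (𝓡 n) c).map_source hx
  have h1 : MDifferentiableAt 𝓘(ℝ, EuclideanSpace ℝ (Fin n)) (𝓡 n) (extChartAt (𝓡 n) c).symm
      (extChartAt (𝓡 n) c x) :=
    ((contMDiffOn_extChartAt_symm (I := 𝓡 n) (n := ∞) c).contMDiffAt
      ((isOpen_extChartAt_target c).mem_nhds ht)).mdifferentiableAt (by simp)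
  have h2 : MDifferentiableAt (𝓡 n) 𝓘(ℝ, ℝ) h
      ((extChartAt (𝓡 n) c).symm (extChartAt (𝓡 n) c x)) := by rw [hx']; exact hh
  have h3 := mfderiv_comp (extChartAt (𝓡 n) c x) h2 h1
  rw [mfderiv_eq_fderiv] at h3
  rw [h3]
  have h4 : mfderiv (𝓡 n) 𝓘(ℝ, ℝ) h ((extChartAt (𝓡 n) c).symm (extChartAt (𝓡 n) c x)) = 0 := by
    rw [hx']; exact h0
  rw [h4]
  exact ContinuousLinearMap.zero_comp _

/-- Local statement: near every point of a chart domain, the critical points are isolated. -/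
lemma isolated {J : Type*} [Fintype J] {H : M → ℝ} (hH : ContMDiff (𝓡 n) 𝓘(ℝ, ℝ) 2 H)
    {f : J → M → ℝ} (hf : ∀ j, ContMDiff (𝓡 n) 𝓘(ℝ, ℝ) 2 (f j)) (a : J → ℝ) (c x : M)
    (hx : x ∈ (extChartAt (𝓡 n) c).source)
    (hnd : gr (H ∘ (extChartAt (𝓡 n) c).symm) (extChartAt (𝓡 n) c x) +
        ∑ j, a j • gr (f j ∘ (extChartAt (𝓡 n) c).symm) (extChartAt (𝓡 n) c x) = 0 →
      (fderiv ℝ (gr (H ∘ (extChartAt (𝓡 n) c).symm)) (extChartAt (𝓡 n) c x) +
        ∑ j, a j • fderiv ℝ (gr (f j ∘ (extChartAt (𝓡 n) c).symm))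
          (extChartAt (𝓡 n) c x)).det ≠ 0) :
    ∀ᶠ y in 𝓝[≠] x, mfderiv (𝓡 n) 𝓘(ℝ, ℝ) (fun x => H x + ∑ j, a j * f j x) y ≠ 0 := by
  set φ := extChartAt (𝓡 n) c with hφ
  set T := φ.target with hT
  have hTo : IsOpen T := isOpen_extChartAt_target c
  have hz : φ x ∈ T := φ.map_source hx
  have cH := chart_contDiffOn hH c
  have cf := fun j => chart_contDiffOn (hf j) c
  set F : EuclideanSpace ℝ (Fin n) → EuclideanSpace ℝ (Fin n) := fun z =>
    gr (H ∘ φ.symm) z + ∑ j, a j • gr (f j ∘ φ.symm) z with hF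
  have hder : HasFDerivAt F (fderiv ℝ (gr (H ∘ φ.symm)) (φ x) +
      ∑ j, a j • fderiv ℝ (gr (f j ∘ φ.symm)) (φ x)) (φ x) := by
    have h1 : HasFDerivAt (gr (H ∘ φ.symm)) (fderiv ℝ (gr (H ∘ φ.symm)) (φ x)) (φ x) :=
      (((gr_contDiffOn hTo cH).contDiffAt (hTo.mem_nhds hz)).differentiableAt
        (by simp)).hasFDerivAt
    have h2 : ∀ j ∈ Finset.univ, HasFDerivAt (fun z => a j • gr (f j ∘ φ.symm) z)
        (a j • fderiv ℝ (gr (f j ∘ φ.symm)) (φ x)) (φ x) := fun j _ =>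
      (((gr_contDiffOn hTo (cf j)).contDiffAt (hTo.mem_nhds hz)).differentiableAt
        (by simp)).hasFDerivAt.const_smul (a j)
    exact h1.add (HasFDerivAt.fun_sum h2)
  have key : ∀ᶠ z in 𝓝[≠] (φ x), F z ≠ 0 := by
    by_cases h0 : F (φ x) = 0
    · have hdet := hnd h0
      refine hder.eventually_ne ?_
      set e := ContinuousLinearMap.toContinuousLinearEquivOfDetNeZero _ hdet with he
      exact ⟨_, e.antilipschitz⟩
    · exact (hder.continuousAt.eventually_ne h0).filter_mono nhdsWithin_le_nhds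
  have htend : Tendsto φ (𝓝[≠] x) (𝓝[≠] (φ x)) := by
    refine tendsto_nhdsWithin_iff.2 ⟨(continuousAt_extChartAt' hx).tendsto.mono_left
      nhdsWithin_le_nhds, ?_⟩
    have h1 : ∀ᶠ y in 𝓝[≠] x, y ∈ φ.source :=
      ((isOpen_extChartAt_source (I := 𝓡 n) c).eventually_mem hx).filter_mono nhdsWithin_le_nhds
    filter_upwards [h1, self_mem_nhdsWithin] with y hy hyx h
    exact hyx (φ.injOn hy hx h)
  have h1 : ∀ᶠ y in 𝓝[≠] x, y ∈ φ.source :=
    ((isOpen_extChartAt_source (I := 𝓡 n) c).eventually_mem hx).filter_mono nhdsWithin_le_nhds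
  filter_upwards [htend.eventually key, h1] with y hy hys h0
  apply hy
  have hyT : φ y ∈ T := φ.map_source hys
  have hdiff : ContMDiff (𝓡 n) 𝓘(ℝ, ℝ) 2 (fun x => H x + ∑ j, a j * f j x) := by
    refine hH.add ?_
    refine contMDiff_finsetSum fun j _ => ?_
    exact contMDiff_const.mul (hf j)
  have h2 := fd_zero (hdiff.mdifferentiableAt (by simp)) h0 hys
  have h3 : gr ((fun x => H x + ∑ j, a j * f j x) ∘ φ.symm) (φ y) = 0 := by
    unfold gr
    rw [h2, map_zero]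
  have h4 : F (φ y) = gr (H ∘ φ.symm) (φ y) + gr (fun z => ∑ j, a j * (f j ∘ φ.symm) z) (φ y) := by
    rw [← gr_sum hTo cf a hyT]
  rw [h4, ← gr_add hTo cH ?_ hyT]
  · exact h3
  · exact ContDiffOn.sum fun j _ => contDiffOn_const.mul (cf j)

variable (n) in
/-- The critical points of `h` are nondegenerate. -/
def IsMorse (h : M → ℝ) : Prop :=
  ∀ x, mfderiv (𝓡 n) 𝓘(ℝ, ℝ) h x = 0 → ∃ c : M, x ∈ (extChartAt (𝓡 n) c).source ∧
    (fderiv ℝ (gr (h ∘ (extChartAt (𝓡 n) c).symm)) (extChartAt (𝓡 n) c x)).det ≠ 0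

lemma gr_family {J : Type*} [Fintype J] {H : M → ℝ} (hH : ContMDiff (𝓡 n) 𝓘(ℝ, ℝ) 2 H)
    {f : J → M → ℝ} (hf : ∀ j, ContMDiff (𝓡 n) 𝓘(ℝ, ℝ) 2 (f j)) (a : J → ℝ) (c : M)
    {z : EuclideanSpace ℝ (Fin n)} (hz : z ∈ (extChartAt (𝓡 n) c).target) :
    gr ((fun x => H x + ∑ j, a j * f j x) ∘ (extChartAt (𝓡 n) c).symm) z =
      gr (H ∘ (extChartAt (𝓡 n) c).symm) z +
        ∑ j, a j • gr (f j ∘ (extChartAt (𝓡 n) c).symm) z := by
  have hTo : IsOpen (extChartAt (𝓡 n) c).target := isOpen_extChartAt_target c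
  have cH := chart_contDiffOn hH c
  have cf := fun j => chart_contDiffOn (hf j) c
  rw [gr_sum hTo cf a hz, ← gr_add hTo cH ?_ hz]
  · rfl
  · exact ContDiffOn.sum fun j _ => contDiffOn_const.mul (cf j)

/-- There are finitely many smooth functions `f j` on the closed manifold `M` such that for every
`C²` function `H` and almost every `a` the function `H + ∑ a_j f_j` is a Morse function with only
finitely many critical points. -/
theorem exists_family [T2Space M] [CompactSpace M] :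
    ∃ (J : Type u) (_ : Fintype J) (f : J → M → ℝ),
      (∀ j, ContMDiff (𝓡 n) 𝓘(ℝ, ℝ) ∞ (f j)) ∧
      ∀ H : M → ℝ, ContMDiff (𝓡 n) 𝓘(ℝ, ℝ) 2 H → ∀ᵐ a : J → ℝ,
        {x | mfderiv (𝓡 n) 𝓘(ℝ, ℝ) (fun x => H x + ∑ j, a j * f j x) x = 0}.Finite ∧
        IsMorse n (fun x => H x + ∑ j, a j * f j x) := by
  classical
  -- bump functions
  have hb : ∀ c : M, Nonempty (SmoothBumpFunction (𝓡 n) c) := fun c => inferInstance
  have ρ : ∀ c : M, SmoothBumpFunction (𝓡 n) c := fun c => Classical.choice (hb c)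
  set W : M → Set (EuclideanSpace ℝ (Fin n)) := fun c =>
    (extChartAt (𝓡 n) c).target ∩ (extChartAt (𝓡 n) c).symm ⁻¹' interior {x | ρ c x = 1} with hWdef
  have hW : ∀ c, IsOpen (W c) := fun c =>
    (continuousOn_extChartAt_symm c).isOpen_inter_preimage (isOpen_extChartAt_target c)
      isOpen_interior
  have hcW : ∀ c, extChartAt (𝓡 n) c c ∈ W c := by
    intro c
    refine ⟨mem_extChartAt_target c, ?_⟩
    rw [mem_preimage, extChartAt_to_inv, mem_interior_iff_mem_nhds]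
    exact (ρ c).eventuallyEq_one
  have hr : ∀ c, ∃ r > 0, Metric.closedBall (extChartAt (𝓡 n) c c) r ⊆ W c := fun c =>
    Metric.nhds_basis_closedBall.mem_iff.1 ((hW c).mem_nhds (hcW c))
  choose r hr0 hrW using hr
  set Nb : M → Set M := fun c => (extChartAt (𝓡 n) c).source ∩
    extChartAt (𝓡 n) c ⁻¹' Metric.ball (extChartAt (𝓡 n) c c) (r c) with hNb
  have hNo : ∀ c, IsOpen (Nb c) := fun c =>
    (continuousOn_extChartAt c).isOpen_inter_preimage (isOpen_extChartAt_source c)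
      Metric.isOpen_ball
  have hcN : ∀ c, c ∈ Nb c := fun c =>
    ⟨mem_extChartAt_source c, Metric.mem_ball_self (hr0 c)⟩
  obtain ⟨t, ht⟩ := isCompact_univ.elim_finite_subcover Nb hNo
    (fun x _ => mem_iUnion.2 ⟨x, hcN x⟩)
  set f : ({c // c ∈ t} × ULift.{u} (Fin n)) → M → ℝ := fun q x =>
    ρ q.1.1 x * (extChartAt (𝓡 n) q.1.1 x) q.2.down with hfdef
  have hf : ∀ j, ContMDiff (𝓡 n) 𝓘(ℝ, ℝ) ∞ (f j) := by
    rintro ⟨c, k⟩
    have h1 : ContMDiffOn (𝓡 n) 𝓘(ℝ, ℝ) ∞ (fun x => (extChartAt (𝓡 n) c.1 x) k.down)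
        (chartAt (EuclideanSpace ℝ (Fin n)) c.1).source := by
      have h2 : ContMDiffOn (𝓡 n) 𝓘(ℝ, EuclideanSpace ℝ (Fin n)) ∞ (extChartAt (𝓡 n) c.1)
          (chartAt (EuclideanSpace ℝ (Fin n)) c.1).source := contMDiffOn_extChartAt
      exact ((EuclideanSpace.proj k.down : EuclideanSpace ℝ (Fin n) →L[ℝ] ℝ).contMDiff).comp_contMDiffOn h2
    exact (ρ c.1).contMDiff_smul h1
  refine ⟨{c // c ∈ t} × ULift.{u} (Fin n), inferInstance, f, hf, fun H hH => ?_⟩
  have hf2 : ∀ j, ContMDiff (𝓡 n) 𝓘(ℝ, ℝ) 2 (f j) := fun j =>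
    (hf j).of_le two_le_infty
  have hall : ∀ᵐ a : ({c // c ∈ t} × ULift.{u} (Fin n)) → ℝ, ∀ c : {c // c ∈ t},
      ∀ z ∈ Metric.closedBall (extChartAt (𝓡 n) c.1 c.1) (r c.1),
      gr (H ∘ (extChartAt (𝓡 n) c.1).symm) z +
        ∑ j, a j • gr (f j ∘ (extChartAt (𝓡 n) c.1).symm) z = 0 →
      (fderiv ℝ (gr (H ∘ (extChartAt (𝓡 n) c.1).symm)) z +
        ∑ j, a j • fderiv ℝ (gr (f j ∘ (extChartAt (𝓡 n) c.1).symm)) z).det ≠ 0 := by
    rw [ae_all_iff]
    intro c
    have cH := (chart_contDiffOn hH c.1).mono (inter_subset_left : W c.1 ⊆ _)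
    have cf := fun j => (chart_contDiffOn (hf2 j) c.1).mono (inter_subset_left : W c.1 ⊆ _)
    let L : EuclideanSpace ℝ (Fin n) →ₗ[ℝ] (({c // c ∈ t} × ULift.{u} (Fin n)) → ℝ) :=
      { toFun := fun b q => if q.1 = c then b q.2.down else 0
        map_add' := by
          intro b b'
          ext q
          by_cases h : q.1 = c <;> simp [h]
        map_smul' := by
          intro s b
          ext q
          by_cases h : q.1 = c <;> simp [h] }
    refine ae_nondeg (hW c.1) (isCompact_closedBall _ _) (hrW c.1) (gr_contDiffOn (hW c.1) cH)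
      (fun j => gr_contDiffOn (hW c.1) (cf j)) L ?_
    intro b z hz
    rw [gr_sum (hW c.1) cf (L b) hz]
    refine gr_inner (hW c.1) b ?_ hz
    intro z hz
    have hρ : ρ c.1 ((extChartAt (𝓡 n) c.1).symm z) = 1 := interior_subset (s := {x | ρ c.1 x = 1}) hz.2
    have hz' : extChartAt (𝓡 n) c.1 ((extChartAt (𝓡 n) c.1).symm z) = z :=
      (extChartAt (𝓡 n) c.1).right_inv hz.1
    rw [Fintype.sum_prod_type, Finset.sum_eq_single c]
    · have e1 : ∀ k : ULift.{u} (Fin n), L b (c, k) * (f (c, k) ∘ (extChartAt (𝓡 n) c.1).symm) z =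
          b k.down * z k.down := by
        intro k
        have e2 : L b (c, k) = b k.down := by
          show (if (c, k).1 = c then b (c, k).2.down else 0) = _
          simp
        have e3 : (f (c, k) ∘ (extChartAt (𝓡 n) c.1).symm) z = z k.down := by
          show ρ c.1 ((extChartAt (𝓡 n) c.1).symm z) *
            (extChartAt (𝓡 n) c.1 ((extChartAt (𝓡 n) c.1).symm z)) k.down = _
          rw [hρ, hz', one_mul]
        rw [e2, e3]
      rw [Finset.sum_congr rfl fun k _ => e1 k]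
      rw [PiLp.inner_apply]
      refine Fintype.sum_equiv Equiv.ulift _ _ fun k => ?_
      simp [mul_comm]
    · intro c' _ hc'
      refine Finset.sum_eq_zero fun k _ => ?_
      have e2 : L b (c', k) = 0 := by
        show (if (c', k).1 = c then b (c', k).2.down else 0) = _
        simp [hc']
      rw [e2, zero_mul]
    · intro h
      exact absurd (Finset.mem_univ _) h
  filter_upwards [hall] with a ha
  refine ⟨?_, ?_⟩
  swap
  · intro x hx
    obtain ⟨c, hc⟩ : ∃ c : {c // c ∈ t}, x ∈ Nb c.1 := by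
      have := ht (mem_univ x)
      simp only [mem_iUnion] at this
      obtain ⟨c, hc, hx⟩ := this
      exact ⟨⟨c, hc⟩, hx⟩
    refine ⟨c.1, hc.1, ?_⟩
    have hTo : IsOpen (extChartAt (𝓡 n) c.1).target := isOpen_extChartAt_target c.1
    have hzT : extChartAt (𝓡 n) c.1 x ∈ (extChartAt (𝓡 n) c.1).target :=
      (extChartAt (𝓡 n) c.1).map_source hc.1
    have hdiff : ContMDiff (𝓡 n) 𝓘(ℝ, ℝ) 2 (fun x => H x + ∑ j, a j * f j x) := by
      refine hH.add ?_
      refine contMDiff_finsetSum fun j _ => ?_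
      exact contMDiff_const.mul (hf2 j)
    have h0 := fd_zero (hdiff.mdifferentiableAt (by simp)) hx hc.1
    have h1 : gr ((fun x => H x + ∑ j, a j * f j x) ∘ (extChartAt (𝓡 n) c.1).symm)
        (extChartAt (𝓡 n) c.1 x) = 0 := by
      unfold gr
      rw [h0, map_zero]
    rw [gr_family hH hf2 a c.1 hzT] at h1
    have h2 := ha c _ (Metric.ball_subset_closedBall hc.2) h1
    have h3 : HasFDerivAt (gr ((fun x => H x + ∑ j, a j * f j x) ∘ (extChartAt (𝓡 n) c.1).symm))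
        (fderiv ℝ (gr (H ∘ (extChartAt (𝓡 n) c.1).symm)) (extChartAt (𝓡 n) c.1 x) +
          ∑ j, a j • fderiv ℝ (gr (f j ∘ (extChartAt (𝓡 n) c.1).symm))
            (extChartAt (𝓡 n) c.1 x)) (extChartAt (𝓡 n) c.1 x) := by
      have k1 : HasFDerivAt (gr (H ∘ (extChartAt (𝓡 n) c.1).symm))
          (fderiv ℝ (gr (H ∘ (extChartAt (𝓡 n) c.1).symm)) (extChartAt (𝓡 n) c.1 x))
          (extChartAt (𝓡 n) c.1 x) :=
        (((gr_contDiffOn hTo (chart_contDiffOn hH c.1)).contDiffAt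
          (hTo.mem_nhds hzT)).differentiableAt (by simp)).hasFDerivAt
      have k2 : ∀ j ∈ Finset.univ, HasFDerivAt
          (fun z => a j • gr (f j ∘ (extChartAt (𝓡 n) c.1).symm) z)
          (a j • fderiv ℝ (gr (f j ∘ (extChartAt (𝓡 n) c.1).symm)) (extChartAt (𝓡 n) c.1 x))
          (extChartAt (𝓡 n) c.1 x) := fun j _ =>
        (((gr_contDiffOn hTo (chart_contDiffOn (hf2 j) c.1)).contDiffAt
          (hTo.mem_nhds hzT)).differentiableAt (by simp)).hasFDerivAt.const_smul (a j)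
      refine (k1.add (HasFDerivAt.fun_sum k2)).congr_of_eventuallyEq ?_
      filter_upwards [hTo.mem_nhds hzT] with z hz
      exact gr_family hH hf2 a c.1 hz
    rw [h3.fderiv]
    exact h2
  by_contra hinf
  obtain ⟨x, -, hx⟩ := Set.Infinite.exists_accPt_of_subset_isCompact (K := univ)
    (Set.not_finite.1 hinf) isCompact_univ (subset_univ _)
  obtain ⟨c, hc⟩ : ∃ c : {c // c ∈ t}, x ∈ Nb c.1 := by
    have := ht (mem_univ x)
    simp only [mem_iUnion] at this
    obtain ⟨c, hc, hx⟩ := this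
    exact ⟨⟨c, hc⟩, hx⟩
  have hiso := isolated hH hf2 a c.1 x hc.1
    (ha c (extChartAt (𝓡 n) c.1 x) (Metric.ball_subset_closedBall hc.2))
  rw [accPt_iff_frequently_nhdsNE] at hx
  obtain ⟨y, hy, hy'⟩ := (hx.and_eventually hiso).exists
  exact hy' hy

end mfd

end Pool.Agent.W5h51.FL
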