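import Mathlib
import Pool.Agent.W5h51.FL.Flow
import Pool.Agent.W5h51.FL.Dyn
import Pool.Agent.W5h51.FL.Morse
import Pool.Agent.H826R2.Wein.Grad

/-! Vector fields, and perturbations by gradients. -/

set_option autoImplicit false
set_option linter.unusedSectionVars false

open scoped Topology ContDiff Manifold
open Set Filter MeasureTheory Pool.Agent.Helper186 Pool.Agent.H826R2.Wein

noncomputable section

namespace Pool.Agent.W5h51.FL

universe u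

/-- The vector space of `C^r` vector fields on `M`. -/
abbrev VF (n : ℕ) (M : Type u) [TopologicalSpace M] [ChartedSpace (EuclideanSpace ℝ (Fin n)) M]
    [IsManifold (𝓡 n) ∞ M] (r : ℕ∞) : Type u :=
  ContMDiffSection (𝓡 n) (EuclideanSpace ℝ (Fin n)) (r : ℕ∞ω)
    (TangentSpace (𝓡 n) : M → Type _)

variable {n : ℕ} {M : Type u} [TopologicalSpace M] [ChartedSpace (EuclideanSpace ℝ (Fin n)) M]
  [IsManifold (𝓡 n) ∞ M]

variable (n) in
/-- the differential of a function -/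
def df (f : M → ℝ) (x : M) : TangentSpace (𝓡 n) x →L[ℝ] ℝ := mfderiv (𝓡 n) 𝓘(ℝ, ℝ) f x

lemma contMDiff_df {r : ℕ∞} {f : M → ℝ} (hf : ContMDiff (𝓡 n) 𝓘(ℝ, ℝ) (r + 1) f)
    {W : (x : M) → TangentSpace (𝓡 n) x}
    (hW : ContMDiff (𝓡 n) (𝓡 n).tangent r (fun x => (⟨x, W x⟩ : TangentBundle (𝓡 n) M))) :
    ContMDiff (𝓡 n) 𝓘(ℝ, ℝ) r (fun x => df n f x (W x)) := by
  have h1 : ContMDiff (𝓡 n).tangent 𝓘(ℝ, ℝ).tangent r (tangentMap (𝓡 n) 𝓘(ℝ, ℝ) f) :=
    hf.contMDiff_tangentMap le_rfl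
  have h2 := h1.comp hW
  have h3 := contMDiff_snd_tangentBundle_modelSpace ℝ 𝓘(ℝ, ℝ) (n := r)
  exact h3.comp h2

/-- derivative of a function along an integral curve -/
lemma hasDerivAt_along {W : (x : M) → TangentSpace (𝓡 n) x} {c : ℝ → M}
    (hc : IsMIntegralCurve c W) {f : M → ℝ} (hf : ContMDiff (𝓡 n) 𝓘(ℝ, ℝ) 1 f) (t : ℝ) :
    HasDerivAt (fun s => f (c s)) (df n f (c t) (W (c t))) t := by
  have h1 := HasMFDerivAt.comp t (g := f) (f := c)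
    (hf.mdifferentiableAt (by simp)).hasMFDerivAt (hc t)
  have h2 : HasFDerivAt (fun s => f (c s)) (show ℝ →L[ℝ] ℝ from
      (mfderiv (𝓡 n) 𝓘(ℝ, ℝ) f (c t)).comp ((1 : ℝ →L[ℝ] ℝ).smulRight (W (c t)))) t :=
    hasMFDerivAt_iff_hasFDerivAt.1 h1
  have h3 := h2.hasDerivAt
  refine h3.congr_deriv ?_
  show (mfderiv (𝓡 n) 𝓘(ℝ, ℝ) f (c t)) ((1:ℝ) • W (c t)) = _
  rw [one_smul]
  rfl

/-- Finitely many smooth vector fields spanning all tangent spaces. -/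
theorem exists_frame [T2Space M] [CompactSpace M] :
    ∃ (N : ℕ) (W : Fin N → (x : M) → TangentSpace (𝓡 n) x),
      (∀ i, ContMDiff (𝓡 n) (𝓡 n).tangent ∞ (fun x => (⟨x, W i x⟩ : TangentBundle (𝓡 n) M))) ∧
      ∀ (x : M) (α : TangentSpace (𝓡 n) x →L[ℝ] ℝ), (∀ i, α (W i x) = 0) → α = 0 := by
  obtain ⟨N, e, he1, -, he3⟩ := exists_embedding_euclidean_of_compact (I := 𝓡 n) (M := M)
  let ι : Imm (E := EuclideanSpace ℝ (Fin n)) M N := ⟨e, he1, he3⟩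
  have hco : ∀ i : Fin N, ContMDiff (𝓡 n) 𝓘(ℝ, ℝ) ∞ (fun x => e x i) := fun i =>
    ((EuclideanSpace.proj i : EuclideanSpace ℝ (Fin N) →L[ℝ] ℝ).contMDiff).comp he1
  refine ⟨N, fun i => ι.grad (fun x => e x i), fun i => ι.smooth_grad (hco i), ?_⟩
  intro x α h
  obtain ⟨u, hu⟩ := ι.exists_sh x α
  have hv : ι.D x u = 0 := by
    ext i
    have h1 : dForm (𝓡 n) (fun x => e x i) x u = (ι.D x u) i := by
      have h2 : mfderiv (𝓡 n) 𝓘(ℝ, ℝ)
          ((EuclideanSpace.proj i : EuclideanSpace ℝ (Fin N) →L[ℝ] ℝ) ∘ e) x =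
          (mfderiv 𝓘(ℝ, EuclideanSpace ℝ (Fin N)) 𝓘(ℝ, ℝ)
            (EuclideanSpace.proj i : EuclideanSpace ℝ (Fin N) →L[ℝ] ℝ) (e x)).comp
          (mfderiv (𝓡 n) 𝓘(ℝ, EuclideanSpace ℝ (Fin N)) e x) :=
        mfderiv_comp x ((EuclideanSpace.proj i : EuclideanSpace ℝ (Fin N) →L[ℝ] ℝ).contMDiff.mdifferentiableAt (n := 1) (by simp))
          (he1.mdifferentiableAt (by simp))
      have h3 := DFunLike.congr_fun h2 u
      rw [mfderiv_eq_fderiv, ContinuousLinearMap.fderiv] at h3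
      exact h3
    have h4 : α (ι.grad (fun x => e x i) x) = 0 := h i
    rw [← hu, ι.B_apply, real_inner_comm, ← ι.B_apply, ι.grad_spec, h1] at h4
    exact h4
  refine ContinuousLinearMap.ext fun v => ?_
  rw [← hu, ι.B_apply, hv, inner_zero_left]
  rfl

end Pool.Agent.W5h51.FL
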