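import Mathlib
import Pool.Agent.W5h51.FL.Field

/-! Fields with a Lyapunov function; perturbations. -/

set_option autoImplicit false
set_option linter.unusedSectionVars false

open scoped Topology ContDiff Manifold
open Set Filter MeasureTheory

noncomputable section

namespace Pool.Agent.W5h51.FL

universe u

variable {n : ℕ} {M : Type u} [TopologicalSpace M] [ChartedSpace (EuclideanSpace ℝ (Fin n)) M]
  [IsManifold (𝓡 n) ∞ M]

section core

variable [T2Space M] [CompactSpace M]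

/-- Fields with a Lyapunov function `h`, with derivative `D` along the orbits, have finitely many
attractors, if the orbits along which `D = 0` are contained in finitely many disjoint closed
transitive sets. -/
theorem core_gen {Y : (x : M) → TangentSpace (𝓡 n) x}
    (hY : ContMDiff (𝓡 n) (𝓡 n).tangent 1 (fun x => (⟨x, Y x⟩ : TangentBundle (𝓡 n) M)))
    {ψ : M → ℝ → M} (hψ : IsFlow Y ψ) {h D : M → ℝ} (hh : Continuous h)
    (hD : ∀ x t, HasDerivAt (fun s => h (ψ x s)) (D (ψ x t)) t)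
    (hm : ∀ x, 0 ≤ D x) {m : ℕ} (Λ : Fin m → Set M) (hcl : ∀ i, IsClosed (Λ i))
    (hdis : ∀ i j, i ≠ j → Disjoint (Λ i) (Λ j))
    (hcov : ∀ x, (∀ t, D (ψ x t) = 0) → ∃ i, x ∈ Λ i) (p : M) :
    ∃ i, omegaFlow ψ p ⊆ Λ i := by
  have : IsManifold (𝓡 n) 1 M := IsManifold.of_le (n := ∞) (by simp)
  have hadd := flow_add hY hψ
  have hct := continuous_flow hY hψ
  have hmono : ∀ x, ∀ t, 0 ≤ t → h x ≤ h (ψ x t) := by
    intro x t ht
    have h1 : Monotone fun s => h (ψ x s) :=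
      monotone_of_hasDerivAt_nonneg (fun s => hD x s) (fun s => hm _)
    have h2 := h1 ht
    simp only [(hψ x).1] at h2
    exact h2
  refine omega_one (hψ p).2.continuous Λ hcl hdis fun q hq => ?_
  have h1 := lasalle hadd hct hh hmono hq
  have h2 : ∀ t, D (ψ q t) = 0 := by
    intro t
    have h3 := hD q t
    have h4 : (fun s => h (ψ q s)) = fun _ => h q := by
      funext s
      exact h1 s
    rw [h4] at h3
    exact h3.unique (hasDerivAt_const t (h q))
  obtain ⟨i, hi⟩ := hcov q h2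
  exact mem_iUnion.2 ⟨i, hi⟩

/-- Fields with a Lyapunov function `h` have finitely many attractors, if the orbits along which `h`
is constant are contained in finitely many disjoint closed transitive sets. -/
theorem core {Y : (x : M) → TangentSpace (𝓡 n) x}
    (hY : ContMDiff (𝓡 n) (𝓡 n).tangent 1 (fun x => (⟨x, Y x⟩ : TangentBundle (𝓡 n) M)))
    {ψ : M → ℝ → M} (hψ : IsFlow Y ψ) {h : M → ℝ} (hh : ContMDiff (𝓡 n) 𝓘(ℝ, ℝ) 1 h)
    (hm : ∀ x, 0 ≤ df n h x (Y x)) {m : ℕ} (Λ : Fin m → Set M) (hcl : ∀ i, IsClosed (Λ i))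
    (hdis : ∀ i j, i ≠ j → Disjoint (Λ i) (Λ j))
    (hcov : ∀ x, (∀ t, df n h (ψ x t) (Y (ψ x t)) = 0) → ∃ i, x ∈ Λ i) (p : M) :
    ∃ i, omegaFlow ψ p ⊆ Λ i :=
  core_gen hY hψ (D := fun x => df n h x (Y x)) hh.continuous
    (fun x t => hasDerivAt_along (hψ x).2 hh t) hm Λ hcl hdis hcov p

/-- If the `ω`-limit set is contained in a point, the orbit converges to it. -/
lemma tendsto_of_omega {ψ : M → ℝ → M} {p z : M} (h : omegaFlow ψ p ⊆ {z}) :
    Tendsto (ψ p) atTop (𝓝 z) := by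
  refine le_nhds_of_unique_clusterPt fun x hx => ?_
  exact h (mem_omegaFlow.2 hx)

/-- The flow fixes the zeros of the field. -/
lemma flow_zero {Y : (x : M) → TangentSpace (𝓡 n) x}
    (hY : ContMDiff (𝓡 n) (𝓡 n).tangent 1 (fun x => (⟨x, Y x⟩ : TangentBundle (𝓡 n) M)))
    {ψ : M → ℝ → M} (hψ : IsFlow Y ψ) {z : M} (hz : Y z = 0) (t : ℝ) : ψ z t = z := by
  have : IsManifold (𝓡 n) 1 M := IsManifold.of_le (n := ∞) (by simp)
  have h1 : IsMIntegralCurve (fun _ : ℝ => z) Y := by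
    intro t
    have h1 : HasMFDerivAt 𝓘(ℝ, ℝ) (𝓡 n) (fun _ : ℝ => z) t
        (0 : ℝ →L[ℝ] EuclideanSpace ℝ (Fin n)) := hasMFDerivAt_const z t
    refine h1.congr_mfderiv ?_
    show (0 : ℝ →L[ℝ] EuclideanSpace ℝ (Fin n)) = (1 : ℝ →L[ℝ] ℝ).smulRight (Y z)
    rw [hz]
    refine ContinuousLinearMap.ext fun (r : ℝ) => ?_
    show (0 : EuclideanSpace ℝ (Fin n)) = r • (0 : EuclideanSpace ℝ (Fin n))
    rw [smul_zero]
  have h2 := flow_unique hY (hψ z).2 h1 (hψ z).1
  exact congrFun h2 t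

/-- Fields with a Lyapunov function whose derivative vanishes at finitely many points only. -/
theorem core_points {Y : (x : M) → TangentSpace (𝓡 n) x}
    (hY : ContMDiff (𝓡 n) (𝓡 n).tangent 1 (fun x => (⟨x, Y x⟩ : TangentBundle (𝓡 n) M)))
    {ψ : M → ℝ → M} (hψ : IsFlow Y ψ) {h D : M → ℝ} (hh : Continuous h)
    (hD : ∀ x t, HasDerivAt (fun s => h (ψ x s)) (D (ψ x t)) t)
    (hm : ∀ x, 0 ≤ D x) {Z : Set M} (hZ : Z.Finite) (hYZ : ∀ z ∈ Z, Y z = 0)
    (hcov : ∀ x, D x = 0 → x ∈ Z) :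
    (∀ p, ∃ z ∈ Z, Tendsto (ψ p) atTop (𝓝 z)) ∧
      ∀ (_ : MeasurableSpace M) (μ : Measure M), FlowFiniteAttractors μ ψ := by
  classical
  set T := hZ.toFinset with hT
  let e := T.equivFin
  set Λ : Fin T.card → Set M := fun i => {((e.symm i : T) : M)} with hΛ
  have hmem : ∀ i, ((e.symm i : T) : M) ∈ Z := fun i => hZ.mem_toFinset.1 (e.symm i).2
  have h1 : ∀ p, ∃ i, omegaFlow ψ p ⊆ Λ i := by
    refine core_gen hY hψ hh hD hm Λ (fun i => isClosed_singleton) ?_ ?_
    · intro i j hij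
      rw [hΛ]
      simp only [Set.disjoint_singleton]
      intro h
      exact hij (e.symm.injective (Subtype.ext h))
    · intro x hx
      have h2 := hx 0
      rw [(hψ x).1] at h2
      have hxZ := hcov x h2
      refine ⟨e ⟨x, hZ.mem_toFinset.2 hxZ⟩, ?_⟩
      show x = ((e.symm (e ⟨x, hZ.mem_toFinset.2 hxZ⟩) : T) : M)
      rw [Equiv.symm_apply_apply]
  refine ⟨fun p => ?_, fun _ μ => finite_of_cover μ Λ ?_ ?_ h1⟩
  · obtain ⟨i, hi⟩ := h1 p
    exact ⟨_, hmem i, tendsto_of_omega hi⟩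
  · intro i t
    rw [hΛ]
    simp only [image_singleton]
    rw [flow_zero hY hψ (hYZ _ (hmem i))]
  · intro i
    refine ⟨_, rfl, ?_⟩
    rintro x hx
    have hx' : x = ((e.symm i : T) : M) := hx
    refine subset_closure ⟨0, self_mem_Ici, ?_⟩
    rw [(hψ _).1, hx']

end core

/-- Every forward orbit of the flow of `Y` converges to one of finitely many zeros of `Y`, and the
flow has finitely many attractors covering `M` up to a null set, for every measure on `M`. -/
def FinitelyManyEquilibria (Y : (x : M) → TangentSpace (𝓡 n) x) : Prop :=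
  ∃ ψ : M → ℝ → M, IsFlow Y ψ ∧
    (∃ Z : Set M, Z.Finite ∧ (∀ z ∈ Z, Y z = 0) ∧ ∀ p, ∃ z ∈ Z, Tendsto (ψ p) atTop (𝓝 z)) ∧
    ∀ (_ : MeasurableSpace M) (μ : Measure M), FlowFiniteAttractors μ ψ

end Pool.Agent.W5h51.FL
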