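import Mathlib
import Pool.Agent.W5h51.FL.Field

/-! The `C^k` topologies on spaces of vector fields. -/

set_option autoImplicit false
set_option linter.unusedSectionVars false

open scoped Topology ContDiff Manifold
open Set Filter MeasureTheory Bundle

noncomputable section

namespace Pool.Agent.W5h51.FL

universe u

variable {n : ℕ} {M : Type u} [TopologicalSpace M] [ChartedSpace (EuclideanSpace ℝ (Fin n)) M]
  [IsManifold (𝓡 n) ∞ M]

/-- The coordinate representation of the vector field `Y` in the chart at `c`: the push-forward of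
`Y` under the chart, a map defined on the chart image. -/
def rep (Y : (x : M) → TangentSpace (𝓡 n) x) (c : M) (z : EuclideanSpace ℝ (Fin n)) :
    EuclideanSpace ℝ (Fin n) :=
  mfderiv (𝓡 n) 𝓘(ℝ, EuclideanSpace ℝ (Fin n)) (extChartAt (𝓡 n) c)
    ((extChartAt (𝓡 n) c).symm z) (Y ((extChartAt (𝓡 n) c).symm z))

/-- `U` is a neighbourhood of the vector field `Y` in the `C^k` topology: it contains all the fields
whose coordinate representations, in finitely many charts and over compact subsets of the chart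
images, are uniformly `δ`-close to those of `Y` together with all their derivatives of order at
most `m`, for some `m ≤ k` and `δ > 0`. -/
def CkNhd {r : ℕ∞} (k : ℕ∞) (Y : VF n M r) (U : Set (VF n M r)) : Prop :=
  ∃ (t : Finset M) (K : M → Set (EuclideanSpace ℝ (Fin n))) (m : ℕ) (δ : ℝ),
    (∀ c ∈ t, IsCompact (K c) ∧ K c ⊆ (extChartAt (𝓡 n) c).target) ∧ (m : ℕ∞) ≤ k ∧ 0 < δ ∧
    ∀ Y' : VF n M r, (∀ c ∈ t, ∀ z ∈ K c, ∀ j ≤ m,
      ‖iteratedFDeriv ℝ j (rep Y' c) z - iteratedFDeriv ℝ j (rep Y c) z‖ ≤ δ) → Y' ∈ U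

set_option backward.isDefEq.respectTransparency false in
lemma rep_contDiffOn {r : ℕ∞} (Y : VF n M r) (c : M) :
    ContDiffOn ℝ r (rep Y c) (extChartAt (𝓡 n) c).target := by
  have : IsManifold (𝓡 n) 1 M := IsManifold.of_le (n := ∞) (by simp)
  set e := trivializationAt (EuclideanSpace ℝ (Fin n)) (TangentSpace (𝓡 n) : M → Type _) c with he
  have h1 : ContMDiffOn (𝓡 n) 𝓘(ℝ, EuclideanSpace ℝ (Fin n)) r (fun x => (e ⟨x, Y x⟩).2)
      e.baseSet := by
    have hb := e.contMDiffOn_section_baseSet_iff (IB := 𝓡 n) (n := (r : ℕ∞ω)) (s := fun x => Y x)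
    exact hb.1 Y.contMDiff.contMDiffOn
  have hbs : e.baseSet = (extChartAt (𝓡 n) c).source := by
    rw [he, TangentBundle.trivializationAt_baseSet, extChartAt_source]
  rw [hbs] at h1
  have h2 := (contMDiffOn_extChartAt_symm (I := 𝓡 n) (n := ∞) c).of_le
    (show ((r : ℕ∞) : ℕ∞ω) ≤ ∞ from WithTop.coe_le_coe.2 le_top)
  have h3 := h1.comp h2 (fun z hz => (extChartAt (𝓡 n) c).map_target hz)
  rw [contMDiffOn_iff_contDiffOn] at h3
  refine h3.congr fun z hz => ?_
  have hx : (extChartAt (𝓡 n) c).symm z ∈ (chartAt (EuclideanSpace ℝ (Fin n)) c).source := by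
    rw [← extChartAt_source (𝓡 n)]
    exact (extChartAt (𝓡 n) c).map_target hz
  have h4 := TangentBundle.continuousLinearMapAt_trivializationAt (I := 𝓡 n) hx
  have hxe : (extChartAt (𝓡 n) c).symm z ∈ e.baseSet := by
    rw [he, TangentBundle.trivializationAt_baseSet]
    exact hx
  have h5 : (e.continuousLinearMapAt ℝ ((extChartAt (𝓡 n) c).symm z))
      (Y ((extChartAt (𝓡 n) c).symm z)) =
      (e ⟨(extChartAt (𝓡 n) c).symm z, Y ((extChartAt (𝓡 n) c).symm z)⟩).2 := by
    rw [Trivialization.continuousLinearMapAt_apply, Trivialization.coe_linearMapAt_of_mem _ hxe]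
  exact (DFunLike.congr_fun h4 (Y ((extChartAt (𝓡 n) c).symm z))).symm.trans h5

lemma rep_add_sum {r : ℕ∞} {ι : Type*} [Fintype ι] (X : VF n M r) (Z : ι → VF n M r) (s : ι → ℝ)
    (c : M) (z : EuclideanSpace ℝ (Fin n)) :
    rep (X + ∑ i, s i • Z i : VF n M r) c z = rep X c z + ∑ i, s i • rep (Z i) c z := by
  classical
  have hsum : ∀ (x : M), (X + ∑ i, s i • Z i : VF n M r) x = X x + ∑ i, s i • Z i x := by
    intro x
    have h1 : ∀ T : Finset ι, (∑ i ∈ T, s i • Z i : VF n M r) x = ∑ i ∈ T, s i • Z i x := by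
      intro T
      induction T using Finset.induction_on with
      | empty => simp
      | insert i T hi ih =>
        rw [Finset.sum_insert hi, Finset.sum_insert hi, ← ih]
        rfl
    rw [← h1]
    rfl
  unfold rep
  rw [hsum]
  rw [map_add, map_sum]
  congr 1
  refine Finset.sum_congr rfl fun i _ => ?_
  exact map_smul _ _ _

/-- Small linear combinations of given vector fields are `C^r` small. -/
theorem family_near {r : ℕ∞} {ι : Type*} [Fintype ι] (X : VF n M r) (Z : ι → VF n M r)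
    {U : Set (VF n M r)} (hU : CkNhd r X U) :
    ∃ η : ℝ, 0 < η ∧ ∀ s : ι → ℝ, (∀ i, |s i| ≤ η) → X + ∑ i, s i • Z i ∈ U := by
  classical
  obtain ⟨t, K, m, δ, hK, hm, hδ, hU⟩ := hU
  have hbd : ∀ i : ι, ∀ c ∈ t, ∀ j ≤ m, ∃ C : ℝ, ∀ z ∈ K c,
      ‖iteratedFDeriv ℝ j (rep (Z i) c) z‖ ≤ C := by
    intro i c hc j hj
    refine ((hK c hc).1).exists_bound_of_continuousOn (f := iteratedFDeriv ℝ j (rep (Z i) c)) ?_
    intro z hz
    have hz' := (hK c hc).2 hz
    have h1 : ContDiffAt ℝ r (rep (Z i) c) z :=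
      (rep_contDiffOn (Z i) c).contDiffAt ((isOpen_extChartAt_target c).mem_nhds hz')
    refine (h1.continuousAt_iteratedFDeriv (k := j) ?_).continuousWithinAt
    have : (j : ℕ∞) ≤ r := le_trans (by exact_mod_cast hj) hm
    exact_mod_cast this
  choose! C hC using hbd
  set B : ℝ := ∑ i, ∑ c ∈ t, ∑ j ∈ Finset.range (m + 1), |C i c j| with hB
  have hB0 : 0 ≤ B := by
    rw [hB]
    positivity
  have hle : ∀ c ∈ t, ∀ j ≤ m, ∑ i, |C i c j| ≤ B := by
    intro c hc j hj
    rw [hB]
    refine Finset.sum_le_sum fun i _ => ?_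
    refine le_trans ?_ (Finset.single_le_sum (f := fun c => ∑ j ∈ Finset.range (m + 1), |C i c j|)
      (fun c _ => Finset.sum_nonneg fun _ _ => abs_nonneg _) hc)
    exact Finset.single_le_sum (f := fun j => |C i c j|) (fun _ _ => abs_nonneg _)
      (Finset.mem_range.2 (by omega))
  refine ⟨δ / (B + 1), by positivity, fun s hs => hU _ fun c hc z hz j hj => ?_⟩
  have hz' := (hK c hc).2 hz
  have hjr : (j : ℕ∞) ≤ r := le_trans (by exact_mod_cast hj) hm
  have hcd : ∀ Y : VF n M r, ContDiffAt ℝ j (rep Y c) z := fun Y =>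
    ((rep_contDiffOn Y c).contDiffAt ((isOpen_extChartAt_target c).mem_nhds hz')).of_le
      (by exact_mod_cast hjr)
  have h1 : rep (X + ∑ i, s i • Z i : VF n M r) c = rep X c + fun z => ∑ i, s i • rep (Z i) c z := by
    funext z
    exact rep_add_sum X Z s c z
  have h2 : iteratedFDeriv ℝ j (rep (X + ∑ i, s i • Z i : VF n M r) c) z =
      iteratedFDeriv ℝ j (rep X c) z + ∑ i, s i • iteratedFDeriv ℝ j (rep (Z i) c) z := by
    rw [h1, iteratedFDeriv_add_apply (hcd X)]
    · rw [iteratedFDeriv_fun_sum_apply]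
      · congr 1
        refine Finset.sum_congr rfl fun i _ => ?_
        exact iteratedFDeriv_const_smul_apply' (𝕜 := ℝ) (a := s i) (hcd (Z i))
      · intro i _
        exact ContDiffAt.const_smul (s i) (hcd (Z i))
    · exact ContDiffAt.sum fun i _ => ContDiffAt.const_smul (s i) (hcd (Z i))
  rw [h2, add_sub_cancel_left]
  calc ‖∑ i, s i • iteratedFDeriv ℝ j (rep (Z i) c) z‖
      ≤ ∑ i, ‖s i • iteratedFDeriv ℝ j (rep (Z i) c) z‖ := norm_sum_le _ _
    _ ≤ ∑ i, δ / (B + 1) * |C i c j| := by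
        refine Finset.sum_le_sum fun i _ => ?_
        rw [norm_smul, Real.norm_eq_abs]
        exact mul_le_mul (hs i) ((hC i c hc j hj z hz).trans (le_abs_self _)) (norm_nonneg _)
          (by positivity)
    _ = δ / (B + 1) * ∑ i, |C i c j| := by rw [Finset.mul_sum]
    _ ≤ δ / (B + 1) * B := mul_le_mul_of_nonneg_left (hle c hc j hj) (by positivity)
    _ ≤ δ := by
        rw [div_mul_eq_mul_div, div_le_iff₀ (by positivity)]
        nlinarith

end Pool.Agent.W5h51.FL
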