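import Mathlib
import Pool.Agent.W5h51.FL.Core
import Pool.Agent.W5h51.FL.Top

/-! Fields `A dH`. -/

set_option autoImplicit false
set_option linter.unusedSectionVars false

open scoped Topology ContDiff Manifold
open Set Filter MeasureTheory Bundle

noncomputable section

namespace Pool.Agent.W5h51.FL

universe u

variable {n : ℕ} {M : Type u} [TopologicalSpace M] [ChartedSpace (EuclideanSpace ℝ (Fin n)) M]
  [IsManifold (𝓡 n) ∞ M]

variable (n) in
/-- A `C^r` field `A` of linear maps `T*M → TM` with `⟨α, A α⟩ ≥ 0`. -/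
structure IsNonnegField (r : ℕ∞)
    (A : (x : M) → (TangentSpace (𝓡 n) x →L[ℝ] ℝ) →ₗ[ℝ] TangentSpace (𝓡 n) x) : Prop where
  /-- `A` is of class `C^r`: it maps the differentials of `C^(r+1)` functions to `C^r` fields -/
  smooth : ∀ f : M → ℝ, ContMDiff (𝓡 n) 𝓘(ℝ, ℝ) (r + 1) f →
    ContMDiff (𝓡 n) (𝓡 n).tangent r
      (fun x => (⟨x, A x (df n f x)⟩ : TangentBundle (𝓡 n) M))
  nonneg : ∀ (x : M) (α : TangentSpace (𝓡 n) x →L[ℝ] ℝ), 0 ≤ α (A x α)

lemma VF_sum_apply {r : ℕ∞} {ι : Type*} (T : Finset ι) (Z : ι → VF n M r) (x : M) :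
    (∑ i ∈ T, Z i : VF n M r) x = ∑ i ∈ T, Z i x := by
  classical
  induction T using Finset.induction_on with
  | empty => simp
  | insert i T hi ih =>
    rw [Finset.sum_insert hi, Finset.sum_insert hi, ← ih]
    rfl

lemma one_le_succ (r : ℕ∞) : (1 : ℕ∞ω) ≤ (r : ℕ∞ω) + 1 := le_add_self

lemma succ_le_infty (r : ℕ∞) : (r : ℕ∞ω) + 1 ≤ ∞ := by
  have : ((r + 1 : ℕ∞) : ℕ∞ω) ≤ ∞ := WithTop.coe_le_coe.2 le_top
  exact_mod_cast this

lemma two_le_succ {r : ℕ∞} (hr : 1 ≤ r) : (2 : ℕ∞ω) ≤ (r : ℕ∞ω) + 1 := by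
  have h1 : (1 : ℕ∞ω) ≤ (r : ℕ∞ω) := by exact_mod_cast hr
  calc (2 : ℕ∞ω) = 1 + 1 := by norm_num
    _ ≤ r + 1 := add_le_add h1 le_rfl

lemma df_add {f g : M → ℝ} {x : M} (hf : MDifferentiableAt (𝓡 n) 𝓘(ℝ, ℝ) f x)
    (hg : MDifferentiableAt (𝓡 n) 𝓘(ℝ, ℝ) g x) :
    df n (fun x => f x + g x) x = df n f x + df n g x :=
  (hf.hasMFDerivAt.add hg.hasMFDerivAt).mfderiv

lemma df_mul (c : ℝ) {f : M → ℝ} {x : M} (hf : MDifferentiableAt (𝓡 n) 𝓘(ℝ, ℝ) f x) :
    df n (fun x => c * f x) x = c • df n f x :=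
  (hf.hasMFDerivAt.const_smul c).mfderiv

lemma df_add_sum {J : Type*} [Fintype J] {H : M → ℝ} {f : J → M → ℝ} {x : M}
    (hH : MDifferentiableAt (𝓡 n) 𝓘(ℝ, ℝ) H x)
    (hf : ∀ j, MDifferentiableAt (𝓡 n) 𝓘(ℝ, ℝ) (f j) x) (a : J → ℝ) :
    df n (fun x => H x + ∑ j, a j * f j x) x = df n H x + ∑ j, a j • df n (f j) x := by
  classical
  have h1 : ∀ T : Finset J, MDifferentiableAt (𝓡 n) 𝓘(ℝ, ℝ) (fun x => H x + ∑ j ∈ T, a j * f j x) x
      ∧ df n (fun x => H x + ∑ j ∈ T, a j * f j x) x = df n H x + ∑ j ∈ T, a j • df n (f j) x := by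
    intro T
    induction T using Finset.induction_on with
    | empty => simpa using hH
    | insert i T hi ih =>
      have e1 : (fun x => H x + ∑ j ∈ insert i T, a j * f j x) =
          fun x => (H x + ∑ j ∈ T, a j * f j x) + a i * f i x := by
        funext x
        rw [Finset.sum_insert hi]
        ring
      have h2 : MDifferentiableAt (𝓡 n) 𝓘(ℝ, ℝ) (fun x => a i * f i x) x :=
        ((hf i).hasMFDerivAt.const_smul (a i)).mdifferentiableAt
      rw [e1]
      refine ⟨ih.1.add h2, ?_⟩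
      rw [df_add ih.1 h2, ih.2, df_mul _ (hf i), Finset.sum_insert hi]
      abel
  exact (h1 Finset.univ).2

/-- The perturbed field. -/
structure Pert (r : ℕ∞) (A : (x : M) → (TangentSpace (𝓡 n) x →L[ℝ] ℝ) →ₗ[ℝ] TangentSpace (𝓡 n) x)
    {N : ℕ} (W : Fin N → (x : M) → TangentSpace (𝓡 n) x) (h : M → ℝ) (ε : ℝ)
    (Y : VF n M r) : Prop where
  pos : 0 < ε
  smooth : ContMDiff (𝓡 n) 𝓘(ℝ, ℝ) (r + 1) h
  finite : {x | df n h x = 0}.Finite
  morse : IsMorse n h
  eq : ∀ x, Y x = A x (df n h x) + ε • ∑ i, df n h x (W i x) • W i x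

section

variable [T2Space M] [CompactSpace M]

/-- Every neighbourhood of `A dH` contains a field `A dh + ε ∑ dh(W_i) W_i`, where `h` has only
finitely many critical points. -/
theorem exists_pert {r : ℕ∞} (hr : 1 ≤ r)
    {A : (x : M) → (TangentSpace (𝓡 n) x →L[ℝ] ℝ) →ₗ[ℝ] TangentSpace (𝓡 n) x}
    (hA : IsNonnegField n r A) {H : M → ℝ} (hH : ContMDiff (𝓡 n) 𝓘(ℝ, ℝ) (r + 1) H)
    {N : ℕ} {W : Fin N → (x : M) → TangentSpace (𝓡 n) x}
    (hW : ∀ i, ContMDiff (𝓡 n) (𝓡 n).tangent ∞ (fun x => (⟨x, W i x⟩ : TangentBundle (𝓡 n) M)))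
    (X : VF n M r) (hX : ∀ x, X x = A x (df n H x)) {U : Set (VF n M r)} (hU : CkNhd r X U) :
    ∃ (h : M → ℝ) (ε : ℝ) (Y : VF n M r), Y ∈ U ∧ Pert r A W h ε Y := by
  classical
  obtain ⟨J, _, f, hf, hfin⟩ := exists_family (n := n) (M := M)
  have hf' : ∀ j, ContMDiff (𝓡 n) 𝓘(ℝ, ℝ) (r + 1) (f j) := fun j =>
    (hf j).of_le (succ_le_infty r)
  have hW' : ∀ i, ContMDiff (𝓡 n) (𝓡 n).tangent r
      (fun x => (⟨x, W i x⟩ : TangentBundle (𝓡 n) M)) := fun i =>
    (hW i).of_le (WithTop.coe_le_coe.2 le_top)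
  -- the sections
  have hGs : ∀ g : M → ℝ, ContMDiff (𝓡 n) 𝓘(ℝ, ℝ) (r + 1) g →
      ContMDiff (𝓡 n) (𝓡 n).tangent r
        (fun x => (⟨x, ∑ i, df n g x (W i x) • W i x⟩ : TangentBundle (𝓡 n) M)) := by
    intro g hg
    have h1 := ContMDiff.sum_section (s := Finset.univ)
      (fun i _ => ContMDiff.smul_section (contMDiff_df hg (hW' i)) (hW' i))
    exact h1
  let Gs : (g : M → ℝ) → ContMDiff (𝓡 n) 𝓘(ℝ, ℝ) (r + 1) g → VF n M r := fun g hg =>
    ⟨fun x => ∑ i, df n g x (W i x) • W i x, hGs g hg⟩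
  let As : (g : M → ℝ) → ContMDiff (𝓡 n) 𝓘(ℝ, ℝ) (r + 1) g → VF n M r := fun g hg =>
    ⟨fun x => A x (df n g x), hA.smooth g hg⟩
  -- the family of perturbations, indexed by `Option J ⊕ J`
  let Z : (Option J ⊕ J) → VF n M r := fun q => match q with
    | Sum.inl none => Gs H hH
    | Sum.inl (some j) => As (f j) (hf' j)
    | Sum.inr j => Gs (f j) (hf' j)
  obtain ⟨η, hη, hnear⟩ := family_near X Z hU
  set ε : ℝ := min η 1 with hε
  have hε0 : 0 < ε := by positivity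
  have hopen : IsOpen {a : J → ℝ | ∀ j, |a j| < ε} := by
    have : {a : J → ℝ | ∀ j, |a j| < ε} = ⋂ j, {a : J → ℝ | |a j| < ε} := by
      ext a; simp
    rw [this]
    exact isOpen_iInter_of_finite fun j =>
      isOpen_lt (continuous_abs.comp (continuous_apply j)) continuous_const
  have hne : {a : J → ℝ | ∀ j, |a j| < ε}.Nonempty := ⟨0, fun j => by simpa using hε0⟩
  obtain ⟨a, ha, hafin, hmorse⟩ : ∃ a : J → ℝ, (∀ j, |a j| < ε) ∧
      {x | mfderiv (𝓡 n) 𝓘(ℝ, ℝ) (fun x => H x + ∑ j, a j * f j x) x = 0}.Finite ∧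
      IsMorse n (fun x => H x + ∑ j, a j * f j x) := by
    have h1 := hfin H (hH.of_le (two_le_succ hr))
    have h2 := hopen.measure_pos (volume : Measure (J → ℝ)) hne
    by_contra hcon
    push Not at hcon
    have h3 : {a : J → ℝ | ∀ j, |a j| < ε} ⊆
        {a | ¬ ({x | mfderiv (𝓡 n) 𝓘(ℝ, ℝ) (fun x => H x + ∑ j, a j * f j x) x = 0}.Finite ∧
          IsMorse n (fun x => H x + ∑ j, a j * f j x))} :=
      fun a ha h => hcon a ha h.1 h.2
    exact absurd (measure_mono_null h3 (ae_iff.1 h1)) h2.ne'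
  set s : (Option J ⊕ J) → ℝ := fun q => match q with
    | Sum.inl none => ε
    | Sum.inl (some j) => a j
    | Sum.inr j => ε * a j
  have hs : ∀ q, |s q| ≤ η := by
    rintro ((_ | j) | j)
    · show |ε| ≤ η
      rw [abs_of_pos hε0]
      exact min_le_left _ _
    · exact (ha j).le.trans (min_le_left _ _)
    · show |ε * a j| ≤ η
      rw [abs_mul, abs_of_pos hε0]
      have h1 : ε ≤ 1 := min_le_right _ _
      have h2 : |a j| ≤ η := (ha j).le.trans (min_le_left _ _)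
      calc ε * |a j| ≤ 1 * η := mul_le_mul h1 h2 (abs_nonneg _) zero_le_one
        _ = η := one_mul _
  refine ⟨fun x => H x + ∑ j, a j * f j x, ε, X + ∑ q, s q • Z q, hnear s hs, hε0, ?_, hafin, hmorse, ?_⟩
  · refine hH.add (contMDiff_finsetSum fun j _ => ?_)
    exact contMDiff_const.mul (hf' j)
  · intro x
    have h1 : (X + ∑ q, s q • Z q : VF n M r) x = X x + ∑ q, s q • Z q x := by
      have h2 := VF_sum_apply Finset.univ (fun q => s q • Z q) x
      show X x + (∑ q, s q • Z q : VF n M r) x = _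
      rw [h2]
      rfl
    have hd := df_add_sum (n := n) (x := x) (hH.mdifferentiableAt (by simp))
      (fun j => (hf' j).mdifferentiableAt (by simp)) a
    rw [h1, hd, Fintype.sum_sum_type, Fintype.sum_option]
    rw [hX x, map_add, map_sum]
    have e1 : ∀ i, (df n H x + ∑ j, a j • df n (f j) x) (W i x) =
        df n H x (W i x) + ∑ j, a j * df n (f j) x (W i x) := by
      intro i
      rw [add_apply, sum_apply]
      rfl
    have e2 : ∑ i, (df n H x + ∑ j, a j • df n (f j) x) (W i x) • W i x =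
        ∑ i, df n H x (W i x) • W i x + ∑ j, a j • ∑ i, df n (f j) x (W i x) • W i x := by
      have e3 : ∀ i, (df n H x + ∑ j, a j • df n (f j) x) (W i x) • W i x =
          df n H x (W i x) • W i x + ∑ j, a j • (df n (f j) x (W i x) • W i x) := by
        intro i
        rw [e1 i, add_smul, Finset.sum_smul]
        simp only [mul_smul]
      rw [Finset.sum_congr rfl fun i _ => e3 i, Finset.sum_add_distrib, Finset.sum_comm]
      simp only [Finset.smul_sum]
    have e5 : ε • ∑ j, a j • ∑ i, df n (f j) x (W i x) • W i x =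
        ∑ j, (ε * a j) • ∑ i, df n (f j) x (W i x) • W i x := by
      rw [Finset.smul_sum]
      exact Finset.sum_congr rfl fun j _ => by rw [mul_smul]
    rw [e2, smul_add, e5]
    have e4 : ∀ j, A x (a j • df n (f j) x) = a j • A x (df n (f j) x) := fun j => map_smul _ _ _
    simp only [e4]
    show A x (df n H x) + (ε • (∑ i, df n H x (W i x) • W i x) +
        ∑ j, a j • A x (df n (f j) x) + ∑ j, (ε * a j) • ∑ i, df n (f j) x (W i x) • W i x) = _
    abel

end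

end Pool.Agent.W5h51.FL
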