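import Mathlib
import Pool.Agent.W5h51.FL.Morse

/-! Local Lyapunov functions near hyperbolic zeros, for `C¹` perturbations of the field. -/

set_option autoImplicit false
set_option linter.unusedSectionVars false

open scoped Topology ContDiff
open Set Filter Metric

noncomputable section

namespace Pool.Agent.W5h51.FL

section zero

variable {E : Type*} [NormedAddCommGroup E] [NormedSpace ℝ E] [FiniteDimensional ℝ E]

/-- If `V` grows linearly at its zero `z₀`, then its derivative there is bounded below. -/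
lemma bound_of_growth {V : E → E} {L : E →L[ℝ] E} {z₀ : E} (hV : HasFDerivAt V L z₀)
    (h0 : V z₀ = 0) {c : ℝ} (hg : ∀ᶠ z in 𝓝 z₀, c * ‖z - z₀‖ ≤ ‖V z‖) (v : E) :
    c * ‖v‖ ≤ ‖L v‖ := by
  have h1 : HasDerivAt (fun s : ℝ => V (z₀ + s • v)) (L v) 0 := by
    have h2 : HasDerivAt (fun s : ℝ => z₀ + s • v) v 0 := by
      have := ((hasDerivAt_id (0:ℝ)).smul_const v).const_add z₀
      simpa using this
    have h3 : HasFDerivAt V L (z₀ + (0:ℝ) • v) := by simpa using hV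
    exact h3.comp_hasDerivAt 0 h2
  have h2 := h1.tendsto_slope_zero_right
  have h3 := h2.norm
  refine ge_of_tendsto h3 ?_
  have h4 : Tendsto (fun s : ℝ => z₀ + s • v) (𝓝[>] 0) (𝓝 z₀) := by
    have : Continuous fun s : ℝ => z₀ + s • v := by fun_prop
    have h5 := this.tendsto 0
    simp only [zero_smul, add_zero] at h5
    exact h5.mono_left nhdsWithin_le_nhds
  filter_upwards [h4.eventually hg, self_mem_nhdsWithin] with s hs hs0
  have hs0' : 0 < s := hs0
  simp only [zero_add, zero_smul, add_zero, h0, sub_zero]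
  rw [norm_smul, norm_inv, Real.norm_eq_abs, abs_of_pos hs0']
  have h5 : c * (s * ‖v‖) ≤ ‖V (z₀ + s • v)‖ := by
    have : ‖z₀ + s • v - z₀‖ = s * ‖v‖ := by
      rw [add_sub_cancel_left, norm_smul, Real.norm_eq_abs, abs_of_pos hs0']
    rw [← this]
    exact hs
  rw [inv_mul_eq_div, le_div_iff₀ hs0']
  linarith

/-- Existence of a zero. -/
lemma exists_zero {z₀ : E} {V' : E → E} {τ c : ℝ} (hτ : 0 < τ) (hc : 0 < c) (L : E →L[ℝ] E)
    (hL : ∀ v, c * ‖v‖ ≤ ‖L v‖) (hd : ∀ z ∈ closedBall z₀ τ, DifferentiableAt ℝ V' z)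
    (hb : ∀ z ∈ closedBall z₀ τ, ‖fderiv ℝ V' z - L‖ ≤ c / 2) (h0 : ‖V' z₀‖ ≤ c / 2 * τ) :
    ∃ z' ∈ closedBall z₀ τ, V' z' = 0 := by
  have hinj : Function.Injective (L : E →ₗ[ℝ] E) := by
    rw [injective_iff_map_eq_zero]
    intro v hv
    have h1 := hL v
    have h2 : L v = 0 := hv
    rw [h2, norm_zero] at h1
    have h3 : ‖v‖ ≤ 0 := by
      by_contra hcon
      push Not at hcon
      nlinarith
    exact norm_le_zero_iff.1 h3
  have hsurj : Function.Surjective (L : E →ₗ[ℝ] E) := LinearMap.injective_iff_surjective.1 hinj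
  choose g hg using hsurj
  have hcinv : (0:ℝ) ≤ c⁻¹ := by positivity
  let S : L.NonlinearRightInverse :=
    { toFun := g
      nnnorm := ⟨c⁻¹, hcinv⟩
      bound' := by
        intro y
        have h1 := hL (g y)
        have h2 : L (g y) = y := hg y
        rw [h2] at h1
        show ‖g y‖ ≤ c⁻¹ * ‖y‖
        rw [inv_mul_eq_div, le_div_iff₀ hc]
        linarith
      right_inv' := fun y => hg y }
  have hc2 : (0:ℝ) ≤ c / 2 := by positivity
  have happ : ApproximatesLinearOn V' L (closedBall z₀ τ) ⟨c / 2, hc2⟩ := by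
    intro x hx y hy
    exact (convex_closedBall z₀ τ).norm_image_sub_le_of_norm_fderiv_le' (𝕜 := ℝ) hd hb hy hx
  have h1 := happ.surjOn_closedBall_of_nonlinearRightInverse S hτ.le le_rfl
  have h2 : (0 : E) ∈ closedBall (V' z₀) (((S.nnnorm : ℝ)⁻¹ - ((⟨c / 2, hc2⟩ : NNReal) : ℝ)) * τ) := by
    rw [mem_closedBall, dist_comm, dist_zero_right]
    have h3 : ((S.nnnorm : ℝ)⁻¹ - ((⟨c / 2, hc2⟩ : NNReal) : ℝ)) = c / 2 := by
      show (c⁻¹)⁻¹ - c / 2 = c / 2
      rw [inv_inv]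
      ring
    rw [h3]
    exact h0
  obtain ⟨z', hz', hz''⟩ := h1 h2
  exact ⟨z', hz', hz''⟩

end zero

section lyap

variable {n : ℕ}

lemma inner_gr (h : EuclideanSpace ℝ (Fin n) → ℝ) (z v : EuclideanSpace ℝ (Fin n)) :
    inner ℝ (gr h z) v = fderiv ℝ h z v := by
  unfold gr
  rw [InnerProductSpace.toDual_symm_apply]

lemma norm_gr (h : EuclideanSpace ℝ (Fin n) → ℝ) (z : EuclideanSpace ℝ (Fin n)) :
    ‖gr h z‖ = ‖fderiv ℝ h z‖ := by
  unfold gr
  rw [LinearIsometryEquiv.norm_map]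

/-- **Local Lyapunov functions**, for all fields `V'` which are `C¹` close to `V`. -/
theorem local_lyap {z₀ : EuclideanSpace ℝ (Fin n)} {R : ℝ} (hR : 0 < R)
    {T : Set (EuclideanSpace ℝ (Fin n))} (hT : IsOpen T)
    (hRT : closedBall z₀ R ⊆ T) {h : EuclideanSpace ℝ (Fin n) → ℝ} (hh : ContDiffOn ℝ 2 h T)
    {V : EuclideanSpace ℝ (Fin n) → EuclideanSpace ℝ (Fin n)} (hV : ContDiffOn ℝ 1 V T)
    {c₁ c₂ : ℝ} (hc₁ : 0 < c₁) (hc₂ : 0 < c₂)
    (h1 : ∀ z ∈ closedBall z₀ R, c₁ * ‖gr h z‖ ^ 2 ≤ inner ℝ (gr h z) (V z))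
    (h2 : ∀ z ∈ closedBall z₀ R, c₂ * ‖z - z₀‖ ≤ ‖gr h z‖) (h3 : V z₀ = 0) :
    ∃ δ > 0, ∀ V' : EuclideanSpace ℝ (Fin n) → EuclideanSpace ℝ (Fin n), ContDiffOn ℝ 1 V' T →
      (∀ z ∈ closedBall z₀ R, ‖V' z - V z‖ ≤ δ ∧ ‖fderiv ℝ V' z - fderiv ℝ V z‖ ≤ δ) →
      ∃ (u : EuclideanSpace ℝ (Fin n) → ℝ) (z' : EuclideanSpace ℝ (Fin n)), ContDiff ℝ 1 u ∧
        (∀ z ∉ closedBall z₀ (R / 2), u z = 0) ∧
        z' ∈ closedBall z₀ (R / 2) ∧ V' z' = 0 ∧
        ∀ z ∈ closedBall z₀ (R / 2), 0 ≤ fderiv ℝ h z (V' z) + fderiv ℝ u z (V' z) ∧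
          (fderiv ℝ h z (V' z) + fderiv ℝ u z (V' z) = 0 → z = z') := by
  have hBc : IsCompact (closedBall z₀ R) := isCompact_closedBall _ _
  have hz₀R : z₀ ∈ closedBall z₀ R := mem_closedBall_self hR.le
  -- the bump function
  let χ : ContDiffBump z₀ := ⟨R / 4, R / 2, by positivity, by linarith⟩
  have hχs : ContDiff ℝ 2 χ := χ.contDiff
  -- constants
  have cdh : ContinuousOn (fderiv ℝ h) T := hh.continuousOn_fderiv_of_isOpen hT (by norm_num)
  have cddh : ContDiffOn ℝ 1 (fderiv ℝ h) T := hh.fderiv_of_isOpen hT (by norm_num)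
  have cd2h : ContinuousOn (fderiv ℝ (fderiv ℝ h)) T :=
    cddh.continuousOn_fderiv_of_isOpen hT le_rfl
  have cdV : ContinuousOn (fderiv ℝ V) T := hV.continuousOn_fderiv_of_isOpen hT le_rfl
  obtain ⟨B₁, hB₁⟩ := hBc.exists_bound_of_continuousOn (cdh.mono hRT)
  obtain ⟨B₂, hB₂⟩ : ∃ B₂ : ℝ, ∀ z ∈ closedBall z₀ R, ‖fderiv ℝ (fderiv ℝ h) z‖ ≤ B₂ :=
    IsCompact.exists_bound_of_continuousOn
      (E := EuclideanSpace ℝ (Fin n) →L[ℝ] EuclideanSpace ℝ (Fin n) →L[ℝ] ℝ) hBc (cd2h.mono hRT)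
  obtain ⟨B₃, hB₃⟩ := hBc.exists_bound_of_continuousOn
    ((hχs.continuous_fderiv (by norm_num)).continuousOn (s := closedBall z₀ R))
  obtain ⟨B₄, hB₄⟩ := hBc.exists_bound_of_continuousOn (hV.continuousOn.mono hRT)
  have hB₁0 : 0 ≤ B₁ := (norm_nonneg _).trans (hB₁ z₀ hz₀R)
  have hB₂0 : 0 ≤ B₂ := le_trans (norm_nonneg (fderiv ℝ (fderiv ℝ h) z₀)) (hB₂ z₀ hz₀R)
  have hB₃0 : 0 ≤ B₃ := (norm_nonneg _).trans (hB₃ z₀ hz₀R)
  have hB₄0 : 0 ≤ B₄ := (norm_nonneg _).trans (hB₄ z₀ hz₀R)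
  have hlip1 : ∀ x ∈ closedBall z₀ R, ∀ y ∈ closedBall z₀ R, ‖h y - h x‖ ≤ B₁ * ‖y - x‖ := by
    intro x hx y hy
    exact (convex_closedBall z₀ R).norm_image_sub_le_of_norm_fderiv_le (𝕜 := ℝ)
      (fun z hz => (hh.contDiffAt (hT.mem_nhds (hRT hz))).differentiableAt (by norm_num)) hB₁ hx hy
  have hlip2 : ∀ x ∈ closedBall z₀ R, ∀ y ∈ closedBall z₀ R,
      ‖fderiv ℝ h y - fderiv ℝ h x‖ ≤ B₂ * ‖y - x‖ := by
    intro x hx y hy
    exact (convex_closedBall z₀ R).norm_image_sub_le_of_norm_fderiv_le (𝕜 := ℝ)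
      (fun z hz => (cddh.contDiffAt (hT.mem_nhds (hRT hz))).differentiableAt (by norm_num)) hB₂ hx hy
  -- growth of the field
  have hgrow : ∀ z ∈ closedBall z₀ R, c₁ * c₂ * ‖z - z₀‖ ≤ ‖V z‖ := by
    intro z hz
    have e1 := h1 z hz
    have e2 := h2 z hz
    have e3 := real_inner_le_norm (gr h z) (V z)
    have e4 : c₁ * ‖gr h z‖ ≤ ‖V z‖ := by
      rcases eq_or_lt_of_le (norm_nonneg (gr h z)) with h0 | h0
      · rw [← h0, mul_zero]; exact norm_nonneg _
      · have : ‖gr h z‖ * (c₁ * ‖gr h z‖) ≤ ‖gr h z‖ * ‖V z‖ := by nlinarith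
        exact le_of_mul_le_mul_left this h0
    calc c₁ * c₂ * ‖z - z₀‖ = c₁ * (c₂ * ‖z - z₀‖) := by ring
      _ ≤ c₁ * ‖gr h z‖ := mul_le_mul_of_nonneg_left e2 hc₁.le
      _ ≤ _ := e4
  set c₃ : ℝ := c₁ * c₂ with hc₃
  have hc₃0 : 0 < c₃ := by positivity
  have hVd : HasFDerivAt V (fderiv ℝ V z₀) z₀ :=
    ((hV.contDiffAt (hT.mem_nhds (hRT hz₀R))).differentiableAt (by norm_num)).hasFDerivAt
  have hL : ∀ v, c₃ * ‖v‖ ≤ ‖fderiv ℝ V z₀ v‖ := bound_of_growth hVd h3
    (by filter_upwards [closedBall_mem_nhds z₀ hR] with z hz using hgrow z hz)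
  -- uniform continuity of the derivative
  have huc : UniformContinuousOn (fderiv ℝ V) (closedBall z₀ R) :=
    hBc.uniformContinuousOn_of_continuous (cdV.mono hRT)
  obtain ⟨τ, hτ, hτ'⟩ := Metric.uniformContinuousOn_iff_le.1 huc (c₃ / 4) (by positivity)
  -- the lower bound on the annulus
  set κ : ℝ := c₁ * (c₂ * (R / 4)) ^ 2 with hκ
  have hκ0 : 0 < κ := by positivity
  set Q : ℝ := (B₂ + B₁ * B₃) * (B₄ + 1) with hQ
  have hQ0 : 0 ≤ Q := by positivity
  -- the radius `ε` of the ball containing the zero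
  obtain ⟨ε, hε, hετ, hεR, hεQ⟩ : ∃ ε > 0, ε ≤ τ ∧ ε ≤ R / 8 ∧ Q * ε ≤ κ / 4 := by
    refine ⟨min (min τ (R / 8)) (κ / 4 / (Q + 1)), by positivity,
      (min_le_left _ _).trans (min_le_left _ _), (min_le_left _ _).trans (min_le_right _ _), ?_⟩
    have e1 : min (min τ (R / 8)) (κ / 4 / (Q + 1)) ≤ κ / 4 / (Q + 1) := min_le_right _ _
    calc Q * min (min τ (R / 8)) (κ / 4 / (Q + 1)) ≤ Q * (κ / 4 / (Q + 1)) :=
          mul_le_mul_of_nonneg_left e1 hQ0
      _ ≤ (Q + 1) * (κ / 4 / (Q + 1)) := mul_le_mul_of_nonneg_right (by linarith) (by positivity)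
      _ = κ / 4 := by field_simp
  obtain ⟨δ, hδ, hδ1, hδ2, hδ3, hδ4⟩ : ∃ δ > 0, δ ≤ 1 ∧ δ ≤ c₃ / 4 ∧ δ ≤ c₃ / 2 * ε ∧
      B₁ * δ ≤ κ / 4 := by
    refine ⟨min (min 1 (c₃ / 4)) (min (c₃ / 2 * ε) (κ / 4 / (B₁ + 1))), by positivity,
      (min_le_left _ _).trans (min_le_left _ _), (min_le_left _ _).trans (min_le_right _ _),
      (min_le_right _ _).trans (min_le_left _ _), ?_⟩
    have e1 : min (min 1 (c₃ / 4)) (min (c₃ / 2 * ε) (κ / 4 / (B₁ + 1))) ≤ κ / 4 / (B₁ + 1) :=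
      (min_le_right _ _).trans (min_le_right _ _)
    calc B₁ * min (min 1 (c₃ / 4)) (min (c₃ / 2 * ε) (κ / 4 / (B₁ + 1)))
        ≤ B₁ * (κ / 4 / (B₁ + 1)) := mul_le_mul_of_nonneg_left e1 hB₁0
      _ ≤ (B₁ + 1) * (κ / 4 / (B₁ + 1)) := mul_le_mul_of_nonneg_right (by linarith) (by positivity)
      _ = κ / 4 := by field_simp
  refine ⟨δ, hδ, fun V' hV' hclose => ?_⟩
  have hεR' : closedBall z₀ ε ⊆ closedBall z₀ R := closedBall_subset_closedBall (by linarith)
  -- the zero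
  obtain ⟨z', hz', hz'0⟩ : ∃ z' ∈ closedBall z₀ ε, V' z' = 0 := by
    refine exists_zero hε hc₃0 (fderiv ℝ V z₀) hL
      (fun z hz => (hV'.contDiffAt (hT.mem_nhds (hRT (hεR' hz)))).differentiableAt (by norm_num))
      (fun z hz => ?_) ?_
    · have e1 := (hclose z (hεR' hz)).2
      have e2 := hτ' z (hεR' hz) z₀ hz₀R ((mem_closedBall.1 hz).trans hετ)
      rw [dist_eq_norm] at e2
      calc ‖fderiv ℝ V' z - fderiv ℝ V z₀‖
          = ‖(fderiv ℝ V' z - fderiv ℝ V z) + (fderiv ℝ V z - fderiv ℝ V z₀)‖ := by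
            congr 1; abel
        _ ≤ ‖fderiv ℝ V' z - fderiv ℝ V z‖ + ‖fderiv ℝ V z - fderiv ℝ V z₀‖ := norm_add_le _ _
        _ ≤ c₃ / 4 + c₃ / 4 := add_le_add (e1.trans hδ2) e2
        _ = c₃ / 2 := by ring
    · have e1 := (hclose z₀ hz₀R).1
      rw [h3, sub_zero] at e1
      exact e1.trans hδ3
  set w : EuclideanSpace ℝ (Fin n) := z' - z₀ with hw
  have hwε : ‖w‖ ≤ ε := by rw [hw, ← dist_eq_norm]; exact mem_closedBall.1 hz'
  -- shifted points stay in the ball
  have hshift : ∀ z, dist z z₀ < 3 * R / 4 → z - w ∈ closedBall z₀ R ∧ z ∈ closedBall z₀ R := by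
    intro z hz
    constructor
    · rw [mem_closedBall, dist_eq_norm]
      rw [dist_eq_norm] at hz
      calc ‖z - w - z₀‖ = ‖(z - z₀) - w‖ := by congr 1; abel
        _ ≤ ‖z - z₀‖ + ‖w‖ := norm_sub_le _ _
        _ ≤ R := by linarith
    · rw [mem_closedBall]; linarith
  set u : EuclideanSpace ℝ (Fin n) → ℝ := fun z => χ z * (h (z - w) - h z) with hu
  -- smoothness of `u` inside
  have hsm : ∀ z, dist z z₀ < 3 * R / 4 → ContDiffAt ℝ 1 u z ∧
      fderiv ℝ u z = χ z • (fderiv ℝ h (z - w) - fderiv ℝ h z) +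
        (h (z - w) - h z) • fderiv ℝ χ z := by
    intro z hz
    obtain ⟨hz1, hz2⟩ := hshift z hz
    have a1 : ContDiffAt ℝ 2 h z := hh.contDiffAt (hT.mem_nhds (hRT hz2))
    have a2 : ContDiffAt ℝ 2 h (z - w) := hh.contDiffAt (hT.mem_nhds (hRT hz1))
    have a3 : ContDiffAt ℝ 2 (fun z => h (z - w)) z :=
      ContDiffAt.comp z a2 (contDiffAt_id.sub contDiffAt_const)
    refine ⟨((hχs.contDiffAt.mul (a3.sub a1)).of_le (by norm_num)), ?_⟩
    have b1 : HasFDerivAt h (fderiv ℝ h z) z := (a1.differentiableAt (by norm_num)).hasFDerivAt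
    have b2 : HasFDerivAt (fun z => h (z - w)) (fderiv ℝ h (z - w)) z := by
      have b3 : HasFDerivAt h (fderiv ℝ h (z - w)) (z - w) :=
        (a2.differentiableAt (by norm_num)).hasFDerivAt
      have b4 : HasFDerivAt (fun z : EuclideanSpace ℝ (Fin n) => z - w) (ContinuousLinearMap.id ℝ (EuclideanSpace ℝ (Fin n))) z :=
        (hasFDerivAt_id z).sub_const w
      exact b3.comp z b4
    have b5 : HasFDerivAt χ (fderiv ℝ χ z) z :=
      (hχs.contDiffAt.differentiableAt (by norm_num)).hasFDerivAt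
    exact (b5.mul (b2.sub b1)).fderiv
  have hout : ∀ z ∉ closedBall z₀ (R / 2), u z = 0 := by
    intro z hz
    have : χ z = 0 := by
      have h0 : z ∉ Function.support χ := by
        rw [χ.support_eq]
        intro h
        exact hz (ball_subset_closedBall h)
      simpa using h0
    rw [hu]
    simp only [this, zero_mul]
  refine ⟨u, z', ?_, hout, closedBall_subset_closedBall (by linarith) hz', hz'0, ?_⟩
  · rw [contDiff_iff_contDiffAt]
    intro z
    by_cases hz : dist z z₀ < 3 * R / 4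
    · exact (hsm z hz).1
    · have hz2 : (closedBall z₀ (R / 2))ᶜ ∈ 𝓝 z := by
        refine isClosed_closedBall.isOpen_compl.mem_nhds ?_
        rw [mem_compl_iff, mem_closedBall]
        push Not at hz ⊢
        linarith
      have : u =ᶠ[𝓝 z] fun _ => 0 := by
        filter_upwards [hz2] with y hy using hout y hy
      exact contDiffAt_const.congr_of_eventuallyEq this
  · intro z hz
    rw [mem_closedBall] at hz
    have hz34 : dist z z₀ < 3 * R / 4 := by linarith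
    obtain ⟨hz1, hz2⟩ := hshift z hz34
    have hd := (hsm z hz34).2
    by_cases hin : dist z z₀ < R / 4
    · -- inner ball
      have hχ1 : χ =ᶠ[𝓝 z] 1 := χ.eventuallyEq_one_of_mem_ball (mem_ball.2 hin)
      have e1 : χ z = 1 := hχ1.self_of_nhds
      have e2 : fderiv ℝ χ z = 0 := by
        rw [hχ1.fderiv_eq]
        exact fderiv_const_apply 1
      have e3 : fderiv ℝ h z (V' z) + fderiv ℝ u z (V' z) = inner ℝ (gr h (z - w)) (V' z) := by
        rw [hd, e1, e2, inner_gr]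
        simp
      -- the difference of the fields
      have hdiff : ∀ y ∈ ball z₀ (3 * R / 4), HasFDerivAt (fun y => V' y - V (y - w))
          (fderiv ℝ V' y - fderiv ℝ V (y - w)) y := by
        intro y hy
        obtain ⟨hy1, hy2⟩ := hshift y (mem_ball.1 hy)
        have b1 : HasFDerivAt V' (fderiv ℝ V' y) y :=
          ((hV'.contDiffAt (hT.mem_nhds (hRT hy2))).differentiableAt (by norm_num)).hasFDerivAt
        have b3 : HasFDerivAt V (fderiv ℝ V (y - w)) (y - w) :=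
          ((hV.contDiffAt (hT.mem_nhds (hRT hy1))).differentiableAt (by norm_num)).hasFDerivAt
        have b4 : HasFDerivAt (fun z : EuclideanSpace ℝ (Fin n) => z - w) (ContinuousLinearMap.id ℝ (EuclideanSpace ℝ (Fin n))) y :=
          (hasFDerivAt_id y).sub_const w
        exact b1.sub (b3.comp y b4)
      have hsmall : ∀ y ∈ ball z₀ (3 * R / 4),
          ‖fderiv ℝ V' y - fderiv ℝ V (y - w)‖ ≤ c₃ / 2 := by
        intro y hy
        obtain ⟨hy1, hy2⟩ := hshift y (mem_ball.1 hy)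
        have f1 := (hclose y hy2).2
        have f2 := hτ' y hy2 (y - w) hy1 (by
          rw [dist_eq_norm]
          have : y - (y - w) = w := by abel
          rw [this]
          exact hwε.trans hετ)
        rw [dist_eq_norm] at f2
        calc ‖fderiv ℝ V' y - fderiv ℝ V (y - w)‖
            = ‖(fderiv ℝ V' y - fderiv ℝ V y) + (fderiv ℝ V y - fderiv ℝ V (y - w))‖ := by
              congr 1; abel
          _ ≤ ‖fderiv ℝ V' y - fderiv ℝ V y‖ + ‖fderiv ℝ V y - fderiv ℝ V (y - w)‖ :=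
              norm_add_le _ _
          _ ≤ c₃ / 4 + c₃ / 4 := add_le_add (f1.trans hδ2) f2
          _ = c₃ / 2 := by ring
      have hz'b : z' ∈ ball z₀ (3 * R / 4) := by
        rw [mem_ball]
        have := mem_closedBall.1 hz'
        linarith
      have e4 := (convex_ball z₀ (3 * R / 4)).norm_image_sub_le_of_norm_hasFDerivWithin_le
        (𝕜 := ℝ) (fun y hy => (hdiff y hy).hasFDerivWithinAt) hsmall hz'b (mem_ball.2 hz34)
      have e5 : V (z' - w) = 0 := by
        rw [hw]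
        have : z' - (z' - z₀) = z₀ := by abel
        rw [this, h3]
      simp only [hz'0, e5, sub_zero] at e4
      -- estimate
      have g1 := h1 (z - w) hz1
      have g2 := h2 (z - w) hz1
      have hzz : z - w - z₀ = z - z' := by rw [hw]; abel
      rw [hzz] at g2
      have e6 : inner ℝ (gr h (z - w)) (V' z) =
          inner ℝ (gr h (z - w)) (V (z - w)) + inner ℝ (gr h (z - w)) (V' z - V (z - w)) := by
        rw [← inner_add_right]
        congr 1
        abel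
      have e7 : -(‖gr h (z - w)‖ * ‖V' z - V (z - w)‖) ≤
          inner ℝ (gr h (z - w)) (V' z - V (z - w)) := by
        have := abs_real_inner_le_norm (gr h (z - w)) (V' z - V (z - w))
        exact (abs_le.1 this).1
      have e8 : c₁ * c₂ ^ 2 / 2 * ‖z - z'‖ ^ 2 ≤ inner ℝ (gr h (z - w)) (V' z) := by
        set a := ‖gr h (z - w)‖ with ha
        set b := ‖z - z'‖ with hb
        have ha0 : 0 ≤ a := norm_nonneg _
        have hb0 : 0 ≤ b := norm_nonneg _
        have i1 : a * ‖V' z - V (z - w)‖ ≤ a * (c₃ / 2 * b) := mul_le_mul_of_nonneg_left e4 ha0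
        have i2 : c₁ * a ^ 2 - a * (c₃ / 2 * b) ≤ inner ℝ (gr h (z - w)) (V' z) := by
          rw [e6]; linarith
        refine le_trans ?_ i2
        rw [hc₃]
        have i3 : 0 ≤ a - c₂ * b := by linarith
        nlinarith [mul_nonneg hc₁.le (mul_nonneg i3 (add_nonneg ha0 (mul_nonneg hc₂.le hb0))),
          mul_nonneg (mul_nonneg hc₁.le ha0) i3, mul_nonneg hc₁.le (mul_nonneg i3 i3)]
      rw [e3]
      refine ⟨le_trans (by positivity) e8, fun h0 => ?_⟩
      rw [h0] at e8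
      have i4 : ‖z - z'‖ ^ 2 ≤ 0 := by
        by_contra hcon
        push Not at hcon
        have : 0 < c₁ * c₂ ^ 2 / 2 * ‖z - z'‖ ^ 2 := by positivity
        linarith
      have i5 : ‖z - z'‖ = 0 := by
        have := norm_nonneg (z - z')
        nlinarith
      exact sub_eq_zero.1 (norm_eq_zero.1 i5)
    · -- annulus
      push Not at hin
      have g1 := h1 z hz2
      have g2 := h2 z hz2
      rw [inner_gr] at g1
      have g3 : κ ≤ fderiv ℝ h z (V z) := by
        refine le_trans ?_ g1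
        rw [hκ]
        refine mul_le_mul_of_nonneg_left ?_ hc₁.le
        refine pow_le_pow_left₀ (by positivity) ?_ 2
        refine le_trans (mul_le_mul_of_nonneg_left ?_ hc₂.le) g2
        rw [← dist_eq_norm]
        exact hin
      have f1 := (hclose z hz2).1
      have g4 : ‖fderiv ℝ h z (V' z - V z)‖ ≤ κ / 4 := by
        calc ‖fderiv ℝ h z (V' z - V z)‖ ≤ ‖fderiv ℝ h z‖ * ‖V' z - V z‖ :=
              ContinuousLinearMap.le_opNorm _ _
          _ ≤ B₁ * δ := mul_le_mul (hB₁ z hz2) f1 (norm_nonneg _) hB₁0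
          _ ≤ κ / 4 := hδ4
      have hV'b : ‖V' z‖ ≤ B₄ + 1 := by
        calc ‖V' z‖ = ‖V z + (V' z - V z)‖ := by congr 1; abel
          _ ≤ ‖V z‖ + ‖V' z - V z‖ := norm_add_le _ _
          _ ≤ B₄ + 1 := add_le_add (hB₄ z hz2) (f1.trans hδ1)
      have g5 : ‖fderiv ℝ u z‖ ≤ (B₂ + B₁ * B₃) * ε := by
        rw [hd]
        have j1 : ‖χ z • (fderiv ℝ h (z - w) - fderiv ℝ h z)‖ ≤ B₂ * ε := by
          rw [norm_smul, Real.norm_eq_abs, abs_of_nonneg χ.nonneg]
          have j2 := hlip2 z hz2 (z - w) hz1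
          have j3 : ‖z - w - z‖ ≤ ε := by
            have : z - w - z = -w := by abel
            rw [this, norm_neg]
            exact hwε
          calc χ z * ‖fderiv ℝ h (z - w) - fderiv ℝ h z‖ ≤ 1 * (B₂ * ε) :=
                mul_le_mul χ.le_one (j2.trans (mul_le_mul_of_nonneg_left j3 hB₂0))
                  (norm_nonneg _) zero_le_one
            _ = B₂ * ε := one_mul _
        have j4 : ‖(h (z - w) - h z) • fderiv ℝ χ z‖ ≤ B₁ * ε * B₃ := by
          rw [norm_smul]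
          have j2 := hlip1 z hz2 (z - w) hz1
          have j3 : ‖z - w - z‖ ≤ ε := by
            have : z - w - z = -w := by abel
            rw [this, norm_neg]
            exact hwε
          exact mul_le_mul (j2.trans (mul_le_mul_of_nonneg_left j3 hB₁0)) (hB₃ z hz2)
            (norm_nonneg _) (by positivity)
        calc _ ≤ _ := norm_add_le _ _
          _ ≤ B₂ * ε + B₁ * ε * B₃ := add_le_add j1 j4
          _ = (B₂ + B₁ * B₃) * ε := by ring
      have g6 : ‖fderiv ℝ u z (V' z)‖ ≤ κ / 4 := by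
        calc ‖fderiv ℝ u z (V' z)‖ ≤ ‖fderiv ℝ u z‖ * ‖V' z‖ := ContinuousLinearMap.le_opNorm _ _
          _ ≤ (B₂ + B₁ * B₃) * ε * (B₄ + 1) :=
              mul_le_mul g5 hV'b (norm_nonneg _) (by positivity)
          _ = Q * ε := by rw [hQ]; ring
          _ ≤ κ / 4 := hεQ
      have g7 : fderiv ℝ h z (V' z) = fderiv ℝ h z (V z) + fderiv ℝ h z (V' z - V z) := by
        rw [← map_add]
        congr 1
        abel
      have g8 : 0 < fderiv ℝ h z (V' z) + fderiv ℝ u z (V' z) := by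
        rw [g7]
        have k1 := (abs_le.1 ((Real.norm_eq_abs _).symm.le.trans g4)).1
        have k2 := (abs_le.1 ((Real.norm_eq_abs _).symm.le.trans g6)).1
        linarith
      exact ⟨g8.le, fun h0 => absurd h0 g8.ne'⟩

end lyap

end Pool.Agent.W5h51.FL
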