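import Mathlib
import Pool.Agent.W5h51.FL.Ham
import Pool.Agent.W5h51.FL.Loc

/-! Vector fields and functions in charts. -/

set_option autoImplicit false
set_option linter.unusedSectionVars false

open scoped Topology ContDiff Manifold
open Set Filter MeasureTheory Bundle Metric

noncomputable section

namespace Pool.Agent.W5h51.FL

universe u

variable {n : ℕ} {M : Type u} [TopologicalSpace M] [ChartedSpace (EuclideanSpace ℝ (Fin n)) M]
  [IsManifold (𝓡 n) ∞ M]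

lemma mdiff_ext {c x : M} (hx : x ∈ (extChartAt (𝓡 n) c).source) :
    MDifferentiableAt (𝓡 n) 𝓘(ℝ, EuclideanSpace ℝ (Fin n)) (extChartAt (𝓡 n) c) x := by
  have : IsManifold (𝓡 n) 1 M := IsManifold.of_le (n := ∞) (by simp)
  exact mdifferentiableAt_extChartAt (by rwa [extChartAt_source] at hx)

/-- chart invariance of the derivative of a function along a vector -/
lemma fderiv_chart {h : M → ℝ} (hh : ContMDiff (𝓡 n) 𝓘(ℝ, ℝ) 2 h) {c x : M}
    (hx : x ∈ (extChartAt (𝓡 n) c).source) (v : TangentSpace (𝓡 n) x) :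
    fderiv ℝ (h ∘ (extChartAt (𝓡 n) c).symm) (extChartAt (𝓡 n) c x)
      (mfderiv (𝓡 n) 𝓘(ℝ, EuclideanSpace ℝ (Fin n)) (extChartAt (𝓡 n) c) x v) = df n h x v := by
  have hz : extChartAt (𝓡 n) c x ∈ (extChartAt (𝓡 n) c).target :=
    (extChartAt (𝓡 n) c).map_source hx
  have h1 : MDifferentiableAt 𝓘(ℝ, EuclideanSpace ℝ (Fin n)) 𝓘(ℝ, ℝ)
      (h ∘ (extChartAt (𝓡 n) c).symm) (extChartAt (𝓡 n) c x) :=
    (((chart_contDiffOn hh c).contDiffAt ((isOpen_extChartAt_target c).mem_nhds hz)).differentiableAt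
      (by norm_num)).mdifferentiableAt
  have h2 := mfderiv_comp x h1 (mdiff_ext hx)
  have h3 : (h ∘ (extChartAt (𝓡 n) c).symm) ∘ extChartAt (𝓡 n) c =ᶠ[𝓝 x] h := by
    filter_upwards [(isOpen_extChartAt_source (I := 𝓡 n) c).mem_nhds hx] with y hy
    show h ((extChartAt (𝓡 n) c).symm (extChartAt (𝓡 n) c y)) = h y
    rw [(extChartAt (𝓡 n) c).left_inv hy]
  rw [h3.mfderiv_eq, mfderiv_eq_fderiv] at h2
  exact (DFunLike.congr_fun h2 v).symm

lemma rep_ext (Y : (x : M) → TangentSpace (𝓡 n) x) {c x : M}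
    (hx : x ∈ (extChartAt (𝓡 n) c).source) : rep Y c (extChartAt (𝓡 n) c x) =
      mfderiv (𝓡 n) 𝓘(ℝ, EuclideanSpace ℝ (Fin n)) (extChartAt (𝓡 n) c) x (Y x) := by
  unfold rep
  rw [(extChartAt (𝓡 n) c).left_inv hx]

lemma fderiv_rep {h : M → ℝ} (hh : ContMDiff (𝓡 n) 𝓘(ℝ, ℝ) 2 h)
    (Y : (x : M) → TangentSpace (𝓡 n) x) {c x : M} (hx : x ∈ (extChartAt (𝓡 n) c).source) :
    fderiv ℝ (h ∘ (extChartAt (𝓡 n) c).symm) (extChartAt (𝓡 n) c x)
      (rep Y c (extChartAt (𝓡 n) c x)) = df n h x (Y x) := by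
  rw [rep_ext Y hx]
  exact fderiv_chart hh hx (Y x)

lemma fderiv_rep' {h : M → ℝ} (hh : ContMDiff (𝓡 n) 𝓘(ℝ, ℝ) 2 h)
    (Y : (x : M) → TangentSpace (𝓡 n) x) {c : M} {z : EuclideanSpace ℝ (Fin n)}
    (hz : z ∈ (extChartAt (𝓡 n) c).target) :
    fderiv ℝ (h ∘ (extChartAt (𝓡 n) c).symm) z (rep Y c z) =
      df n h ((extChartAt (𝓡 n) c).symm z) (Y ((extChartAt (𝓡 n) c).symm z)) := by
  have hx := (extChartAt (𝓡 n) c).map_target hz
  have := fderiv_rep hh Y hx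
  rwa [(extChartAt (𝓡 n) c).right_inv hz] at this

/-- integral curves in charts -/
lemma hasDerivAt_chart {Y : (x : M) → TangentSpace (𝓡 n) x} {γ : ℝ → M}
    (hγ : IsMIntegralCurve γ Y) {c : M} {t : ℝ} (ht : γ t ∈ (extChartAt (𝓡 n) c).source) :
    HasDerivAt (fun s => extChartAt (𝓡 n) c (γ s)) (rep Y c (extChartAt (𝓡 n) c (γ t))) t := by
  have h1 := HasMFDerivAt.comp t (g := extChartAt (𝓡 n) c) (f := γ)
    (mdiff_ext ht).hasMFDerivAt (hγ t)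
  have h2 : HasFDerivAt (fun s => extChartAt (𝓡 n) c (γ s))
      (show ℝ →L[ℝ] EuclideanSpace ℝ (Fin n) from
      (mfderiv (𝓡 n) 𝓘(ℝ, EuclideanSpace ℝ (Fin n)) (extChartAt (𝓡 n) c) (γ t)).comp
        ((1 : ℝ →L[ℝ] ℝ).smulRight (Y (γ t)))) t :=
    hasMFDerivAt_iff_hasFDerivAt.1 h1
  have h3 := h2.hasDerivAt
  refine h3.congr_deriv ?_
  rw [rep_ext Y ht]
  show (mfderiv (𝓡 n) 𝓘(ℝ, EuclideanSpace ℝ (Fin n)) (extChartAt (𝓡 n) c) (γ t))
    ((1:ℝ) • Y (γ t)) = _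
  rw [one_smul]

lemma mfderiv_ext_inj {c x : M} (hx : x ∈ (extChartAt (𝓡 n) c).source)
    {v : TangentSpace (𝓡 n) x}
    (hv : mfderiv (𝓡 n) 𝓘(ℝ, EuclideanSpace ℝ (Fin n)) (extChartAt (𝓡 n) c) x v = 0) :
    v = 0 := by
  have : IsManifold (𝓡 n) 1 M := IsManifold.of_le (n := ∞) (by simp)
  obtain ⟨e, he⟩ := isInvertible_mfderiv_extChartAt (I := 𝓡 n) hx
  rw [← he] at hv
  have h1 : e v = 0 := hv
  exact (map_eq_zero_iff e e.injective).1 h1

lemma mfderiv_ext_surj {c x : M} (hx : x ∈ (extChartAt (𝓡 n) c).source)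
    (w : EuclideanSpace ℝ (Fin n)) : ∃ v : TangentSpace (𝓡 n) x,
      mfderiv (𝓡 n) 𝓘(ℝ, EuclideanSpace ℝ (Fin n)) (extChartAt (𝓡 n) c) x v = w := by
  have : IsManifold (𝓡 n) 1 M := IsManifold.of_le (n := ∞) (by simp)
  obtain ⟨e, he⟩ := isInvertible_mfderiv_extChartAt (I := 𝓡 n) hx
  refine ⟨e.symm w, ?_⟩
  rw [← he]
  exact e.apply_symm_apply w

/-- `C¹` closeness in terms of the functions and their derivatives. -/
lemma close_one {f g : EuclideanSpace ℝ (Fin n) → EuclideanSpace ℝ (Fin n)}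
    {z : EuclideanSpace ℝ (Fin n)} (hf : ContDiffAt ℝ 1 f z) (hg : ContDiffAt ℝ 1 g z) {δ : ℝ}
    (h : ∀ j ≤ 1, ‖iteratedFDeriv ℝ j f z - iteratedFDeriv ℝ j g z‖ ≤ δ) :
    ‖f z - g z‖ ≤ δ ∧ ‖fderiv ℝ f z - fderiv ℝ g z‖ ≤ δ := by
  have e1 : ∀ j ≤ 1, iteratedFDeriv ℝ j (f - g) z =
      iteratedFDeriv ℝ j f z - iteratedFDeriv ℝ j g z := by
    intro j hj
    have hfj : ContDiffAt ℝ j f z := hf.of_le (by exact_mod_cast hj)
    have hgj : ContDiffAt ℝ j g z := hg.of_le (by exact_mod_cast hj)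
    exact iteratedFDeriv_sub_apply hfj hgj
  constructor
  · have h0 := h 0 (by norm_num)
    rw [← e1 0 (by norm_num), norm_iteratedFDeriv_zero] at h0
    exact h0
  · have h1 := h 1 le_rfl
    rw [← e1 1 le_rfl, norm_iteratedFDeriv_one] at h1
    rw [fderiv_sub (hf.differentiableAt (by norm_num)) (hg.differentiableAt (by norm_num))] at h1
    exact h1

end Pool.Agent.W5h51.FL
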