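import Mathlib

/-! Cone conditions near nondegenerate equilibria. -/

set_option autoImplicit false
set_option linter.unusedSectionVars false

open scoped Topology ContDiff Pointwise
open Set Filter MeasureTheory Metric

noncomputable section

namespace Pool.Agent.W5h51.FL

section

variable {E : Type*} [NormedAddCommGroup E] [NormedSpace ℝ E]

/-- the second derivative of a Lyapunov function at an equilibrium -/
lemma hess_bound {h : E → ℝ} {V : E → E} {z₀ : E} {κ : ℝ}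
    (hh : DifferentiableAt ℝ (fderiv ℝ h) z₀) (h0 : fderiv ℝ h z₀ = 0)
    (hV : DifferentiableAt ℝ V z₀) (hV0 : V z₀ = 0)
    (hκ : ∀ᶠ z in 𝓝 z₀, κ * ‖z - z₀‖ ^ 2 ≤ fderiv ℝ h z (V z)) (v : E) :
    κ * ‖v‖ ^ 2 ≤ fderiv ℝ (fderiv ℝ h) z₀ v (fderiv ℝ V z₀ v) := by
  have hl : HasDerivAt (fun t : ℝ => z₀ + t • v) v 0 := by
    simpa using ((hasDerivAt_id (0:ℝ)).smul_const v).const_add z₀
  have hz : z₀ = z₀ + (0:ℝ) • v := by simp
  have ha : HasDerivAt (fun t : ℝ => fderiv ℝ h (z₀ + t • v)) (fderiv ℝ (fderiv ℝ h) z₀ v) 0 := by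
    have h1 : HasFDerivAt (fderiv ℝ h) (fderiv ℝ (fderiv ℝ h) z₀) (z₀ + (0:ℝ) • v) := by
      rw [← hz]; exact hh.hasFDerivAt
    exact h1.comp_hasDerivAt 0 hl
  have hb : HasDerivAt (fun t : ℝ => V (z₀ + t • v)) (fderiv ℝ V z₀ v) 0 := by
    have h1 : HasFDerivAt V (fderiv ℝ V z₀) (z₀ + (0:ℝ) • v) := by
      rw [← hz]; exact hV.hasFDerivAt
    exact h1.comp_hasDerivAt 0 hl
  have ha' := hasDerivAt_iff_tendsto_slope_zero.1 ha
  have hb' := hasDerivAt_iff_tendsto_slope_zero.1 hb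
  simp only [zero_add, zero_smul, add_zero, h0, hV0, sub_zero] at ha' hb'
  have hab : Tendsto (fun t : ℝ => (t⁻¹ • fderiv ℝ h (z₀ + t • v)) (t⁻¹ • V (z₀ + t • v)))
      (𝓝[≠] 0) (𝓝 ((fderiv ℝ (fderiv ℝ h) z₀ v) (fderiv ℝ V z₀ v))) :=
    (isBoundedBilinearMap_apply.continuous.tendsto
      (fderiv ℝ (fderiv ℝ h) z₀ v, fderiv ℝ V z₀ v)).comp (ha'.prodMk_nhds hb')
  refine ge_of_tendsto hab ?_
  have hc : Tendsto (fun t : ℝ => z₀ + t • v) (𝓝[≠] 0) (𝓝 z₀) := by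
    have h1 : Tendsto (fun t : ℝ => z₀ + t • v) (𝓝 0) (𝓝 (z₀ + (0:ℝ) • v)) :=
      hl.continuousAt.tendsto
    rw [← hz] at h1
    exact h1.mono_left nhdsWithin_le_nhds
  filter_upwards [hc.eventually hκ, self_mem_nhdsWithin] with t ht ht0
  have ht0' : t ≠ 0 := ht0
  rw [add_sub_cancel_left, norm_smul, mul_pow] at ht
  simp only [smul_apply, map_smul, smul_eq_mul]
  have h2 : ‖t‖ ^ 2 = t ^ 2 := by rw [Real.norm_eq_abs, sq_abs]
  rw [h2] at ht
  have h3 : 0 < t ^ 2 := by positivity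
  have h4 : t⁻¹ * (t⁻¹ * (fderiv ℝ h (z₀ + t • v)) (V (z₀ + t • v))) =
      (fderiv ℝ h (z₀ + t • v)) (V (z₀ + t • v)) / t ^ 2 := by
    field_simp
  rw [h4, le_div_iff₀ h3]
  linarith

/-- the cone condition -/
lemma cone_mono {V' : E → E} {L : E →L[ℝ] E} {B : E →L[ℝ] E →L[ℝ] ℝ} {z₀ : E} {R κ ε : ℝ}
    (hB : ∀ v, κ * ‖v‖ ^ 2 ≤ B v (L v)) (hd : ∀ z ∈ closedBall z₀ R, DifferentiableAt ℝ V' z)
    (hL : ∀ z ∈ closedBall z₀ R, ‖fderiv ℝ V' z - L‖ ≤ ε) (hε : ‖B‖ * ε ≤ κ / 2) :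
    ∀ x ∈ closedBall z₀ R, ∀ y ∈ closedBall z₀ R,
      κ / 2 * ‖y - x‖ ^ 2 ≤ B (y - x) (V' y - V' x) := by
  intro x hx y hy
  have h1 := (convex_closedBall z₀ R).norm_image_sub_le_of_norm_fderiv_le' hd hL hx hy
  have h2 := hB (y - x)
  have h3 : B (y - x) (V' y - V' x) = B (y - x) (L (y - x)) +
      B (y - x) (V' y - V' x - L (y - x)) := by
    rw [← map_add]
    congr 1
    abel
  have h4 : |B (y - x) (V' y - V' x - L (y - x))| ≤ ‖B‖ * ‖y - x‖ * (ε * ‖y - x‖) := by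
    have h5 : |B (y - x) (V' y - V' x - L (y - x))| ≤
        ‖B (y - x)‖ * ‖V' y - V' x - L (y - x)‖ := (B (y - x)).le_opNorm _
    refine h5.trans (mul_le_mul (B.le_opNorm _) h1 (norm_nonneg _) (by positivity))
  have h6 := (abs_le.1 h4).1
  have h7 : ‖B‖ * ‖y - x‖ * (ε * ‖y - x‖) ≤ κ / 2 * ‖y - x‖ ^ 2 := by
    calc ‖B‖ * ‖y - x‖ * (ε * ‖y - x‖) = (‖B‖ * ε) * ‖y - x‖ ^ 2 := by ring
      _ ≤ _ := mul_le_mul_of_nonneg_right hε (by positivity)
  rw [h3]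
  linarith

/-- the growth of functions with a lower bound of the derivative -/
lemma growth {f f' : ℝ → ℝ} {a c : ℝ} (hf : ∀ t, a ≤ t → HasDerivAt f (f' t) t)
    (hc : ∀ t, a ≤ t → c ≤ f' t) {t : ℝ} (ht : a ≤ t) : f a + c * (t - a) ≤ f t := by
  have h1 := (convex_Ici a).mul_sub_le_image_sub_of_le_deriv (f := f) (C := c)
    (fun s hs => (hf s hs).continuousAt.continuousWithinAt)
    (fun s hs => by
      rw [interior_Ici] at hs
      exact (hf s (le_of_lt hs)).differentiableAt.differentiableWithinAt)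
    (fun s hs => by
      rw [interior_Ici] at hs
      rw [(hf s (le_of_lt hs)).deriv]
      exact hc s (le_of_lt hs)) a self_mem_Ici t ht ht
  linarith

/-- two solutions staying forever near the equilibrium differ by a negative vector -/
theorem cone_curves {B : E →L[ℝ] E →L[ℝ] ℝ} (hsym : ∀ v w, B v w = B w v) {κ C : ℝ} (hκ : 0 < κ)
    {w w' : ℝ → E} (hw : ∀ t, 0 ≤ t → HasDerivAt w (w' t) t)
    (hB : ∀ t, 0 ≤ t → κ * ‖w t‖ ^ 2 ≤ B (w t) (w' t)) (hC : ∀ t, 0 ≤ t → ‖w t‖ ≤ C)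
    (h0 : w 0 ≠ 0) : B (w 0) (w 0) < 0 := by
  by_contra hcon
  push Not at hcon
  set q : ℝ → ℝ := fun t => B (w t) (w t) with hq
  have hq' : ∀ t, 0 ≤ t → HasDerivAt q (2 * B (w t) (w' t)) t := by
    intro t ht
    have h1 := hw t ht
    have h2 : HasDerivAt (fun t => B (w t)) (B (w' t)) t := B.hasFDerivAt.comp_hasDerivAt t h1
    have h3 := h2.clm_apply h1
    refine h3.congr_deriv ?_
    rw [hsym (w' t) (w t)]
    ring
  have hqb : ∀ t, q t ≤ ‖B‖ * ‖w t‖ ^ 2 := by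
    intro t
    have h1 : |B (w t) (w t)| ≤ ‖B (w t)‖ * ‖w t‖ := (B (w t)).le_opNorm _
    have h2 : ‖B (w t)‖ * ‖w t‖ ≤ ‖B‖ * ‖w t‖ * ‖w t‖ :=
      mul_le_mul_of_nonneg_right (B.le_opNorm _) (norm_nonneg _)
    calc q t ≤ |B (w t) (w t)| := le_abs_self _
      _ ≤ _ := h1.trans h2
      _ = _ := by ring
  have hpos : ∀ t, 0 ≤ t → 0 ≤ 2 * B (w t) (w' t) := by
    intro t ht
    have := hB t ht
    have : 0 ≤ κ * ‖w t‖ ^ 2 := by positivity
    linarith [hB t ht]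
  -- a positive time with positive value
  obtain ⟨t₁, ht₁, hqt₁⟩ : ∃ t₁, 0 ≤ t₁ ∧ 0 < q t₁ := by
    have h1 := hq' 0 le_rfl
    have h2 : 0 < 2 * B (w 0) (w' 0) := by
      have h3 := hB 0 le_rfl
      have h4 : 0 < κ * ‖w 0‖ ^ 2 := by
        have := norm_pos_iff.2 h0
        positivity
      linarith
    have h3 := hasDerivAt_iff_tendsto_slope_zero.1 h1
    have h4 : ∀ᶠ t in 𝓝[≠] (0:ℝ), 0 < t⁻¹ • (q (0 + t) - q 0) := h3.eventually (lt_mem_nhds h2)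
    have h5 : ∀ᶠ t in 𝓝[>] (0:ℝ), 0 < t⁻¹ • (q (0 + t) - q 0) :=
      h4.filter_mono (nhdsWithin_mono _ fun x hx => ne_of_gt hx)
    obtain ⟨t, ht, ht0⟩ := (h5.and self_mem_nhdsWithin).exists
    have ht0' : 0 < t := ht0
    refine ⟨t, ht0'.le, ?_⟩
    rw [smul_eq_mul, zero_add] at ht
    have h6 : 0 < q t - q 0 := by
      by_contra h7
      push Not at h7
      have : t⁻¹ * (q t - q 0) ≤ 0 := mul_nonpos_of_nonneg_of_nonpos (by positivity) h7
      linarith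
    have h8 : 0 ≤ q 0 := hcon
    linarith
  -- linear growth
  have hmono : ∀ t, t₁ ≤ t → q t₁ ≤ q t := by
    intro t ht
    have := growth (f := q) (f' := fun t => 2 * B (w t) (w' t)) (a := t₁) (c := 0)
      (fun s hs => hq' s (ht₁.trans hs)) (fun s hs => hpos s (ht₁.trans hs)) ht
    linarith
  set b : ℝ := 2 * κ * (q t₁ / (‖B‖ + 1)) with hb
  have hb0 : 0 < b := by positivity
  have hgr : ∀ t, t₁ ≤ t → b ≤ 2 * B (w t) (w' t) := by
    intro t ht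
    have h1 := hmono t ht
    have h2 := hqb t
    have h3 := hB t (ht₁.trans ht)
    have h4 : q t₁ / (‖B‖ + 1) ≤ ‖w t‖ ^ 2 := by
      rw [div_le_iff₀ (by positivity)]
      nlinarith [sq_nonneg ‖w t‖, norm_nonneg B]
    have h5 : κ * (q t₁ / (‖B‖ + 1)) ≤ κ * ‖w t‖ ^ 2 := mul_le_mul_of_nonneg_left h4 hκ.le
    rw [hb]
    linarith
  have hC0 : 0 ≤ C := (norm_nonneg _).trans (hC 0 le_rfl)
  set T : ℝ := (‖B‖ * C ^ 2 + 1) / b with hT
  have hT0 : 0 < T := by positivity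
  have h1 := growth (f := q) (f' := fun t => 2 * B (w t) (w' t)) (a := t₁) (c := b)
      (fun s hs => hq' s (ht₁.trans hs)) hgr (show t₁ ≤ t₁ + T by linarith)
  have h2 := hqb (t₁ + T)
  have h3 := hC (t₁ + T) (by linarith)
  have h4 : ‖B‖ * ‖w (t₁ + T)‖ ^ 2 ≤ ‖B‖ * C ^ 2 :=
    mul_le_mul_of_nonneg_left (pow_le_pow_left₀ (norm_nonneg _) h3 2) (norm_nonneg B)
  have h5 : b * (t₁ + T - t₁) = ‖B‖ * C ^ 2 + 1 := by
    rw [hT]
    field_simp
    ring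
  linarith

end

/-- sets satisfying a cone condition are null -/
theorem null_of_cone {n : ℕ} {S : Set (EuclideanSpace ℝ (Fin n))} (hS : MeasurableSet S)
    {B : EuclideanSpace ℝ (Fin n) →L[ℝ] EuclideanSpace ℝ (Fin n) →L[ℝ] ℝ}
    (hB : ∀ x ∈ S, ∀ y ∈ S, x ≠ y → B (y - x) (y - x) < 0) {e : EuclideanSpace ℝ (Fin n)}
    (he : e ≠ 0) (hBe : 0 ≤ B e e) : volume S = 0 := by
  refine Measure.addHaar_eq_zero_of_disjoint_translates volume
    (fun k : ℕ => ((1:ℝ) / ((k:ℝ) + 1)) • e) ?_ ?_ hS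
  · rw [isBounded_iff_forall_norm_le]
    refine ⟨‖e‖, ?_⟩
    rintro _ ⟨k, rfl⟩
    simp only
    rw [norm_smul, Real.norm_eq_abs, abs_of_nonneg (by positivity)]
    have : (1:ℝ) / ((k:ℝ) + 1) ≤ 1 := by
      rw [div_le_one (by positivity)]
      have : (0:ℝ) ≤ k := Nat.cast_nonneg k
      linarith
    calc (1:ℝ) / ((k:ℝ) + 1) * ‖e‖ ≤ 1 * ‖e‖ := mul_le_mul_of_nonneg_right this (norm_nonneg _)
      _ = ‖e‖ := one_mul _
  · intro k l hkl
    simp only [Function.onFun]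
    rw [Set.disjoint_left]
    rintro _ ⟨a, ha, x, hx, rfl⟩ ⟨b, hb, y, hy, hxy⟩
    rw [mem_singleton_iff] at ha hb
    subst ha hb
    simp only at hxy
    have h1 : y - x = ((1:ℝ) / ((k:ℝ) + 1) - (1:ℝ) / ((l:ℝ) + 1)) • e := by
      rw [sub_smul, sub_eq_sub_iff_add_eq_add, add_comm y, hxy]
    by_cases hxy' : x = y
    · rw [hxy', sub_self] at h1
      have h2 := (smul_eq_zero.1 h1.symm).resolve_right he
      have h3 : (1:ℝ) / ((k:ℝ) + 1) = (1:ℝ) / ((l:ℝ) + 1) := by linarith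
      have h4 : (k:ℝ) + 1 = (l:ℝ) + 1 := by
        have hk : (0:ℝ) < (k:ℝ) + 1 := by positivity
        have hl : (0:ℝ) < (l:ℝ) + 1 := by positivity
        field_simp at h3
        linarith
      exact hkl (by exact_mod_cast (add_right_cancel h4 : (k:ℝ) = (l:ℝ)))
    · have h2 := hB x hx y hy hxy'
      rw [h1] at h2
      simp only [map_smul, smul_apply, smul_eq_mul] at h2
      set s : ℝ := (1:ℝ) / ((k:ℝ) + 1) - (1:ℝ) / ((l:ℝ) + 1) with hs
      have h3 : 0 ≤ s * (s * B e e) := by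
        have : s * (s * B e e) = s ^ 2 * B e e := by ring
        rw [this]
        positivity
      linarith

end Pool.Agent.W5h51.FL
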