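import Mathlib
import Pool.Agent.W5h51.FL.Chart

/-! Morse perturbations supported in an open set. -/

set_option autoImplicit false
set_option linter.unusedSectionVars false

open scoped Topology ContDiff Manifold
open Set Filter MeasureTheory

noncomputable section

namespace Pool.Agent.W5h51.FL

universe u

variable {n : ℕ} {M : Type u} [TopologicalSpace M] [ChartedSpace (EuclideanSpace ℝ (Fin n)) M]
  [IsManifold (𝓡 n) ∞ M]

variable (n) in
/-- The Hessian of `h` at the critical point `x` is nondegenerate. -/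
def Nondeg (h : M → ℝ) (x : M) : Prop :=
  ∃ c : M, x ∈ (extChartAt (𝓡 n) c).source ∧
    (fderiv ℝ (gr (h ∘ (extChartAt (𝓡 n) c).symm)) (extChartAt (𝓡 n) c x)).det ≠ 0

lemma gr_eq_zero_iff {h : M → ℝ} (hh : ContMDiff (𝓡 n) 𝓘(ℝ, ℝ) 2 h) {c x : M}
    (hx : x ∈ (extChartAt (𝓡 n) c).source) :
    gr (h ∘ (extChartAt (𝓡 n) c).symm) (extChartAt (𝓡 n) c x) = 0 ↔
      mfderiv (𝓡 n) 𝓘(ℝ, ℝ) h x = 0 := by
  constructor
  · intro h0
    have h1 : fderiv ℝ (h ∘ (extChartAt (𝓡 n) c).symm) (extChartAt (𝓡 n) c x) = 0 := by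
      unfold gr at h0
      exact (map_eq_zero_iff _ (LinearIsometryEquiv.injective _)).1 h0
    refine ContinuousLinearMap.ext fun v => ?_
    have h2 := fderiv_chart hh hx v
    rw [h1] at h2
    exact h2.symm
  · intro h0
    unfold gr
    rw [fd_zero (hh.mdifferentiableAt (by simp)) h0 hx, map_zero]

lemma isolated_one {h : M → ℝ} (hh : ContMDiff (𝓡 n) 𝓘(ℝ, ℝ) 2 h) {x : M}
    (hx : mfderiv (𝓡 n) 𝓘(ℝ, ℝ) h x = 0 → Nondeg n h x) :
    ∀ᶠ y in 𝓝[≠] x, mfderiv (𝓡 n) 𝓘(ℝ, ℝ) h y ≠ 0 := by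
  have e : (fun x => h x + ∑ j : Fin 0, (0 : Fin 0 → ℝ) j * (fun (_ : Fin 0) (_ : M) => (0:ℝ)) j x)
      = h := by
    funext y
    simp
  by_cases h0 : mfderiv (𝓡 n) 𝓘(ℝ, ℝ) h x = 0
  · obtain ⟨c, hc, hdet⟩ := hx h0
    have := isolated hh (f := fun (_ : Fin 0) (_ : M) => (0:ℝ)) (fun _ => contMDiff_const)
      (0 : Fin 0 → ℝ) c x hc (fun _ => by simpa using hdet)
    rwa [e] at this
  · have := isolated hh (f := fun (_ : Fin 0) (_ : M) => (0:ℝ)) (fun _ => contMDiff_const)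
      (0 : Fin 0 → ℝ) x x (mem_extChartAt_source x) (fun h1 => by
        exfalso
        apply h0
        rw [← gr_eq_zero_iff hh (mem_extChartAt_source x)]
        simpa using h1)
    rwa [e] at this

lemma IsMorse.finite [CompactSpace M] {h : M → ℝ} (hh : ContMDiff (𝓡 n) 𝓘(ℝ, ℝ) 2 h)
    (hm : IsMorse n h) : {x | mfderiv (𝓡 n) 𝓘(ℝ, ℝ) h x = 0}.Finite := by
  by_contra hinf
  obtain ⟨x, -, hx⟩ := Set.Infinite.exists_accPt_of_subset_isCompact (K := univ)
    (Set.not_finite.1 hinf) isCompact_univ (subset_univ _)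
  have hiso := isolated_one hh (x := x) (fun h0 => hm x h0)
  rw [accPt_iff_frequently_nhdsNE] at hx
  obtain ⟨y, hy, hy'⟩ := (hx.and_eventually hiso).exists
  exact hy' hy

lemma isClosed_crit [T2Space M] [CompactSpace M] {h : M → ℝ}
    (hh : ContMDiff (𝓡 n) 𝓘(ℝ, ℝ) 2 h) : IsClosed {x | mfderiv (𝓡 n) 𝓘(ℝ, ℝ) h x = 0} := by
  obtain ⟨N, W, hW, hspan⟩ := exists_frame (n := n) (M := M)
  have e : {x | mfderiv (𝓡 n) 𝓘(ℝ, ℝ) h x = 0} = ⋂ i, {x | df n h x (W i x) = 0} := by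
    ext x
    simp only [mem_iInter, mem_ofPred_eq]
    constructor
    · intro h0 i
      have : df n h x = 0 := h0
      rw [this]
      rfl
    · intro h0
      exact hspan x (df n h x) h0
  rw [e]
  refine isClosed_iInter fun i => isClosed_eq ?_ continuous_const
  have h1 : ContMDiff (𝓡 n) 𝓘(ℝ, ℝ) (((1 : ℕ∞) : ℕ∞ω) + 1) h := by
    refine hh.of_le ?_
    norm_num
  exact (contMDiff_df h1 ((hW i).of_le (by simp))).continuous

lemma family_contMDiff {J : Type*} [Fintype J] {H : M → ℝ} (hH : ContMDiff (𝓡 n) 𝓘(ℝ, ℝ) 2 H)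
    {f : J → M → ℝ} (hf : ∀ j, ContMDiff (𝓡 n) 𝓘(ℝ, ℝ) 2 (f j)) (a : J → ℝ) :
    ContMDiff (𝓡 n) 𝓘(ℝ, ℝ) 2 (fun x => H x + ∑ j, a j * f j x) := by
  refine hH.add ?_
  refine contMDiff_finsetSum fun j _ => ?_
  exact contMDiff_const.mul (hf j)

lemma fderiv_gr_family {J : Type*} [Fintype J] {H : M → ℝ} (hH : ContMDiff (𝓡 n) 𝓘(ℝ, ℝ) 2 H)
    {f : J → M → ℝ} (hf : ∀ j, ContMDiff (𝓡 n) 𝓘(ℝ, ℝ) 2 (f j)) (a : J → ℝ) (c : M)
    {z : EuclideanSpace ℝ (Fin n)} (hz : z ∈ (extChartAt (𝓡 n) c).target) :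
    fderiv ℝ (gr ((fun x => H x + ∑ j, a j * f j x) ∘ (extChartAt (𝓡 n) c).symm)) z =
      fderiv ℝ (gr (H ∘ (extChartAt (𝓡 n) c).symm)) z +
        ∑ j, a j • fderiv ℝ (gr (f j ∘ (extChartAt (𝓡 n) c).symm)) z := by
  have hTo : IsOpen (extChartAt (𝓡 n) c).target := isOpen_extChartAt_target c
  have k1 : HasFDerivAt (gr (H ∘ (extChartAt (𝓡 n) c).symm))
      (fderiv ℝ (gr (H ∘ (extChartAt (𝓡 n) c).symm)) z) z :=
    (((gr_contDiffOn hTo (chart_contDiffOn hH c)).contDiffAt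
      (hTo.mem_nhds hz)).differentiableAt (by simp)).hasFDerivAt
  have k2 : ∀ j ∈ Finset.univ, HasFDerivAt
      (fun z => a j • gr (f j ∘ (extChartAt (𝓡 n) c).symm) z)
      (a j • fderiv ℝ (gr (f j ∘ (extChartAt (𝓡 n) c).symm)) z) z := fun j _ =>
    (((gr_contDiffOn hTo (chart_contDiffOn (hf j) c)).contDiffAt
      (hTo.mem_nhds hz)).differentiableAt (by simp)).hasFDerivAt.const_smul (a j)
  have h3 : HasFDerivAt (gr ((fun x => H x + ∑ j, a j * f j x) ∘ (extChartAt (𝓡 n) c).symm))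
      (fderiv ℝ (gr (H ∘ (extChartAt (𝓡 n) c).symm)) z +
        ∑ j, a j • fderiv ℝ (gr (f j ∘ (extChartAt (𝓡 n) c).symm)) z) z := by
    refine (k1.add (HasFDerivAt.fun_sum k2)).congr_of_eventuallyEq ?_
    filter_upwards [hTo.mem_nhds hz] with w hw
    exact gr_family hH hf a c hw
  exact h3.fderiv

lemma sum_zero_smul {J : Type*} [Fintype J] {F : Type*} [AddCommGroup F] [Module ℝ F]
    (g : J → F) : ∑ j, (0 : J → ℝ) j • g j = 0 := by
  simp

/-- Nondegeneracy on compact sets is stable under small perturbations. -/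
lemma eventually_morse {J : Type*} [Fintype J] {H : M → ℝ} (hH : ContMDiff (𝓡 n) 𝓘(ℝ, ℝ) 2 H)
    {f : J → M → ℝ} (hf : ∀ j, ContMDiff (𝓡 n) 𝓘(ℝ, ℝ) 2 (f j)) {K : Set M} (hK : IsCompact K)
    (h0 : ∀ x ∈ K, mfderiv (𝓡 n) 𝓘(ℝ, ℝ) H x = 0 → Nondeg n H x) :
    ∀ᶠ a in 𝓝 (0 : J → ℝ), ∀ x ∈ K,
      mfderiv (𝓡 n) 𝓘(ℝ, ℝ) (fun x => H x + ∑ j, a j * f j x) x = 0 →
        Nondeg n (fun x => H x + ∑ j, a j * f j x) x := by
  refine hK.eventually_forall_of_forall_eventually (P := fun (a : J → ℝ) (x : M) =>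
    mfderiv (𝓡 n) 𝓘(ℝ, ℝ) (fun x => H x + ∑ j, a j * f j x) x = 0 →
        Nondeg n (fun x => H x + ∑ j, a j * f j x) x) fun x hx => ?_
  have cont : ∀ (F : Type _) [NormedAddCommGroup F] [NormedSpace ℝ F] (c : M)
      (_ : x ∈ (extChartAt (𝓡 n) c).source) (g : EuclideanSpace ℝ (Fin n) → F)
      (gj : J → EuclideanSpace ℝ (Fin n) → F)
      (_ : ContinuousAt g (extChartAt (𝓡 n) c x))
      (_ : ∀ j, ContinuousAt (gj j) (extChartAt (𝓡 n) c x)),
      ContinuousAt (fun q : (J → ℝ) × M => g (extChartAt (𝓡 n) c q.2) +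
        ∑ j, q.1 j • gj j (extChartAt (𝓡 n) c q.2)) ((0 : J → ℝ), x) := by
    intro F _ _ c hc g gj hg hgj
    have e1 : ContinuousAt (fun q : (J → ℝ) × M => extChartAt (𝓡 n) c q.2) ((0 : J → ℝ), x) :=
      ContinuousAt.comp (g := extChartAt (𝓡 n) c) (f := Prod.snd)
        (continuousAt_extChartAt' hc) continuousAt_snd
    refine ContinuousAt.add ?_ ?_
    · exact ContinuousAt.comp (g := g) hg e1
    · refine tendsto_finsetSum _ fun j _ => ?_
      have h1 : ContinuousAt (fun q : (J → ℝ) × M => q.1 j) ((0 : J → ℝ), x) :=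
        ((continuous_apply j).comp continuous_fst).continuousAt
      exact h1.smul (ContinuousAt.comp (g := gj j) (hgj j) e1)
  have src : ∀ c : M, x ∈ (extChartAt (𝓡 n) c).source →
      ∀ᶠ q : (J → ℝ) × M in 𝓝 ((0 : J → ℝ), x), q.2 ∈ (extChartAt (𝓡 n) c).source := by
    intro c hc
    exact continuousAt_snd.preimage_mem_nhds ((isOpen_extChartAt_source (I := 𝓡 n) c).mem_nhds hc)
  have cg : ∀ (h : M → ℝ), ContMDiff (𝓡 n) 𝓘(ℝ, ℝ) 2 h → ∀ c : M,
      x ∈ (extChartAt (𝓡 n) c).source →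
      ContinuousAt (gr (h ∘ (extChartAt (𝓡 n) c).symm)) (extChartAt (𝓡 n) c x) ∧
      ContinuousAt (fderiv ℝ (gr (h ∘ (extChartAt (𝓡 n) c).symm))) (extChartAt (𝓡 n) c x) := by
    intro h hh c hc
    have hTo : IsOpen (extChartAt (𝓡 n) c).target := isOpen_extChartAt_target c
    have hzT := (extChartAt (𝓡 n) c).map_source hc
    have h1 := gr_contDiffOn hTo (chart_contDiffOn hh c)
    exact ⟨h1.continuousOn.continuousAt (hTo.mem_nhds hzT),
      (h1.continuousOn_fderiv_of_isOpen hTo le_rfl).continuousAt (hTo.mem_nhds hzT)⟩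
  by_cases hcr : mfderiv (𝓡 n) 𝓘(ℝ, ℝ) H x = 0
  · obtain ⟨c, hc, hdet⟩ := h0 x hx hcr
    have c2 := cont _ c hc _ (fun j => fderiv ℝ (gr (f j ∘ (extChartAt (𝓡 n) c).symm)))
      (cg H hH c hc).2 (fun j => (cg (f j) (hf j) c hc).2)
    have c3 := ContinuousLinearMap.continuous_det.continuousAt.comp c2
    have e0 : fderiv ℝ (gr (H ∘ (extChartAt (𝓡 n) c).symm)) (extChartAt (𝓡 n) c x) +
        ∑ j, (0 : J → ℝ) j • fderiv ℝ (gr (f j ∘ (extChartAt (𝓡 n) c).symm))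
          (extChartAt (𝓡 n) c x) =
        fderiv ℝ (gr (H ∘ (extChartAt (𝓡 n) c).symm)) (extChartAt (𝓡 n) c x) := by
      have e1 : ∑ j, (0 : J → ℝ) j • fderiv ℝ (gr (f j ∘ (extChartAt (𝓡 n) c).symm))
          (extChartAt (𝓡 n) c x) = 0 :=
        sum_zero_smul fun j => fderiv ℝ (gr (f j ∘ (extChartAt (𝓡 n) c).symm))
          (extChartAt (𝓡 n) c x)
      rw [e1, add_zero]
    have c4 := c3.eventually_ne (y := 0) (by
      show (fderiv ℝ (gr (H ∘ (extChartAt (𝓡 n) c).symm)) (extChartAt (𝓡 n) c x) +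
        ∑ j, (0 : J → ℝ) j • fderiv ℝ (gr (f j ∘ (extChartAt (𝓡 n) c).symm))
          (extChartAt (𝓡 n) c x)).det ≠ 0
      rw [e0]
      exact hdet)
    filter_upwards [c4, src c hc] with q hq hqs _
    refine ⟨c, hqs, ?_⟩
    rw [fderiv_gr_family hH hf q.1 c ((extChartAt (𝓡 n) c).map_source hqs)]
    exact hq
  · have hc := mem_extChartAt_source (I := 𝓡 n) x
    have c2 := cont _ x hc _ (fun j => gr (f j ∘ (extChartAt (𝓡 n) x).symm))
      (cg H hH x hc).1 (fun j => (cg (f j) (hf j) x hc).1)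
    have c4 := c2.eventually_ne (y := 0) (by
      have : gr (H ∘ (extChartAt (𝓡 n) x).symm) (extChartAt (𝓡 n) x x) ≠ 0 := by
        rw [Ne, gr_eq_zero_iff hH hc]
        exact hcr
      simpa using this)
    filter_upwards [c4, src x hc] with q hq hqs h1
    exfalso
    apply hq
    rw [← gr_family hH hf q.1 x ((extChartAt (𝓡 n) x).map_source hqs)]
    exact (gr_eq_zero_iff (family_contMDiff hH hf q.1) hqs).2 h1

/-- **Morse perturbations supported in an open set**: if all critical points of `H` outside the open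
set `O` are nondegenerate, there are smooth functions `f j` supported in `O` such that
`H + ∑ a_j f_j` is a Morse function for arbitrarily small `a`. -/
theorem exists_morse_on [T2Space M] [CompactSpace M] {H : M → ℝ}
    (hH : ContMDiff (𝓡 n) 𝓘(ℝ, ℝ) 2 H) {O : Set M} (hO : IsOpen O)
    (hout : ∀ x, mfderiv (𝓡 n) 𝓘(ℝ, ℝ) H x = 0 → x ∉ O → Nondeg n H x) :
    ∃ (J : Type u) (_ : Fintype J) (f : J → M → ℝ),
      (∀ j, ContMDiff (𝓡 n) 𝓘(ℝ, ℝ) ∞ (f j)) ∧ (∀ j, tsupport (f j) ⊆ O) ∧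
      ∀ ε > 0, ∃ a : J → ℝ, (∀ j, |a j| < ε) ∧ IsMorse n (fun x => H x + ∑ j, a j * f j x) := by
  classical
  set L : Set M := {x | mfderiv (𝓡 n) 𝓘(ℝ, ℝ) H x = 0} ∩ O with hL
  have hLcl : IsClosed L := by
    rw [← isOpen_compl_iff, isOpen_iff_mem_nhds]
    intro x hx
    by_cases hc : mfderiv (𝓡 n) 𝓘(ℝ, ℝ) H x = 0
    · have hxO : x ∉ O := fun h => hx ⟨hc, h⟩
      have h1 := isolated_one hH (x := x) (fun _ => hout x hc hxO)
      rw [eventually_nhdsWithin_iff] at h1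
      filter_upwards [h1] with y hy hyL
      by_cases hyx : y = x
      · rw [hyx] at hyL
        exact hx hyL
      · exact hy hyx hyL.1
    · have h1 := (isClosed_crit hH).isOpen_compl.mem_nhds (show x ∈ _ from hc)
      filter_upwards [h1] with y hy hyL
      exact hy hyL.1
  -- bump functions
  have hb : ∀ c : M, ∃ ρ : SmoothBumpFunction (𝓡 n) c, c ∈ O → tsupport ρ ⊆ O := by
    intro c
    by_cases hc : c ∈ O
    · obtain ⟨ρ, -, hρ⟩ := (SmoothBumpFunction.nhds_basis_tsupport (I := 𝓡 n) c).mem_iff.1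
        (hO.mem_nhds hc)
      exact ⟨ρ, fun _ => hρ⟩
    · have : Nonempty (SmoothBumpFunction (𝓡 n) c) := inferInstance
      exact ⟨Classical.choice this, fun h => absurd h hc⟩
  choose ρ hρO using hb
  set W : M → Set (EuclideanSpace ℝ (Fin n)) := fun c =>
    (extChartAt (𝓡 n) c).target ∩ (extChartAt (𝓡 n) c).symm ⁻¹' interior {x | ρ c x = 1} with hWdef
  have hW : ∀ c, IsOpen (W c) := fun c =>
    (continuousOn_extChartAt_symm c).isOpen_inter_preimage (isOpen_extChartAt_target c)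
      isOpen_interior
  have hcW : ∀ c, extChartAt (𝓡 n) c c ∈ W c := by
    intro c
    refine ⟨mem_extChartAt_target c, ?_⟩
    rw [mem_preimage, extChartAt_to_inv, mem_interior_iff_mem_nhds]
    exact (ρ c).eventuallyEq_one
  have hr : ∀ c, ∃ r > 0, Metric.closedBall (extChartAt (𝓡 n) c c) r ⊆ W c := fun c =>
    Metric.nhds_basis_closedBall.mem_iff.1 ((hW c).mem_nhds (hcW c))
  choose r hr0 hrW using hr
  set Nb : M → Set M := fun c => (extChartAt (𝓡 n) c).source ∩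
    extChartAt (𝓡 n) c ⁻¹' Metric.ball (extChartAt (𝓡 n) c c) (r c) with hNb
  have hNo : ∀ c, IsOpen (Nb c) := fun c =>
    (continuousOn_extChartAt c).isOpen_inter_preimage (isOpen_extChartAt_source c)
      Metric.isOpen_ball
  have hcN : ∀ c, c ∈ Nb c := fun c =>
    ⟨mem_extChartAt_source c, Metric.mem_ball_self (hr0 c)⟩
  obtain ⟨t, htL, ht⟩ := hLcl.isCompact.elim_nhds_subcover Nb
    (fun x _ => (hNo x).mem_nhds (hcN x))
  set f : ({c // c ∈ t} × ULift.{u} (Fin n)) → M → ℝ := fun q x =>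
    ρ q.1.1 x * (extChartAt (𝓡 n) q.1.1 x) q.2.down with hfdef
  have hf : ∀ j, ContMDiff (𝓡 n) 𝓘(ℝ, ℝ) ∞ (f j) := by
    rintro ⟨c, k⟩
    have h1 : ContMDiffOn (𝓡 n) 𝓘(ℝ, ℝ) ∞ (fun x => (extChartAt (𝓡 n) c.1 x) k.down)
        (chartAt (EuclideanSpace ℝ (Fin n)) c.1).source := by
      have h2 : ContMDiffOn (𝓡 n) 𝓘(ℝ, EuclideanSpace ℝ (Fin n)) ∞ (extChartAt (𝓡 n) c.1)
          (chartAt (EuclideanSpace ℝ (Fin n)) c.1).source := contMDiffOn_extChartAt
      exact ((EuclideanSpace.proj k.down :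
        EuclideanSpace ℝ (Fin n) →L[ℝ] ℝ).contMDiff).comp_contMDiffOn h2
    exact (ρ c.1).contMDiff_smul h1
  have hfO : ∀ j, tsupport (f j) ⊆ O := by
    rintro ⟨c, k⟩
    refine (closure_mono ?_).trans (hρO c.1 (htL c.1 c.2).2)
    intro x hx
    rw [Function.mem_support] at hx ⊢
    intro h0
    apply hx
    show ρ c.1 x * _ = 0
    rw [h0, zero_mul]
  refine ⟨{c // c ∈ t} × ULift.{u} (Fin n), inferInstance, f, hf, hfO, fun ε hε => ?_⟩
  have hf2 : ∀ j, ContMDiff (𝓡 n) 𝓘(ℝ, ℝ) 2 (f j) := fun j =>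
    (hf j).of_le two_le_infty
  have hall : ∀ᵐ a : ({c // c ∈ t} × ULift.{u} (Fin n)) → ℝ, ∀ c : {c // c ∈ t},
      ∀ z ∈ Metric.closedBall (extChartAt (𝓡 n) c.1 c.1) (r c.1),
      gr (H ∘ (extChartAt (𝓡 n) c.1).symm) z +
        ∑ j, a j • gr (f j ∘ (extChartAt (𝓡 n) c.1).symm) z = 0 →
      (fderiv ℝ (gr (H ∘ (extChartAt (𝓡 n) c.1).symm)) z +
        ∑ j, a j • fderiv ℝ (gr (f j ∘ (extChartAt (𝓡 n) c.1).symm)) z).det ≠ 0 := by
    rw [ae_all_iff]
    intro c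
    have cH := (chart_contDiffOn hH c.1).mono (inter_subset_left : W c.1 ⊆ _)
    have cf := fun j => (chart_contDiffOn (hf2 j) c.1).mono (inter_subset_left : W c.1 ⊆ _)
    let L : EuclideanSpace ℝ (Fin n) →ₗ[ℝ] (({c // c ∈ t} × ULift.{u} (Fin n)) → ℝ) :=
      { toFun := fun b q => if q.1 = c then b q.2.down else 0
        map_add' := by
          intro b b'
          ext q
          by_cases h : q.1 = c <;> simp [h]
        map_smul' := by
          intro s b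
          ext q
          by_cases h : q.1 = c <;> simp [h] }
    refine ae_nondeg (hW c.1) (isCompact_closedBall _ _) (hrW c.1) (gr_contDiffOn (hW c.1) cH)
      (fun j => gr_contDiffOn (hW c.1) (cf j)) L ?_
    intro b z hz
    rw [gr_sum (hW c.1) cf (L b) hz]
    refine gr_inner (hW c.1) b ?_ hz
    intro z hz
    have hρ : ρ c.1 ((extChartAt (𝓡 n) c.1).symm z) = 1 := interior_subset (s := {x | ρ c.1 x = 1}) hz.2
    have hz' : extChartAt (𝓡 n) c.1 ((extChartAt (𝓡 n) c.1).symm z) = z :=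
      (extChartAt (𝓡 n) c.1).right_inv hz.1
    rw [Fintype.sum_prod_type, Finset.sum_eq_single c]
    · have e1 : ∀ k : ULift.{u} (Fin n), L b (c, k) * (f (c, k) ∘ (extChartAt (𝓡 n) c.1).symm) z =
          b k.down * z k.down := by
        intro k
        have e2 : L b (c, k) = b k.down := by
          show (if (c, k).1 = c then b (c, k).2.down else 0) = _
          simp
        have e3 : (f (c, k) ∘ (extChartAt (𝓡 n) c.1).symm) z = z k.down := by
          show ρ c.1 ((extChartAt (𝓡 n) c.1).symm z) *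
            (extChartAt (𝓡 n) c.1 ((extChartAt (𝓡 n) c.1).symm z)) k.down = _
          rw [hρ, hz', one_mul]
        rw [e2, e3]
      rw [Finset.sum_congr rfl fun k _ => e1 k]
      rw [PiLp.inner_apply]
      refine Fintype.sum_equiv Equiv.ulift _ _ fun k => ?_
      simp [mul_comm]
    · intro c' _ hc'
      refine Finset.sum_eq_zero fun k _ => ?_
      have e2 : L b (c', k) = 0 := by
        show (if (c', k).1 = c then b (c', k).2.down else 0) = _
        simp [hc']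
      rw [e2, zero_mul]
    · intro h
      exact absurd (Finset.mem_univ _) h
  -- the rest of the manifold
  have hKc : IsCompact (⋃ c ∈ t, Nb c)ᶜ :=
    (isOpen_biUnion fun c _ => hNo c).isClosed_compl.isCompact
  have hev := eventually_morse hH hf2 hKc (fun x hx hc => hout x hc fun hxO => hx (ht ⟨hc, hxO⟩))
  have hball : ∀ᶠ a in 𝓝 (0 : ({c // c ∈ t} × ULift.{u} (Fin n)) → ℝ), ∀ j, |a j| < ε := by
    rw [eventually_all]
    intro j
    have h1 : Continuous fun a : ({c // c ∈ t} × ULift.{u} (Fin n)) → ℝ => |a j| :=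
      continuous_abs.comp (continuous_apply j)
    exact h1.continuousAt.eventually (gt_mem_nhds (by simpa using hε))
  obtain ⟨S, hS, hSo, h0S⟩ := eventually_nhds_iff.1 (hev.and hball)
  obtain ⟨a, haS, ha⟩ : ∃ a, a ∈ S ∧ ∀ c : {c // c ∈ t},
      ∀ z ∈ Metric.closedBall (extChartAt (𝓡 n) c.1 c.1) (r c.1),
      gr (H ∘ (extChartAt (𝓡 n) c.1).symm) z +
        ∑ j, a j • gr (f j ∘ (extChartAt (𝓡 n) c.1).symm) z = 0 →
      (fderiv ℝ (gr (H ∘ (extChartAt (𝓡 n) c.1).symm)) z +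
        ∑ j, a j • fderiv ℝ (gr (f j ∘ (extChartAt (𝓡 n) c.1).symm)) z).det ≠ 0 := by
    have h2 := hSo.measure_pos
      (volume : Measure (({c // c ∈ t} × ULift.{u} (Fin n)) → ℝ)) ⟨0, h0S⟩
    by_contra hcon
    push Not at hcon
    have h3 : S ⊆ {a | ¬ ∀ c : {c // c ∈ t},
      ∀ z ∈ Metric.closedBall (extChartAt (𝓡 n) c.1 c.1) (r c.1),
      gr (H ∘ (extChartAt (𝓡 n) c.1).symm) z +
        ∑ j, a j • gr (f j ∘ (extChartAt (𝓡 n) c.1).symm) z = 0 →
      (fderiv ℝ (gr (H ∘ (extChartAt (𝓡 n) c.1).symm)) z +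
        ∑ j, a j • fderiv ℝ (gr (f j ∘ (extChartAt (𝓡 n) c.1).symm)) z).det ≠ 0} := by
      intro a haS h
      obtain ⟨c, z, hz, hz0, hd⟩ := hcon a haS
      exact h c z hz hz0 hd
    exact absurd (measure_mono_null h3 (ae_iff.1 hall)) h2.ne'
  obtain ⟨hSm, hSb⟩ := hS a haS
  refine ⟨a, hSb, fun x hx => ?_⟩
  by_cases hxN : x ∈ ⋃ c ∈ t, Nb c
  · obtain ⟨c, hc, hxc⟩ := mem_iUnion₂.1 hxN
    refine ⟨c, hxc.1, ?_⟩
    have hzT : extChartAt (𝓡 n) c x ∈ (extChartAt (𝓡 n) c).target :=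
      (extChartAt (𝓡 n) c).map_source hxc.1
    rw [fderiv_gr_family hH hf2 a c hzT]
    refine ha ⟨c, hc⟩ _ (Metric.ball_subset_closedBall hxc.2) ?_
    have h1 := (gr_eq_zero_iff (family_contMDiff hH hf2 a) hxc.1).2 hx
    rwa [gr_family hH hf2 a c hzT] at h1
  · exact hSm x hxN hx

end Pool.Agent.W5h51.FL
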