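import Mathlib
import Pool.Agent.W5h51.FL.Chart

/-! Robustness: the fields close to a field with a Morse type Lyapunov function have finitely many
attractors, too. -/

set_option autoImplicit false
set_option linter.unusedSectionVars false

open scoped Topology ContDiff Manifold
open Set Filter MeasureTheory Bundle Metric

noncomputable section

namespace Pool.Agent.W5h51.FL

universe u

variable {n : ℕ} {M : Type u} [TopologicalSpace M] [ChartedSpace (EuclideanSpace ℝ (Fin n)) M]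
  [IsManifold (𝓡 n) ∞ M]

/-- quantitative spanning -/
lemma span_bound {N : ℕ} {W : Fin N → (x : M) → TangentSpace (𝓡 n) x}
    (hW : ∀ i, ContMDiff (𝓡 n) (𝓡 n).tangent ∞ (fun x => (⟨x, W i x⟩ : TangentBundle (𝓡 n) M)))
    (hspan : ∀ (x : M) (α : TangentSpace (𝓡 n) x →L[ℝ] ℝ), (∀ i, α (W i x) = 0) → α = 0)
    (c : M) {K : Set (EuclideanSpace ℝ (Fin n))} (hK : IsCompact K)
    (hKt : K ⊆ (extChartAt (𝓡 n) c).target) :
    ∃ s : ℝ, 0 < s ∧ ∀ z ∈ K, ∀ v : EuclideanSpace ℝ (Fin n),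
      s * ‖v‖ ^ 2 ≤ ∑ i, (inner ℝ v (rep (W i) c z)) ^ 2 := by
  have hcont : ∀ i, ContinuousOn (rep (W i) c) (extChartAt (𝓡 n) c).target := fun i =>
    (rep_contDiffOn (r := ⊤) (⟨W i, hW i⟩ : VF n M ⊤) c).continuousOn
  have hg : ContinuousOn (fun q : EuclideanSpace ℝ (Fin n) × EuclideanSpace ℝ (Fin n) =>
      ∑ i, (inner ℝ q.2 (rep (W i) c q.1)) ^ 2) (K ×ˢ sphere 0 1) := by
    refine continuousOn_finsetSum _ fun i _ => ContinuousOn.pow ?_ 2
    refine ContinuousOn.inner continuousOn_snd ?_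
    exact ((hcont i).mono hKt).comp continuousOn_fst fun q hq => hq.1
  obtain ⟨s, hs, hs'⟩ := (hK.prod (isCompact_sphere (0 : EuclideanSpace ℝ (Fin n)) 1)).exists_forall_le'
    hg (a := 0) (by
      rintro ⟨z, v⟩ ⟨hz, hv⟩
      have h0 : 0 ≤ ∑ i, (inner ℝ v (rep (W i) c z)) ^ 2 := Finset.sum_nonneg fun i _ => sq_nonneg _
      refine lt_of_le_of_ne h0 fun h1 => ?_
      have h2 := (Finset.sum_eq_zero_iff_of_nonneg fun i _ => sq_nonneg _).1 h1.symm
      have hz' := hKt hz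
      have hx := (extChartAt (𝓡 n) c).map_target hz'
      set x := (extChartAt (𝓡 n) c).symm z with hxdef
      have h3 : (((innerSL ℝ v : EuclideanSpace ℝ (Fin n) →L[ℝ] ℝ)).comp
          (mfderiv (𝓡 n) 𝓘(ℝ, EuclideanSpace ℝ (Fin n)) (extChartAt (𝓡 n) c) x) :
          TangentSpace (𝓡 n) x →L[ℝ] ℝ) = 0 := by
        refine hspan x _ fun i => ?_
        have h4 := h2 i (Finset.mem_univ i)
        have h5 := pow_eq_zero_iff (two_ne_zero) |>.1 h4
        exact h5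
      obtain ⟨w, hw⟩ := mfderiv_ext_surj hx v
      have h6 := DFunLike.congr_fun h3 w
      have h7 : inner ℝ v (mfderiv (𝓡 n) 𝓘(ℝ, EuclideanSpace ℝ (Fin n))
        (extChartAt (𝓡 n) c) x w : EuclideanSpace ℝ (Fin n)) = (0 : ℝ) := h6
      have h8 : inner ℝ v v = (0 : ℝ) := by
        rw [hw] at h7
        exact h7
      have h9 : v = 0 := inner_self_eq_zero.1 h8
      rw [mem_sphere, h9, dist_self] at hv
      norm_num at hv)
  refine ⟨s, hs, fun z hz v => ?_⟩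
  by_cases hv : v = 0
  · rw [hv, norm_zero]
    simp only [inner_zero_left]
    simp
  · have hv' : 0 < ‖v‖ := norm_pos_iff.2 hv
    have h1 := hs' (z, ‖v‖⁻¹ • v) ⟨hz, by
      rw [mem_sphere, dist_zero_right, norm_smul, norm_inv, norm_norm]
      field_simp⟩
    simp only [inner_smul_left, mul_pow] at h1
    rw [← Finset.mul_sum] at h1
    have h2 : (starRingEnd ℝ) ‖v‖⁻¹ ^ 2 = (‖v‖ ^ 2)⁻¹ := by
      simp
    rw [h2, inv_mul_eq_div, le_div_iff₀ (by positivity)] at h1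
    exact h1

/-- A field with a Lyapunov function of Morse type. -/
structure Lyap {r : ℕ∞} (Y : VF n M r) (h : M → ℝ) : Prop where
  smooth : ContMDiff (𝓡 n) 𝓘(ℝ, ℝ) 2 h
  finite : {x | df n h x = 0}.Finite
  pos : ∀ x, df n h x ≠ 0 → 0 < df n h x (Y x)
  zero : ∀ x, df n h x = 0 → Y x = 0
  loc : ∀ p, df n h p = 0 → ∀ O : Set M, IsOpen O → p ∈ O → ∃ (c : M) (R c₁ c₂ : ℝ),
    0 < R ∧ 0 < c₁ ∧ 0 < c₂ ∧ p ∈ (extChartAt (𝓡 n) c).source ∧
    closedBall (extChartAt (𝓡 n) c p) R ⊆ (extChartAt (𝓡 n) c).target ∧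
    (∀ z ∈ closedBall (extChartAt (𝓡 n) c p) R, (extChartAt (𝓡 n) c).symm z ∈ O) ∧
    (∀ z ∈ closedBall (extChartAt (𝓡 n) c p) R, c₁ * ‖gr (h ∘ (extChartAt (𝓡 n) c).symm) z‖ ^ 2 ≤
      inner ℝ (gr (h ∘ (extChartAt (𝓡 n) c).symm) z) (rep Y c z)) ∧
    (∀ z ∈ closedBall (extChartAt (𝓡 n) c p) R, c₂ * ‖z - extChartAt (𝓡 n) c p‖ ≤
      ‖gr (h ∘ (extChartAt (𝓡 n) c).symm) z‖)

lemma Pert.df_Y {r : ℕ∞}
    {A : (x : M) → (TangentSpace (𝓡 n) x →L[ℝ] ℝ) →ₗ[ℝ] TangentSpace (𝓡 n) x}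
    {N : ℕ} {W : Fin N → (x : M) → TangentSpace (𝓡 n) x} {h : M → ℝ} {ε : ℝ} {Y : VF n M r}
    (H : Pert r A W h ε Y) (x : M) :
    df n h x (Y x) = df n h x (A x (df n h x)) + ε * ∑ i, (df n h x (W i x)) ^ 2 := by
  rw [H.eq x, map_add, map_smul, map_sum]
  congr 1
  rw [smul_eq_mul]
  congr 1
  refine Finset.sum_congr rfl fun i _ => ?_
  rw [map_smul, smul_eq_mul, sq]

theorem Pert.lyap {r : ℕ∞} (hr : 1 ≤ r)
    {A : (x : M) → (TangentSpace (𝓡 n) x →L[ℝ] ℝ) →ₗ[ℝ] TangentSpace (𝓡 n) x}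
    (hA : IsNonnegField n r A)
    {N : ℕ} {W : Fin N → (x : M) → TangentSpace (𝓡 n) x} {h : M → ℝ} {ε : ℝ} {Y : VF n M r}
    (hW : ∀ i, ContMDiff (𝓡 n) (𝓡 n).tangent ∞ (fun x => (⟨x, W i x⟩ : TangentBundle (𝓡 n) M)))
    (hspan : ∀ (x : M) (α : TangentSpace (𝓡 n) x →L[ℝ] ℝ), (∀ i, α (W i x) = 0) → α = 0)
    (H : Pert r A W h ε Y) : Lyap Y h := by
  have hε := H.pos
  have hsm : ContMDiff (𝓡 n) 𝓘(ℝ, ℝ) 2 h := H.smooth.of_le (two_le_succ hr)
  refine ⟨hsm, H.finite, ?_, ?_, ?_⟩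
  · intro x hx
    rw [H.df_Y x]
    have h1 := hA.nonneg x (df n h x)
    have h2 : 0 < ∑ i, (df n h x (W i x)) ^ 2 := by
      refine lt_of_le_of_ne (Finset.sum_nonneg fun i _ => sq_nonneg _) fun h0 => ?_
      have h3 := (Finset.sum_eq_zero_iff_of_nonneg fun i _ => sq_nonneg _).1 h0.symm
      exact hx (hspan x _ fun i => pow_eq_zero_iff (two_ne_zero) |>.1 (h3 i (Finset.mem_univ i)))
    have h4 : 0 < ε * ∑ i, (df n h x (W i x)) ^ 2 := mul_pos hε h2
    linarith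
  · intro x hx
    rw [H.eq x, hx, map_zero]
    simp
  · intro p hp O hO hpO
    obtain ⟨c, hpc, hdet⟩ := H.morse p hp
    set φ := extChartAt (𝓡 n) c with hφ
    have hTo : IsOpen φ.target := isOpen_extChartAt_target c
    have hzT : φ p ∈ φ.target := φ.map_source hpc
    have cd : ContDiffOn ℝ 1 (gr (h ∘ φ.symm)) φ.target := gr_contDiffOn hTo (chart_contDiffOn hsm c)
    have hgd : HasFDerivAt (gr (h ∘ φ.symm)) (fderiv ℝ (gr (h ∘ φ.symm)) (φ p)) (φ p) :=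
      ((cd.contDiffAt (hTo.mem_nhds hzT)).differentiableAt (by norm_num)).hasFDerivAt
    have hg0 : gr (h ∘ φ.symm) (φ p) = 0 := by
      unfold gr
      rw [fd_zero (hsm.mdifferentiableAt (by simp)) hp hpc, map_zero]
    -- linear growth
    have hC : Topology.IsInducing (fderiv ℝ (gr (h ∘ φ.symm)) (φ p)) := by
      exact (ContinuousLinearMap.toContinuousLinearEquivOfDetNeZero _
        hdet).toHomeomorph.isInducing
    have hbig := (hgd.isTheta_sub hC).isBigO_symm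
    rw [Asymptotics.isBigO_iff] at hbig
    obtain ⟨b, hb⟩ := hbig
    have hnear : φ.target ∩ φ.symm ⁻¹' O ∈ 𝓝 (φ p) := by
      refine inter_mem (hTo.mem_nhds hzT) ?_
      refine (continuousAt_extChartAt_symm' hpc).preimage_mem_nhds ?_
      rw [← hφ, φ.left_inv hpc]
      exact hO.mem_nhds hpO
    obtain ⟨R, hR, hRs⟩ := Metric.nhds_basis_closedBall.mem_iff.1 (inter_mem hb hnear)
    obtain ⟨s, hs, hs'⟩ := span_bound hW hspan c (isCompact_closedBall (φ p) R)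
      (fun z hz => (hRs hz).2.1)
    refine ⟨c, R, ε * s, (|b| + 1)⁻¹, hR, by positivity, by positivity, hpc,
      fun z hz => (hRs hz).2.1, fun z hz => (hRs hz).2.2, fun z hz => ?_, fun z hz => ?_⟩
    · have hzt := (hRs hz).2.1
      rw [inner_gr, fderiv_rep' hsm (fun x => Y x) hzt, H.df_Y]
      have h1 := hA.nonneg (φ.symm z) (df n h (φ.symm z))
      have h2 := hs' z hz (gr (h ∘ φ.symm) z)
      have h3 : ∀ i, inner ℝ (gr (h ∘ φ.symm) z) (rep (W i) c z) =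
          df n h (φ.symm z) (W i (φ.symm z)) := by
        intro i
        rw [inner_gr, fderiv_rep' hsm (W i) hzt]
      rw [Finset.sum_congr rfl fun i _ => by rw [h3 i]] at h2
      have h4 := mul_le_mul_of_nonneg_left h2 hε.le
      calc ε * s * ‖gr (h ∘ φ.symm) z‖ ^ 2 = ε * (s * ‖gr (h ∘ φ.symm) z‖ ^ 2) := by ring
        _ ≤ _ := h4
        _ ≤ _ := le_add_of_nonneg_left h1
    · have h1 : ‖z - φ p‖ ≤ b * ‖gr (h ∘ φ.symm) z - gr (h ∘ φ.symm) (φ p)‖ := (hRs hz).1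
      rw [hg0, sub_zero] at h1
      rw [inv_mul_le_iff₀ (by positivity)]
      have h2 : b ≤ |b| + 1 := (le_abs_self b).trans (by linarith)
      exact h1.trans (mul_le_mul_of_nonneg_right h2 (norm_nonneg _))

end Pool.Agent.W5h51.FL
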