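import Mathlib
import Pool.Agent.W5h51.FL.Family2
import Pool.Agent.W5h51.FL.Robust

/-! Perturbations with a Lyapunov function of Morse type, general form. -/

set_option autoImplicit false
set_option linter.unusedSectionVars false

open scoped Topology ContDiff Manifold
open Set Filter MeasureTheory Bundle Metric

noncomputable section

namespace Pool.Agent.W5h51.FL

universe u

variable {n : ℕ} {M : Type u} [TopologicalSpace M] [ChartedSpace (EuclideanSpace ℝ (Fin n)) M]
  [IsManifold (𝓡 n) ∞ M]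

/-- If `h` does not decrease along `X`, the field `X` vanishes at the nondegenerate critical points
of `h`. -/
lemma zero_of_nondeg {r : ℕ∞} (hr : 1 ≤ r) {h : M → ℝ} (hh : ContMDiff (𝓡 n) 𝓘(ℝ, ℝ) 2 h)
    (X : VF n M r) (hm : ∀ x, 0 ≤ df n h x (X x)) {p : M}
    (hp : mfderiv (𝓡 n) 𝓘(ℝ, ℝ) h p = 0) (hnd : Nondeg n h p) : X p = 0 := by
  have hr' : (1 : ℕ∞ω) ≤ (r : ℕ∞ω) := by exact_mod_cast hr
  obtain ⟨c, hc, hdet⟩ := hnd
  set φ := extChartAt (𝓡 n) c with hφ
  have hTo : IsOpen φ.target := isOpen_extChartAt_target c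
  have hzT : φ p ∈ φ.target := φ.map_source hc
  set g := gr (h ∘ φ.symm) with hg
  set V := rep (fun x => X x) c with hV
  have hgd : HasFDerivAt g (fderiv ℝ g (φ p)) (φ p) :=
    (((gr_contDiffOn hTo (chart_contDiffOn hh c)).contDiffAt (hTo.mem_nhds hzT)).differentiableAt
      (by norm_num)).hasFDerivAt
  have hVd : HasFDerivAt V (fderiv ℝ V (φ p)) (φ p) :=
    ((((rep_contDiffOn X c).of_le hr').contDiffAt (hTo.mem_nhds hzT)).differentiableAt
      (by norm_num)).hasFDerivAt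
  have hg0 : g (φ p) = 0 := (gr_eq_zero_iff hh hc).2 hp
  have hpos : ∀ z ∈ φ.target, 0 ≤ inner ℝ (g z) (V z) := by
    intro z hz
    rw [hg, inner_gr, hV, fderiv_rep' hh (fun x => X x) hz]
    exact hm _
  have key : ∀ v, inner ℝ (fderiv ℝ g (φ p) v) (V (φ p)) = (0:ℝ) := by
    intro v
    have hl : HasDerivAt (fun t : ℝ => φ p + t • v) v 0 := by
      simpa using ((hasDerivAt_id (0:ℝ)).smul_const v).const_add (φ p)
    have hz : φ p = φ p + (0:ℝ) • v := by simp
    have h1 : HasDerivAt (fun t : ℝ => g (φ p + t • v)) (fderiv ℝ g (φ p) v) 0 := by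
      have h1 : HasFDerivAt g (fderiv ℝ g (φ p)) (φ p + (0:ℝ) • v) := by
        rw [← hz]; exact hgd
      exact h1.comp_hasDerivAt 0 hl
    have h2 : HasDerivAt (fun t : ℝ => V (φ p + t • v)) (fderiv ℝ V (φ p) v) 0 := by
      have h1 : HasFDerivAt V (fderiv ℝ V (φ p)) (φ p + (0:ℝ) • v) := by
        rw [← hz]; exact hVd
      exact h1.comp_hasDerivAt 0 hl
    have h3 := h1.inner ℝ h2
    have h4 : IsLocalMin (fun t : ℝ => inner ℝ (g (φ p + t • v)) (V (φ p + t • v))) 0 := by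
      have h5 : ∀ᶠ t : ℝ in 𝓝 0, φ p + t • v ∈ φ.target := by
        have h6 : ContinuousAt (fun t : ℝ => φ p + t • v) 0 := hl.continuousAt
        refine h6.preimage_mem_nhds (hTo.mem_nhds ?_)
        rw [← hz]
        exact hzT
      filter_upwards [h5] with t ht
      rw [← hz, hg0, inner_zero_left]
      exact hpos _ ht
    have h5 := h4.hasDerivAt_eq_zero h3
    rw [← hz, hg0, inner_zero_left, zero_add] at h5
    exact h5
  have hsurj : Function.Surjective (fderiv ℝ g (φ p)) :=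
    (ContinuousLinearMap.toContinuousLinearEquivOfDetNeZero _ hdet).surjective
  obtain ⟨v, hv⟩ := hsurj (V (φ p))
  have h1 := key v
  rw [hv] at h1
  have h2 : V (φ p) = 0 := inner_self_eq_zero.1 h1
  rw [hV, rep_ext _ hc] at h2
  exact mfderiv_ext_inj hc h2

/-- Perturbations by gradients have Lyapunov functions of Morse type. -/
theorem lyap_of {r : ℕ∞} {N : ℕ} {W : Fin N → (x : M) → TangentSpace (𝓡 n) x}
    (hW : ∀ i, ContMDiff (𝓡 n) (𝓡 n).tangent ∞ (fun x => (⟨x, W i x⟩ : TangentBundle (𝓡 n) M)))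
    (hspan : ∀ (x : M) (α : TangentSpace (𝓡 n) x →L[ℝ] ℝ), (∀ i, α (W i x) = 0) → α = 0)
    {h : M → ℝ} {ε : ℝ} (hε : 0 < ε) (hsm : ContMDiff (𝓡 n) 𝓘(ℝ, ℝ) 2 h)
    (hfin : {x | df n h x = 0}.Finite) (hmorse : IsMorse n h)
    {V : (x : M) → TangentSpace (𝓡 n) x} (hV : ∀ x, 0 ≤ df n h x (V x))
    (hV0 : ∀ x, df n h x = 0 → V x = 0) {Y : VF n M r}
    (hY : ∀ x, Y x = V x + ε • ∑ i, df n h x (W i x) • W i x) : Lyap Y h := by
  have hdY : ∀ x, df n h x (Y x) = df n h x (V x) + ε * ∑ i, (df n h x (W i x)) ^ 2 := by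
    intro x
    rw [hY x, map_add, map_smul, map_sum]
    congr 1
    rw [smul_eq_mul]
    congr 1
    refine Finset.sum_congr rfl fun i _ => ?_
    rw [map_smul, smul_eq_mul, sq]
  refine ⟨hsm, hfin, ?_, ?_, ?_⟩
  · intro x hx
    rw [hdY x]
    have h1 := hV x
    have h2 : 0 < ∑ i, (df n h x (W i x)) ^ 2 := by
      refine lt_of_le_of_ne (Finset.sum_nonneg fun i _ => sq_nonneg _) fun h0 => ?_
      have h3 := (Finset.sum_eq_zero_iff_of_nonneg fun i _ => sq_nonneg _).1 h0.symm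
      exact hx (hspan x _ fun i => pow_eq_zero_iff (two_ne_zero) |>.1 (h3 i (Finset.mem_univ i)))
    have h4 : 0 < ε * ∑ i, (df n h x (W i x)) ^ 2 := mul_pos hε h2
    linarith
  · intro x hx
    rw [hY x, hx, hV0 x hx]
    simp
  · intro p hp O hO hpO
    obtain ⟨c, hpc, hdet⟩ := hmorse p hp
    set φ := extChartAt (𝓡 n) c with hφ
    have hTo : IsOpen φ.target := isOpen_extChartAt_target c
    have hzT : φ p ∈ φ.target := φ.map_source hpc
    have cd : ContDiffOn ℝ 1 (gr (h ∘ φ.symm)) φ.target := gr_contDiffOn hTo (chart_contDiffOn hsm c)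
    have hgd : HasFDerivAt (gr (h ∘ φ.symm)) (fderiv ℝ (gr (h ∘ φ.symm)) (φ p)) (φ p) :=
      ((cd.contDiffAt (hTo.mem_nhds hzT)).differentiableAt (by norm_num)).hasFDerivAt
    have hg0 : gr (h ∘ φ.symm) (φ p) = 0 := by
      unfold gr
      rw [fd_zero (hsm.mdifferentiableAt (by simp)) hp hpc, map_zero]
    -- linear growth
    have hC : Topology.IsInducing (fderiv ℝ (gr (h ∘ φ.symm)) (φ p)) := by
      exact (ContinuousLinearMap.toContinuousLinearEquivOfDetNeZero _
        hdet).toHomeomorph.isInducing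
    have hbig := (hgd.isTheta_sub hC).isBigO_symm
    rw [Asymptotics.isBigO_iff] at hbig
    obtain ⟨b, hb⟩ := hbig
    have hnear : φ.target ∩ φ.symm ⁻¹' O ∈ 𝓝 (φ p) := by
      refine inter_mem (hTo.mem_nhds hzT) ?_
      refine (continuousAt_extChartAt_symm' hpc).preimage_mem_nhds ?_
      rw [← hφ, φ.left_inv hpc]
      exact hO.mem_nhds hpO
    obtain ⟨R, hR, hRs⟩ := Metric.nhds_basis_closedBall.mem_iff.1 (inter_mem hb hnear)
    obtain ⟨s, hs, hs'⟩ := span_bound hW hspan c (isCompact_closedBall (φ p) R)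
      (fun z hz => (hRs hz).2.1)
    refine ⟨c, R, ε * s, (|b| + 1)⁻¹, hR, by positivity, by positivity, hpc,
      fun z hz => (hRs hz).2.1, fun z hz => (hRs hz).2.2, fun z hz => ?_, fun z hz => ?_⟩
    · have hzt := (hRs hz).2.1
      rw [inner_gr, fderiv_rep' hsm (fun x => Y x) hzt, hdY]
      have h1 := hV (φ.symm z)
      have h2 := hs' z hz (gr (h ∘ φ.symm) z)
      have h3 : ∀ i, inner ℝ (gr (h ∘ φ.symm) z) (rep (W i) c z) =
          df n h (φ.symm z) (W i (φ.symm z)) := by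
        intro i
        rw [inner_gr, fderiv_rep' hsm (W i) hzt]
      rw [Finset.sum_congr rfl fun i _ => by rw [h3 i]] at h2
      have h4 := mul_le_mul_of_nonneg_left h2 hε.le
      calc ε * s * ‖gr (h ∘ φ.symm) z‖ ^ 2 = ε * (s * ‖gr (h ∘ φ.symm) z‖ ^ 2) := by ring
        _ ≤ _ := h4
        _ ≤ _ := le_add_of_nonneg_left h1
    · have h1 : ‖z - φ p‖ ≤ b * ‖gr (h ∘ φ.symm) z - gr (h ∘ φ.symm) (φ p)‖ := (hRs hz).1
      rw [hg0, sub_zero] at h1
      rw [inv_mul_le_iff₀ (by positivity)]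
      have h2 : b ≤ |b| + 1 := (le_abs_self b).trans (by linarith)
      exact h1.trans (mul_le_mul_of_nonneg_right h2 (norm_nonneg _))

/-- The property only depends on the values of the field. -/
lemma Lyap.congr {r r' : ℕ∞} {Y : VF n M r} {Y' : VF n M r'} {h : M → ℝ} (H : Lyap Y h)
    (e : ∀ x, Y' x = Y x) : Lyap Y' h := by
  have e' : (fun x => Y' x) = fun x => Y x := funext e
  refine ⟨H.smooth, H.finite, fun x hx => by rw [e x]; exact H.pos x hx,
    fun x hx => by rw [e x]; exact H.zero x hx, fun p hp O hO hpO => ?_⟩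
  obtain ⟨c, R, c₁, c₂, h1, h2, h3, h4, h5, h6, h7, h8⟩ := H.loc p hp O hO hpO
  refine ⟨c, R, c₁, c₂, h1, h2, h3, h4, h5, h6, fun z hz => ?_, h8⟩
  have := h7 z hz
  have e2 : rep Y' c z = rep Y c z := by
    show rep (fun x => Y' x) c z = rep (fun x => Y x) c z
    rw [e']
  rw [e2]
  exact this

end Pool.Agent.W5h51.FL
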