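import Mathlib

/-! Sets of Lebesgue measure zero in manifolds. -/

set_option autoImplicit false
set_option linter.unusedSectionVars false

open scoped Topology ContDiff Manifold
open Set Filter MeasureTheory Metric

noncomputable section

namespace Pool.Agent.W5h51.FL

universe u

variable {n : ℕ} {M : Type u} [TopologicalSpace M] [ChartedSpace (EuclideanSpace ℝ (Fin n)) M]
  [IsManifold (𝓡 n) ∞ M]

variable (n) in
/-- `S ⊆ M` has Lebesgue measure zero: so has its image in every chart. -/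
def LebesgueNull (S : Set M) : Prop :=
  ∀ c : M, volume (extChartAt (𝓡 n) c '' (S ∩ (extChartAt (𝓡 n) c).source)) = 0

lemma LebesgueNull.mono {S T : Set M} (h : LebesgueNull n T) (hST : S ⊆ T) : LebesgueNull n S :=
  fun c => measure_mono_null (image_mono (inter_subset_inter_left _ hST)) (h c)

lemma LebesgueNull.iUnion {ι : Type*} [Countable ι] {S : ι → Set M}
    (h : ∀ i, LebesgueNull n (S i)) : LebesgueNull n (⋃ i, S i) := by
  intro c
  rw [iUnion_inter, image_iUnion]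
  exact measure_iUnion_null fun i => h i c

/-- images of null sets in one chart, under `C¹` maps, are null in any other chart -/
lemma null_image_chart {f : M → M} (hf : ContMDiff (𝓡 n) (𝓡 n) 1 f) {c c' : M} {S : Set M}
    (hS : S ⊆ (extChartAt (𝓡 n) c).source) (h0 : volume (extChartAt (𝓡 n) c '' S) = 0) :
    volume (extChartAt (𝓡 n) c' '' (f '' S ∩ (extChartAt (𝓡 n) c').source)) = 0 := by
  have hm1 : IsManifold (𝓡 n) 1 M := IsManifold.of_le (n := ∞) (by simp)
  set A := extChartAt (𝓡 n) c '' (S ∩ f ⁻¹' (extChartAt (𝓡 n) c').source) with hA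
  have hA0 : volume A = 0 := measure_mono_null (image_mono inter_subset_left) h0
  set F : EuclideanSpace ℝ (Fin n) → EuclideanSpace ℝ (Fin n) :=
    fun z => extChartAt (𝓡 n) c' (f ((extChartAt (𝓡 n) c).symm z)) with hF
  have hFA : F '' A = extChartAt (𝓡 n) c' '' (f '' S ∩ (extChartAt (𝓡 n) c').source) := by
    ext w
    constructor
    · rintro ⟨_, ⟨x, ⟨hxS, hx⟩, rfl⟩, rfl⟩
      refine ⟨f x, ⟨mem_image_of_mem f hxS, hx⟩, ?_⟩
      rw [hF]
      simp only
      rw [(extChartAt (𝓡 n) c).left_inv (hS hxS)]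
    · rintro ⟨_, ⟨⟨x, hxS, rfl⟩, hx⟩, rfl⟩
      refine ⟨_, ⟨x, ⟨hxS, hx⟩, rfl⟩, ?_⟩
      rw [hF]
      simp only
      rw [(extChartAt (𝓡 n) c).left_inv (hS hxS)]
  rw [← hFA]
  refine addHaar_image_eq_zero_of_differentiableOn_of_addHaar_eq_zero volume ?_ hA0
  rintro _ ⟨x, ⟨hxS, hx⟩, rfl⟩
  have hxs := hS hxS
  have hz := (extChartAt (𝓡 n) c).map_source hxs
  have e1 : ContMDiffAt 𝓘(ℝ, EuclideanSpace ℝ (Fin n)) (𝓡 n) 1 (extChartAt (𝓡 n) c).symm
      (extChartAt (𝓡 n) c x) :=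
    (contMDiffOn_extChartAt_symm c).contMDiffAt ((isOpen_extChartAt_target c).mem_nhds hz)
  have e2 : ContMDiffAt (𝓡 n) 𝓘(ℝ, EuclideanSpace ℝ (Fin n)) 1 (extChartAt (𝓡 n) c')
      (f ((extChartAt (𝓡 n) c).symm (extChartAt (𝓡 n) c x))) := by
    rw [(extChartAt (𝓡 n) c).left_inv hxs]
    refine contMDiffAt_extChartAt' ?_
    rw [← extChartAt_source (𝓡 n)]
    exact hx
  have e12 : ContMDiffAt 𝓘(ℝ, EuclideanSpace ℝ (Fin n)) (𝓡 n) 1
      (fun z => f ((extChartAt (𝓡 n) c).symm z)) (extChartAt (𝓡 n) c x) :=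
    ContMDiffAt.comp (extChartAt (𝓡 n) c x) (g := f) hf.contMDiffAt e1
  have e3 : ContMDiffAt 𝓘(ℝ, EuclideanSpace ℝ (Fin n)) 𝓘(ℝ, EuclideanSpace ℝ (Fin n)) 1 F
      (extChartAt (𝓡 n) c x) :=
    ContMDiffAt.comp (extChartAt (𝓡 n) c x) (g := extChartAt (𝓡 n) c') e2 e12
  exact ((contMDiffAt_iff_contDiffAt.1 e3).differentiableAt (by norm_num)).differentiableWithinAt

lemma null_of_chart {c : M} {S : Set M} (hS : S ⊆ (extChartAt (𝓡 n) c).source)
    (h0 : volume (extChartAt (𝓡 n) c '' S) = 0) : LebesgueNull n S := by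
  intro c'
  have := null_image_chart (f := id) contMDiff_id (c' := c') hS h0
  rwa [image_id] at this

/-- `C¹` maps preserve null sets -/
theorem LebesgueNull.image [CompactSpace M] {f : M → M} (hf : ContMDiff (𝓡 n) (𝓡 n) 1 f)
    {S : Set M} (h : LebesgueNull n S) : LebesgueNull n (f '' S) := by
  obtain ⟨t, -, ht⟩ := isCompact_univ.elim_nhds_subcover
    (fun c : M => (extChartAt (𝓡 n) c).source) (fun c _ => extChartAt_source_mem_nhds (I := 𝓡 n) c)
  have hS : f '' S ⊆ ⋃ c : ↥t, f '' (S ∩ (extChartAt (𝓡 n) (c : M)).source) := by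
    rintro _ ⟨x, hx, rfl⟩
    obtain ⟨c, hc, hxc⟩ := mem_iUnion₂.1 (ht (mem_univ x))
    exact mem_iUnion.2 ⟨⟨c, hc⟩, mem_image_of_mem f ⟨hx, hxc⟩⟩
  refine LebesgueNull.mono (LebesgueNull.iUnion fun c : ↥t => ?_) hS
  intro c'
  exact null_image_chart hf inter_subset_right (h c)

end Pool.Agent.W5h51.FL
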