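import Mathlib
import Pool.Agent.W5h51.FL.Robust

/-! Functions supported in a chart, pulled back to the manifold. -/

set_option autoImplicit false
set_option linter.unusedSectionVars false

open scoped Topology ContDiff Manifold
open Set Filter MeasureTheory Bundle Metric

noncomputable section

namespace Pool.Agent.W5h51.FL

universe u

variable {n : ℕ} {M : Type u} [TopologicalSpace M] [ChartedSpace (EuclideanSpace ℝ (Fin n)) M]
  [IsManifold (𝓡 n) ∞ M]

open Classical in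
/-- the pull-back of a function under a chart, extended by `0` -/
def pull (c : M) (u : EuclideanSpace ℝ (Fin n) → ℝ) (x : M) : ℝ :=
  if x ∈ (extChartAt (𝓡 n) c).source then u (extChartAt (𝓡 n) c x) else 0

open Classical in
/-- its derivative along the field `Y` -/
def dpull (Y : (x : M) → TangentSpace (𝓡 n) x) (c : M) (u : EuclideanSpace ℝ (Fin n) → ℝ)
    (x : M) : ℝ :=
  if x ∈ (extChartAt (𝓡 n) c).source then
    fderiv ℝ u (extChartAt (𝓡 n) c x) (rep Y c (extChartAt (𝓡 n) c x)) else 0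

/-- the ball in the chart -/
def cball (c : M) (z₀ : EuclideanSpace ℝ (Fin n)) (ρ : ℝ) : Set M :=
  (extChartAt (𝓡 n) c).symm '' closedBall z₀ ρ

lemma mem_cball {c : M} {z₀ : EuclideanSpace ℝ (Fin n)} {ρ : ℝ}
    (hρ : closedBall z₀ ρ ⊆ (extChartAt (𝓡 n) c).target) {x : M} :
    x ∈ cball c z₀ ρ ↔ x ∈ (extChartAt (𝓡 n) c).source ∧
      extChartAt (𝓡 n) c x ∈ closedBall z₀ ρ := by
  constructor
  · rintro ⟨z, hz, rfl⟩
    refine ⟨(extChartAt (𝓡 n) c).map_target (hρ hz), ?_⟩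
    rw [(extChartAt (𝓡 n) c).right_inv (hρ hz)]
    exact hz
  · rintro ⟨h1, h2⟩
    exact ⟨_, h2, (extChartAt (𝓡 n) c).left_inv h1⟩

lemma cball_compact {c : M} {z₀ : EuclideanSpace ℝ (Fin n)} {ρ : ℝ}
    (hρ : closedBall z₀ ρ ⊆ (extChartAt (𝓡 n) c).target) : IsCompact (cball c z₀ ρ) :=
  (isCompact_closedBall z₀ ρ).image_of_continuousOn
    ((continuousOn_extChartAt_symm (I := 𝓡 n) c).mono hρ)

section

variable {c : M} {u : EuclideanSpace ℝ (Fin n) → ℝ} {z₀ : EuclideanSpace ℝ (Fin n)} {ρ : ℝ}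

lemma pull_out (hρ : closedBall z₀ ρ ⊆ (extChartAt (𝓡 n) c).target)
    (hu0 : ∀ z ∉ closedBall z₀ ρ, u z = 0) {x : M} (hx : x ∉ cball c z₀ ρ) : pull c u x = 0 := by
  unfold pull
  split_ifs with h
  · exact hu0 _ fun h2 => hx ((mem_cball hρ).2 ⟨h, h2⟩)
  · rfl

lemma dpull_out (hρ : closedBall z₀ ρ ⊆ (extChartAt (𝓡 n) c).target)
    (hu0 : ∀ z ∉ closedBall z₀ ρ, u z = 0) (Y : (x : M) → TangentSpace (𝓡 n) x)
    {x : M} (hx : x ∉ cball c z₀ ρ) : dpull Y c u x = 0 := by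
  unfold dpull
  split_ifs with h
  · have h2 : extChartAt (𝓡 n) c x ∉ closedBall z₀ ρ := fun h2 => hx ((mem_cball hρ).2 ⟨h, h2⟩)
    have h3 : u =ᶠ[𝓝 (extChartAt (𝓡 n) c x)] fun _ => 0 := by
      filter_upwards [isClosed_closedBall.isOpen_compl.mem_nhds h2] with z hz using hu0 z hz
    rw [h3.fderiv_eq]
    simp
  · rfl

lemma pull_continuous [T2Space M] (hρ : closedBall z₀ ρ ⊆ (extChartAt (𝓡 n) c).target)
    (hu : ContDiff ℝ 1 u) (hu0 : ∀ z ∉ closedBall z₀ ρ, u z = 0) : Continuous (pull c u) := by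
  rw [continuous_iff_continuousAt]
  intro x
  by_cases hx : x ∈ (extChartAt (𝓡 n) c).source
  · have h1 : pull c u =ᶠ[𝓝 x] fun y => u (extChartAt (𝓡 n) c y) := by
      filter_upwards [(isOpen_extChartAt_source (I := 𝓡 n) c).mem_nhds hx] with y hy
      unfold pull
      rw [if_pos hy]
    refine ContinuousAt.congr ?_ h1.symm
    exact (hu.continuous.continuousAt).comp (continuousAt_extChartAt' hx)
  · have h1 : x ∉ cball c z₀ ρ := fun h => hx ((mem_cball hρ).1 h).1
    have h2 : pull c u =ᶠ[𝓝 x] fun _ => 0 := by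
      filter_upwards [(cball_compact hρ).isClosed.isOpen_compl.mem_nhds h1] with y hy
      exact pull_out hρ hu0 hy
    exact continuousAt_const.congr h2.symm

lemma pull_hasDerivAt [T2Space M] (hρ : closedBall z₀ ρ ⊆ (extChartAt (𝓡 n) c).target)
    (hu : ContDiff ℝ 1 u) (hu0 : ∀ z ∉ closedBall z₀ ρ, u z = 0)
    {Y : (x : M) → TangentSpace (𝓡 n) x} {γ : ℝ → M} (hγ : IsMIntegralCurve γ Y) (t : ℝ) :
    HasDerivAt (fun s => pull c u (γ s)) (dpull Y c u (γ t)) t := by
  have hγc : ContinuousAt γ t := hγ.continuous.continuousAt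
  by_cases hx : γ t ∈ (extChartAt (𝓡 n) c).source
  · have h1 : (fun s => pull c u (γ s)) =ᶠ[𝓝 t] fun s => u (extChartAt (𝓡 n) c (γ s)) := by
      filter_upwards [hγc.preimage_mem_nhds
        ((isOpen_extChartAt_source (I := 𝓡 n) c).mem_nhds hx)] with s hs
      unfold pull
      rw [if_pos (show γ s ∈ (extChartAt (𝓡 n) c).source from hs)]
    have h2 : dpull Y c u (γ t) =
        fderiv ℝ u (extChartAt (𝓡 n) c (γ t)) (rep Y c (extChartAt (𝓡 n) c (γ t))) := by
      unfold dpull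
      rw [if_pos hx]
    rw [h2]
    refine HasDerivAt.congr_of_eventuallyEq ?_ h1
    have h3 : HasFDerivAt u (fderiv ℝ u (extChartAt (𝓡 n) c (γ t))) (extChartAt (𝓡 n) c (γ t)) :=
      (hu.differentiable (by norm_num) _).hasFDerivAt
    exact h3.comp_hasDerivAt t (hasDerivAt_chart hγ hx)
  · have h1 : γ t ∉ cball c z₀ ρ := fun h => hx ((mem_cball hρ).1 h).1
    have h2 : (fun s => pull c u (γ s)) =ᶠ[𝓝 t] fun _ => 0 := by
      filter_upwards [hγc.preimage_mem_nhds
        ((cball_compact hρ).isClosed.isOpen_compl.mem_nhds h1)] with s hs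
      exact pull_out hρ hu0 hs
    rw [dpull_out hρ hu0 Y h1]
    exact (hasDerivAt_const t (0:ℝ)).congr_of_eventuallyEq h2

end

end Pool.Agent.W5h51.FL
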