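import Mathlib
import Pool.Agent.W5h51.FL.Patch
import Pool.Agent.W5h51.FL.Cone
import Pool.Agent.W5h51.FL.Null

/-! The local picture near an equilibrium, for all `C¹` close fields. -/

set_option autoImplicit false
set_option linter.unusedSectionVars false

open scoped Topology ContDiff Manifold
open Set Filter MeasureTheory Bundle Metric

noncomputable section

namespace Pool.Agent.W5h51.FL

universe u

variable {n : ℕ} {M : Type u} [TopologicalSpace M] [ChartedSpace (EuclideanSpace ℝ (Fin n)) M]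
  [IsManifold (𝓡 n) ∞ M]

/-- The local picture near an equilibrium. -/
theorem local_pack {r : ℕ∞} (hr : 1 ≤ r) {Y : VF n M r} {h : M → ℝ} (H : Lyap Y h) {p : M}
    (hp : df n h p = 0) {O : Set M} (hO : IsOpen O) (hpO : p ∈ O) :
    ∃ (c : M) (R κ δ : ℝ)
      (B : EuclideanSpace ℝ (Fin n) →L[ℝ] EuclideanSpace ℝ (Fin n) →L[ℝ] ℝ),
      0 < R ∧ 0 < κ ∧ 0 < δ ∧ p ∈ (extChartAt (𝓡 n) c).source ∧
      closedBall (extChartAt (𝓡 n) c p) R ⊆ (extChartAt (𝓡 n) c).target ∧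
      (∀ z ∈ closedBall (extChartAt (𝓡 n) c p) R, (extChartAt (𝓡 n) c).symm z ∈ O) ∧
      (∀ v w, B v w = B w v) ∧
      ∀ V' : EuclideanSpace ℝ (Fin n) → EuclideanSpace ℝ (Fin n),
        ContDiffOn ℝ 1 V' (extChartAt (𝓡 n) c).target →
        (∀ z ∈ closedBall (extChartAt (𝓡 n) c p) R, ‖V' z - rep Y c z‖ ≤ δ ∧
          ‖fderiv ℝ V' z - fderiv ℝ (rep Y c) z‖ ≤ δ) →
        (∃ (u : EuclideanSpace ℝ (Fin n) → ℝ) (z' : EuclideanSpace ℝ (Fin n)), ContDiff ℝ 1 u ∧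
          (∀ z ∉ closedBall (extChartAt (𝓡 n) c p) (R / 2), u z = 0) ∧
          z' ∈ closedBall (extChartAt (𝓡 n) c p) (R / 2) ∧ V' z' = 0 ∧
          ∀ z ∈ closedBall (extChartAt (𝓡 n) c p) (R / 2),
            0 ≤ fderiv ℝ (h ∘ (extChartAt (𝓡 n) c).symm) z (V' z) + fderiv ℝ u z (V' z) ∧
            (fderiv ℝ (h ∘ (extChartAt (𝓡 n) c).symm) z (V' z) + fderiv ℝ u z (V' z) = 0 →
              z = z')) ∧
        ∀ x ∈ closedBall (extChartAt (𝓡 n) c p) R, ∀ y ∈ closedBall (extChartAt (𝓡 n) c p) R,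
          κ * ‖y - x‖ ^ 2 ≤ B (y - x) (V' y - V' x) := by
  have hr' : (1 : ℕ∞ω) ≤ (r : ℕ∞ω) := by exact_mod_cast hr
  obtain ⟨c, R₀, c₁, c₂, hR₀, hc₁, hc₂, hsrc, htgt, hinO, hd1, hd2⟩ := H.loc p hp O hO hpO
  set φ := extChartAt (𝓡 n) c with hφ
  set z₀ := φ p with hz₀
  set hh : EuclideanSpace ℝ (Fin n) → ℝ := h ∘ φ.symm with hhdef
  set V := rep Y c with hV
  have hTo : IsOpen φ.target := isOpen_extChartAt_target c
  have hzT : z₀ ∈ φ.target := htgt (mem_closedBall_self hR₀.le)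
  have hV1 : ContDiffOn ℝ 1 V φ.target := (rep_contDiffOn Y c).of_le hr'
  have hh2 : ContDiffOn ℝ 2 hh φ.target := chart_contDiffOn H.smooth c
  have hV0 : V z₀ = 0 := by
    rw [hV, hz₀, rep_ext _ hsrc, H.zero _ hp, map_zero]
    rfl
  have hh0 : fderiv ℝ hh z₀ = 0 := fd_zero (H.smooth.mdifferentiableAt (by simp)) hp hsrc
  have hdd : DifferentiableAt ℝ (fderiv ℝ hh) z₀ :=
    ((hh2.fderiv_of_isOpen (m := 1) hTo (by norm_num)).contDiffAt (hTo.mem_nhds hzT)).differentiableAt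
      (by norm_num)
  have hdV : DifferentiableAt ℝ V z₀ :=
    (hV1.contDiffAt (hTo.mem_nhds hzT)).differentiableAt (by norm_num)
  set B := fderiv ℝ (fderiv ℝ hh) z₀ with hB
  set L := fderiv ℝ V z₀ with hL
  have hsym : ∀ v w, B v w = B w v := by
    have h1 : IsSymmSndFDerivAt ℝ hh z₀ :=
      (hh2.contDiffAt (hTo.mem_nhds hzT)).isSymmSndFDerivAt (by simp)
    exact fun v w => h1 v w
  set κ : ℝ := c₁ * c₂ ^ 2 with hκ
  have hκ0 : 0 < κ := by positivity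
  have hBL : ∀ v, κ * ‖v‖ ^ 2 ≤ B v (L v) := by
    refine hess_bound hdd hh0 hdV hV0 ?_
    filter_upwards [closedBall_mem_nhds z₀ hR₀] with z hz
    have e1 := hd1 z hz
    have e2 := hd2 z hz
    rw [inner_gr] at e1
    have e3 : κ * ‖z - z₀‖ ^ 2 ≤ c₁ * ‖gr hh z‖ ^ 2 := by
      calc κ * ‖z - z₀‖ ^ 2 = c₁ * (c₂ * ‖z - z₀‖) ^ 2 := by rw [hκ]; ring
        _ ≤ c₁ * ‖gr hh z‖ ^ 2 := by gcongr
    exact e3.trans e1
  set ε : ℝ := κ / (2 * (‖B‖ + 1)) with hε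
  have hε0 : 0 < ε := by positivity
  have hBε : ‖B‖ * ε ≤ κ / 2 := by
    rw [hε, mul_div_assoc', div_le_div_iff₀ (by positivity) (by norm_num)]
    nlinarith [norm_nonneg B]
  have hcont : ContinuousAt (fderiv ℝ V) z₀ :=
    (hV1.continuousOn_fderiv_of_isOpen hTo le_rfl).continuousAt (hTo.mem_nhds hzT)
  obtain ⟨R₁, hR₁, hR₁'⟩ : ∃ R₁ > 0, ∀ z ∈ closedBall z₀ R₁, ‖fderiv ℝ V z - L‖ ≤ ε / 2 := by
    have h1 := Metric.continuousAt_iff.1 hcont (ε / 2) (by positivity)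
    obtain ⟨ρ, hρ, hρ'⟩ := h1
    refine ⟨ρ / 2, by positivity, fun z hz => ?_⟩
    have h2 := hρ' (x := z) (lt_of_le_of_lt (mem_closedBall.1 hz) (by linarith))
    rw [dist_eq_norm] at h2
    exact h2.le
  set R : ℝ := min R₀ R₁ with hR
  have hR0 : 0 < R := lt_min hR₀ hR₁
  have hs0 : closedBall z₀ R ⊆ closedBall z₀ R₀ := closedBall_subset_closedBall (min_le_left _ _)
  have hs1 : closedBall z₀ R ⊆ closedBall z₀ R₁ := closedBall_subset_closedBall (min_le_right _ _)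
  obtain ⟨δ, hδ, hloc⟩ := local_lyap hR0 hTo (hs0.trans htgt) hh2 hV1 hc₁ hc₂
    (fun z hz => hd1 z (hs0 hz)) (fun z hz => hd2 z (hs0 hz)) hV0
  refine ⟨c, R, κ / 2, min δ (ε / 2), B, hR0, by positivity, by positivity, hsrc, hs0.trans htgt,
    fun z hz => hinO z (hs0 hz), hsym, fun V' hV' hclose => ⟨?_, ?_⟩⟩
  · exact hloc V' hV' fun z hz => ⟨(hclose z hz).1.trans (min_le_left _ _),
      (hclose z hz).2.trans (min_le_left _ _)⟩
  · refine cone_mono hBL (fun z hz => ?_) (fun z hz => ?_) hBε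
    · exact (hV'.contDiffAt (hTo.mem_nhds (htgt (hs0 hz)))).differentiableAt (by norm_num)
    · have e1 := (hclose z hz).2.trans (min_le_right _ _)
      have e2 := hR₁' z (hs1 hz)
      calc ‖fderiv ℝ V' z - L‖ = ‖(fderiv ℝ V' z - fderiv ℝ V z) + (fderiv ℝ V z - L)‖ := by
            congr 1; abel
        _ ≤ ‖fderiv ℝ V' z - fderiv ℝ V z‖ + ‖fderiv ℝ V z - L‖ := norm_add_le _ _
        _ ≤ ε / 2 + ε / 2 := add_le_add e1 e2
        _ = ε := by ring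

end Pool.Agent.W5h51.FL
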