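import Mathlib
import Pool.Agent.W5h51.FL.Pack
import Pool.Agent.W5h74.FL.Flow

/-! Sinks, and the basins of the other equilibria. -/

set_option autoImplicit false
set_option linter.unusedSectionVars false

open scoped Topology ContDiff Manifold
open Set Filter MeasureTheory Bundle Metric

noncomputable section

namespace Pool.Agent.W5h51.FL

universe u

/-- `z` is a sink of the flow `ψ`: an asymptotically stable equilibrium. -/
def IsSink {X : Type*} [TopologicalSpace X] (ψ : X → ℝ → X) (z : X) : Prop :=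
  (∀ t, ψ z t = z) ∧ (∀ U ∈ 𝓝 z, ∃ W ∈ 𝓝 z, ∀ x ∈ W, ∀ t, 0 ≤ t → ψ x t ∈ U) ∧
    ∀ᶠ x in 𝓝 z, Tendsto (ψ x) atTop (𝓝 z)

lemma growth_Icc {f f' : ℝ → ℝ} {a b : ℝ} (hab : a ≤ b)
    (hf : ∀ t ∈ Icc a b, HasDerivAt f (f' t) t) (hc : ∀ t ∈ Icc a b, 0 ≤ f' t) : f a ≤ f b := by
  have h1 := (convex_Icc a b).mul_sub_le_image_sub_of_le_deriv (f := f) (C := 0)
    (fun s hs => (hf s hs).continuousAt.continuousWithinAt)
    (fun s hs => by
      rw [interior_Icc] at hs
      exact (hf s (Ioo_subset_Icc_self hs)).differentiableAt.differentiableWithinAt)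
    (fun s hs => by
      rw [interior_Icc] at hs
      rw [(hf s (Ioo_subset_Icc_self hs)).deriv]
      exact hc s (Ioo_subset_Icc_self hs)) a (left_mem_Icc.2 hab) b (right_mem_Icc.2 hab) hab
  linarith

lemma neg_bound {n : ℕ} {B : EuclideanSpace ℝ (Fin n) →L[ℝ] EuclideanSpace ℝ (Fin n) →L[ℝ] ℝ}
    (hB : ∀ v, v ≠ 0 → B v v < 0) : ∃ b > 0, ∀ v, b * ‖v‖ ^ 2 ≤ -(B v v) := by
  have hc : Continuous fun v : EuclideanSpace ℝ (Fin n) => -(B v v) := by fun_prop
  obtain ⟨b, hb, hb'⟩ := (isCompact_sphere (0 : EuclideanSpace ℝ (Fin n)) 1).exists_forall_le'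
    hc.continuousOn (a := 0) (by
      intro v hv
      have h1 : v ≠ 0 := by
        intro h
        rw [mem_sphere, h, dist_self] at hv
        norm_num at hv
      linarith [hB v h1])
  refine ⟨b, hb, fun v => ?_⟩
  by_cases hv : v = 0
  · rw [hv]; simp
  · have hv' : 0 < ‖v‖ := norm_pos_iff.2 hv
    have h1 := hb' (‖v‖⁻¹ • v) (by
      rw [mem_sphere, dist_zero_right, norm_smul, norm_inv, norm_norm]
      field_simp)
    simp only [map_smul, smul_apply, smul_eq_mul] at h1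
    have h2 : b ≤ -(B v v) / ‖v‖ ^ 2 := by
      refine h1.trans (le_of_eq ?_)
      field_simp
    rwa [le_div_iff₀ (by positivity)] at h2

variable {n : ℕ} {M : Type u} [TopologicalSpace M] [ChartedSpace (EuclideanSpace ℝ (Fin n)) M]
  [IsManifold (𝓡 n) ∞ M]

section

variable [T2Space M] [CompactSpace M] {Y : (x : M) → TangentSpace (𝓡 n) x} {ψ : M → ℝ → M}
  {c : M} {z₀ z' : EuclideanSpace ℝ (Fin n)} {R κ : ℝ}
  {B : EuclideanSpace ℝ (Fin n) →L[ℝ] EuclideanSpace ℝ (Fin n) →L[ℝ] ℝ}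

lemma zero_of_rep (ht : z' ∈ (extChartAt (𝓡 n) c).target) (h : rep Y c z' = 0) :
    Y ((extChartAt (𝓡 n) c).symm z') = 0 :=
  mfderiv_ext_inj ((extChartAt (𝓡 n) c).map_target ht) h

theorem sink_of_cone
    (hY : ContMDiff (𝓡 n) (𝓡 n).tangent 1 (fun x => (⟨x, Y x⟩ : TangentBundle (𝓡 n) M)))
    (hψ : IsFlow Y ψ) (hconv : ∀ p, ∃ z, Y z = 0 ∧ Tendsto (ψ p) atTop (𝓝 z)) (hR : 0 < R)
    (hκ : 0 < κ) (htgt : closedBall z₀ R ⊆ (extChartAt (𝓡 n) c).target)
    (hsym : ∀ v w, B v w = B w v)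
    (hB : ∀ x ∈ closedBall z₀ R, ∀ y ∈ closedBall z₀ R,
      κ * ‖y - x‖ ^ 2 ≤ B (y - x) (rep Y c y - rep Y c x))
    (hz' : z' ∈ closedBall z₀ (R / 2)) (hz0 : rep Y c z' = 0) (hneg : ∀ v, v ≠ 0 → B v v < 0) :
    IsSink ψ ((extChartAt (𝓡 n) c).symm z') := by
  set φ := extChartAt (𝓡 n) c with hφ
  set P := φ.symm z' with hP
  obtain ⟨b, hb, hb'⟩ := neg_bound hneg
  have hz'R : z' ∈ closedBall z₀ R := closedBall_subset_closedBall (by linarith) hz'
  have hz't : z' ∈ φ.target := htgt hz'R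
  have hPs : P ∈ φ.source := φ.map_target hz't
  have hφP : φ P = z' := φ.right_inv hz't
  have hYP : Y P = 0 := zero_of_rep hz't hz0
  have hcψ : ∀ x, Continuous (ψ x) := fun x => (hψ x).2.continuous
  set q : M → ℝ := fun x => -(B (φ x - z') (φ x - z')) with hq
  have hqc : ContinuousOn q φ.source := by
    have h1 : ContinuousOn φ φ.source := continuousOn_extChartAt c
    have h2 : Continuous fun v : EuclideanSpace ℝ (Fin n) => -(B v v) := by fun_prop
    exact h2.comp_continuousOn (h1.sub continuousOn_const)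
  -- the trapping regions
  have key : ∀ U ∈ 𝓝 P, ∃ G ∈ 𝓝 P, G ⊆ U ∧ IsClosed G ∧ G ⊆ φ.source ∧
      (∀ x ∈ G, φ x ∈ closedBall z₀ R) ∧ ∀ x ∈ G, ∀ t, 0 ≤ t → ψ x t ∈ G := by
    intro U hU
    have h1 : φ.symm ⁻¹' U ∈ 𝓝 z' :=
      (continuousAt_extChartAt_symm'' hz't).preimage_mem_nhds hU
    obtain ⟨ρ, hρ, hρ'⟩ := Metric.nhds_basis_closedBall.mem_iff.1
      (inter_mem h1 (closedBall_mem_nhds z' (half_pos hR)))
    have hρR : closedBall z' ρ ⊆ closedBall z₀ R := by
      intro z hz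
      have e1 := mem_closedBall.1 (hρ' hz).2
      have e2 := mem_closedBall.1 hz'
      rw [mem_closedBall]
      linarith [dist_triangle z z' z₀]
    have hρt : closedBall z' ρ ⊆ φ.target := hρR.trans htgt
    have hB2 : Continuous fun z : EuclideanSpace ℝ (Fin n) => -(B (z - z') (z - z')) := by fun_prop
    set Q : Set (EuclideanSpace ℝ (Fin n)) :=
      closedBall z' ρ ∩ {z | -(B (z - z') (z - z')) ≤ b * (ρ / 2) ^ 2} with hQ
    have hQc : IsCompact Q :=
      (isCompact_closedBall z' ρ).inter_right (isClosed_le hB2 continuous_const)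
    set G : Set M := φ.symm '' Q with hG
    have hGc : IsCompact G := hQc.image_of_continuousOn
      ((continuousOn_extChartAt_symm (I := 𝓡 n) c).mono (inter_subset_left.trans hρt))
    have hGiff : ∀ x, x ∈ G ↔ x ∈ φ.source ∧ φ x ∈ Q := by
      intro x
      constructor
      · rintro ⟨z, hz, rfl⟩
        have hzt := hρt hz.1
        refine ⟨φ.map_target hzt, ?_⟩
        rw [φ.right_inv hzt]
        exact hz
      · rintro ⟨h1, h2⟩
        exact ⟨_, h2, φ.left_inv h1⟩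
    have hGin : ∀ x ∈ G, φ x ∈ ball z' ρ := by
      intro x hx
      obtain ⟨-, h2⟩ := (hGiff x).1 hx
      have h3 := hb' (φ x - z')
      have h4 : -(B (φ x - z') (φ x - z')) ≤ b * (ρ / 2) ^ 2 := h2.2
      have h5 : ‖φ x - z'‖ ^ 2 ≤ (ρ / 2) ^ 2 := le_of_mul_le_mul_left (h3.trans h4) hb
      have h6 : ‖φ x - z'‖ ≤ ρ / 2 := le_of_sq_le_sq h5 (by positivity)
      rw [mem_ball, dist_eq_norm]
      linarith
    have hNo : IsOpen (φ.source ∩ φ ⁻¹' ball z' ρ) :=
      (continuousOn_extChartAt c).isOpen_inter_preimage (isOpen_extChartAt_source c) isOpen_ball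
    have hinv : ∀ x ∈ G, ∀ t, 0 ≤ t → ψ x t ∈ G := by
      intro x hx T hT
      have hcl : IsClosed ({t | ψ x t ∈ G} ∩ Icc 0 T) :=
        (hGc.isClosed.preimage (hcψ x)).inter isClosed_Icc
      refine hcl.Icc_subset_of_forall_mem_nhdsWithin ?_ ?_ (right_mem_Icc.2 hT)
      · show ψ x 0 ∈ G
        rw [(hψ x).1]
        exact hx
      · rintro t ⟨htG, -⟩
        have htG' : ψ x t ∈ G := htG
        have h2 : ψ x t ∈ φ.source ∩ φ ⁻¹' ball z' ρ := ⟨((hGiff _).1 htG').1, hGin _ htG'⟩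
        have h3 : ψ x ⁻¹' (φ.source ∩ φ ⁻¹' ball z' ρ) ∈ 𝓝 t :=
          (hcψ x).continuousAt.preimage_mem_nhds (hNo.mem_nhds h2)
        obtain ⟨ε, hε, hε'⟩ := Metric.mem_nhds_iff.1 h3
        have h4 : Ioo t (t + ε) ∈ 𝓝[>] t := Ioo_mem_nhdsGT (by linarith)
        refine mem_of_superset h4 fun s hs => ?_
        have hin : ∀ τ ∈ Icc t s, ψ x τ ∈ φ.source ∩ φ ⁻¹' ball z' ρ := by
          intro τ hτ
          refine hε' ?_
          rw [mem_ball, Real.dist_eq, abs_lt]
          constructor <;> linarith [hτ.1, hτ.2, hs.2]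
        set w : ℝ → EuclideanSpace ℝ (Fin n) := fun τ => φ (ψ x τ) - z' with hw
        have hwd : ∀ τ ∈ Icc t s, HasDerivAt w (rep Y c (φ (ψ x τ))) τ := by
          intro τ hτ
          exact (hasDerivAt_chart (hψ x).2 (hin τ hτ).1).sub_const z'
        have hfd : ∀ τ ∈ Icc t s, HasDerivAt (fun τ => B (w τ) (w τ))
            (2 * B (w τ) (rep Y c (φ (ψ x τ)))) τ := by
          intro τ hτ
          have e1 := hwd τ hτ
          have e2 : HasDerivAt (fun τ => B (w τ)) (B (rep Y c (φ (ψ x τ)))) τ :=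
            B.hasFDerivAt.comp_hasDerivAt τ e1
          have e3 := e2.clm_apply e1
          refine e3.congr_deriv ?_
          rw [hsym (rep Y c (φ (ψ x τ))) (w τ)]
          ring
        have h5 := growth_Icc hs.1.le hfd (by
          intro τ hτ
          have e1 := hB z' hz'R (φ (ψ x τ)) (hρR (ball_subset_closedBall (hin τ hτ).2))
          rw [hz0, sub_zero] at e1
          have e2 : 0 ≤ κ * ‖φ (ψ x τ) - z'‖ ^ 2 := by positivity
          have e3 : 0 ≤ B (w τ) (rep Y c (φ (ψ x τ))) := e2.trans e1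
          linarith)
        have h6 := ((hGiff _).1 htG').2.2
        have h6' : -(B (φ (ψ x t) - z') (φ (ψ x t) - z')) ≤ b * (ρ / 2) ^ 2 := h6
        refine (hGiff _).2 ⟨(hin s (right_mem_Icc.2 hs.1.le)).1,
          ball_subset_closedBall (hin s (right_mem_Icc.2 hs.1.le)).2, ?_⟩
        show -(B (φ (ψ x s) - z') (φ (ψ x s) - z')) ≤ b * (ρ / 2) ^ 2
        have h7 : B (φ (ψ x t) - z') (φ (ψ x t) - z') ≤ B (φ (ψ x s) - z') (φ (ψ x s) - z') := h5
        linarith
    refine ⟨G, ?_, ?_, hGc.isClosed, fun x hx => ((hGiff x).1 hx).1,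
      fun x hx => hρR ((hGiff x).1 hx).2.1, hinv⟩
    · have e1 : Tendsto q (𝓝 P) (𝓝 (q P)) :=
        (hqc.continuousAt ((isOpen_extChartAt_source c).mem_nhds hPs)).tendsto
      have e2 : q P < b * (ρ / 2) ^ 2 := by
        rw [hq]
        simp only
        rw [hφP, sub_self, map_zero, neg_zero]
        positivity
      filter_upwards [e1.eventually (gt_mem_nhds e2), hNo.mem_nhds (show P ∈ _ from ⟨hPs, by
        show φ P ∈ ball z' ρ
        rw [hφP]
        exact mem_ball_self hρ⟩)] with x hx1 hx2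
      exact (hGiff x).2 ⟨hx2.1, ball_subset_closedBall hx2.2, hx1.le⟩
    · rintro _ ⟨z, hz, rfl⟩
      exact (hρ' hz.1).1
  refine ⟨fun t => flow_zero hY hψ hYP t, fun U hU => ?_, ?_⟩
  · obtain ⟨G, hG, hGU, -, -, -, hinv⟩ := key U hU
    exact ⟨G, hG, fun x hx t ht => hGU (hinv x hx t ht)⟩
  · obtain ⟨G, hG, -, hGcl, hGs, hGR, hinv⟩ := key univ univ_mem
    filter_upwards [hG] with x hx
    obtain ⟨z, hz, hlim⟩ := hconv x
    have hzG : z ∈ G := hGcl.mem_of_tendsto hlim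
      (eventually_atTop.2 ⟨0, fun t ht => hinv x hx t ht⟩)
    have e1 := hB z' hz'R (φ z) (hGR z hzG)
    have e2 : rep Y c (φ z) = 0 := by
      rw [rep_ext Y (hGs hzG), hz, map_zero]
      rfl
    rw [hz0, e2, sub_self, map_zero] at e1
    have e3 : ‖φ z - z'‖ ^ 2 ≤ 0 := by
      by_contra h
      push Not at h
      have : 0 < κ * ‖φ z - z'‖ ^ 2 := mul_pos hκ h
      linarith
    have e4 : φ z = z' := by
      have h1 : ‖φ z - z'‖ = 0 := by
        have := pow_eq_zero_iff (two_ne_zero) |>.1 (le_antisymm e3 (sq_nonneg _))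
        exact this
      exact sub_eq_zero.1 (norm_eq_zero.1 h1)
    have e5 : z = P := by
      rw [hP, ← e4, φ.left_inv (hGs hzG)]
    rwa [e5] at hlim

theorem null_basin
    (hY : ContMDiff (𝓡 n) (𝓡 n).tangent 1 (fun x => (⟨x, Y x⟩ : TangentBundle (𝓡 n) M)))
    (hψ : IsFlow Y ψ) (hR : 0 < R) (hκ : 0 < κ)
    (htgt : closedBall z₀ R ⊆ (extChartAt (𝓡 n) c).target)
    (hsym : ∀ v w, B v w = B w v)
    (hB : ∀ x ∈ closedBall z₀ R, ∀ y ∈ closedBall z₀ R,
      κ * ‖y - x‖ ^ 2 ≤ B (y - x) (rep Y c y - rep Y c x))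
    (hz' : z' ∈ closedBall z₀ (R / 2)) {e : EuclideanSpace ℝ (Fin n)} (he : e ≠ 0)
    (hBe : 0 ≤ B e e) :
    LebesgueNull n {x | Tendsto (ψ x) atTop (𝓝 ((extChartAt (𝓡 n) c).symm z'))} := by
  have : IsManifold (𝓡 n) 1 M := IsManifold.of_le (n := ∞) (by simp)
  set φ := extChartAt (𝓡 n) c with hφ
  set P := φ.symm z' with hP
  have hz'b : z' ∈ ball z₀ R := by
    have := mem_closedBall.1 hz'
    rw [mem_ball]
    linarith
  have hz't : z' ∈ φ.target := htgt (ball_subset_closedBall hz'b)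
  have hPs : P ∈ φ.source := φ.map_target hz't
  have hφP : φ P = z' := φ.right_inv hz't
  have hadd := flow_add hY hψ
  have hct := continuous_flow hY hψ
  have hcx : ∀ t, Continuous fun x => ψ x t := fun t => hct t
  set K : Set M := cball c z₀ R with hK
  have hKc : IsCompact K := cball_compact htgt
  have hKN : K ∈ 𝓝 P := by
    have h1 : IsOpen (φ.source ∩ φ ⁻¹' ball z₀ R) :=
      (continuousOn_extChartAt c).isOpen_inter_preimage (isOpen_extChartAt_source c) isOpen_ball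
    refine mem_of_superset (h1.mem_nhds ⟨hPs, ?_⟩) fun x hx =>
      (mem_cball htgt).2 ⟨hx.1, ball_subset_closedBall hx.2⟩
    show φ P ∈ ball z₀ R
    rw [hφP]
    exact hz'b
  set S : Set M := {x | ∀ t, 0 ≤ t → ψ x t ∈ K} with hS
  have hScl : IsClosed S := by
    have : S = ⋂ t : ℝ, ⋂ (_ : 0 ≤ t), (fun x => ψ x t) ⁻¹' K := by
      ext x; simp [hS]
    rw [this]
    exact isClosed_iInter fun t => isClosed_iInter fun _ => hKc.isClosed.preimage (hcx t)
  have hSK : S ⊆ K := by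
    intro x hx
    have := hx 0 le_rfl
    rwa [(hψ x).1] at this
  have hKs : K ⊆ φ.source := fun x hx => ((mem_cball htgt).1 hx).1
  have hSs : S ⊆ φ.source := hSK.trans hKs
  have hEc : IsCompact (φ '' S) :=
    hScl.isCompact.image_of_continuousOn ((continuousOn_extChartAt c).mono hSs)
  have hnull : LebesgueNull n S := by
    refine null_of_chart hSs (null_of_cone hEc.measurableSet ?_ he hBe)
    rintro _ ⟨x, hx, rfl⟩ _ ⟨y, hy, rfl⟩ hxy
    have h1 := cone_curves (B := B) hsym hκ (C := 2 * R)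
      (w := fun t => φ (ψ y t) - φ (ψ x t))
      (w' := fun t => rep Y c (φ (ψ y t)) - rep Y c (φ (ψ x t)))
      (fun t ht => (hasDerivAt_chart (hψ y).2 (hKs (hy t ht))).sub
        (hasDerivAt_chart (hψ x).2 (hKs (hx t ht))))
      (fun t ht => hB _ ((mem_cball htgt).1 (hx t ht)).2 _ ((mem_cball htgt).1 (hy t ht)).2)
      (fun t ht => by
        have e1 := mem_closedBall.1 ((mem_cball htgt).1 (hx t ht)).2
        have e2 := mem_closedBall.1 ((mem_cball htgt).1 (hy t ht)).2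
        rw [← dist_eq_norm]
        have e3 := dist_triangle_right (φ (ψ y t)) (φ (ψ x t)) z₀
        linarith)
      (by
        simp only [(hψ x).1, (hψ y).1]
        exact sub_ne_zero.2 (Ne.symm hxy))
    simp only [(hψ x).1, (hψ y).1] at h1
    exact h1
  have hsub : {x | Tendsto (ψ x) atTop (𝓝 P)} ⊆
      ⋃ m : ℕ, (fun x => ψ x (-(m:ℝ))) '' S := by
    intro x hx
    have h1 : ∀ᶠ t in atTop, ψ x t ∈ K := hx hKN
    obtain ⟨T, hT⟩ := eventually_atTop.1 h1
    obtain ⟨m, hm⟩ := exists_nat_ge T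
    refine mem_iUnion.2 ⟨m, ψ x m, fun t ht => ?_, ?_⟩
    · rw [← hadd]
      exact hT _ (by linarith)
    · show ψ (ψ x m) (-(m:ℝ)) = x
      rw [← hadd, add_neg_cancel, (hψ x).1]
  refine LebesgueNull.mono (LebesgueNull.iUnion fun m : ℕ => ?_) hsub
  refine LebesgueNull.image ?_ hnull
  have h1 := Pool.Agent.W5h74.FL.contMDiff_flow hY (Fl := ψ) (fun x => (hψ x).1)
    (fun x => (hψ x).2)
  exact h1.comp (contMDiff_id.prodMk contMDiff_const)

/-- the basins of sinks are open -/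
lemma isOpen_basin
    (hY : ContMDiff (𝓡 n) (𝓡 n).tangent 1 (fun x => (⟨x, Y x⟩ : TangentBundle (𝓡 n) M)))
    (hψ : IsFlow Y ψ) {z : M} (hz : IsSink ψ z) : IsOpen {x | Tendsto (ψ x) atTop (𝓝 z)} := by
  have : IsManifold (𝓡 n) 1 M := IsManifold.of_le (n := ∞) (by simp)
  have hadd := flow_add hY hψ
  have hct := continuous_flow hY hψ
  rw [isOpen_iff_mem_nhds]
  intro x hx
  obtain ⟨W, hW, hWo, hzW⟩ := eventually_nhds_iff.1 hz.2.2
  have h1 : ∀ᶠ t in atTop, ψ x t ∈ W := hx (hWo.mem_nhds hzW)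
  obtain ⟨T, hT⟩ := h1.exists
  have h2 : Continuous fun y => ψ y T := hct T
  filter_upwards [h2.continuousAt.preimage_mem_nhds (hWo.mem_nhds hT)] with y hy
  have h3 := hW _ hy
  have h4 : Tendsto (fun t => ψ y (T + t)) atTop (𝓝 z) := by
    refine h3.congr fun t => ?_
    rw [hadd]
  have h5 := h4.comp (tendsto_atTop_add_const_left atTop (-T) tendsto_id)
  refine h5.congr fun t => ?_
  simp only [Function.comp, id]
  congr 1
  ring

end

end Pool.Agent.W5h51.FL
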