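import Mathlib
import Pool.Agent.W5h51.FL.Sink
import Pool.Agent.W5h51.FL.Stab

/-! Robustness of fields with a Lyapunov function of Morse type: finitely many sinks. -/

set_option autoImplicit false
set_option linter.unusedSectionVars false

open scoped Topology ContDiff Manifold
open Set Filter MeasureTheory Bundle Metric

noncomputable section

namespace Pool.Agent.W5h51.FL

universe u

variable {n : ℕ} {M : Type u} [TopologicalSpace M] [ChartedSpace (EuclideanSpace ℝ (Fin n)) M]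
  [IsManifold (𝓡 n) ∞ M]

lemma CkNhd.mem {r k : ℕ∞} {Y : VF n M r} {U : Set (VF n M r)} (h : CkNhd k Y U) : Y ∈ U := by
  obtain ⟨t, K, m, δ, -, -, hδ, hU⟩ := h
  exact hU Y fun c _ z _ j _ => by rw [sub_self, norm_zero]; exact hδ.le

/-- Every forward orbit of the flow of `Y` converges to one of finitely many zeros of `Y`; all orbits
outside a closed set of Lebesgue measure zero converge to sinks; and the flow has finitely many
attractors covering `M` up to a null set, for every measure on `M`. -/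
def FinitelyManySinks (Y : (x : M) → TangentSpace (𝓡 n) x) : Prop :=
  ∃ ψ : M → ℝ → M, IsFlow Y ψ ∧
    (∃ Z : Set M, Z.Finite ∧ (∀ z ∈ Z, Y z = 0) ∧ (∀ p, ∃ z ∈ Z, Tendsto (ψ p) atTop (𝓝 z)) ∧
      IsClosed {p | ¬∃ z ∈ Z, IsSink ψ z ∧ Tendsto (ψ p) atTop (𝓝 z)} ∧
      LebesgueNull n {p | ¬∃ z ∈ Z, IsSink ψ z ∧ Tendsto (ψ p) atTop (𝓝 z)}) ∧
    ∀ (_ : MeasurableSpace M) (μ : Measure M), FlowFiniteAttractors μ ψ

/-- **Robustness**: all fields `C¹` close to a field with a Lyapunov function of Morse type have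
finitely many sinks attracting almost all the forward orbits. -/
theorem robust_sinks [T2Space M] [CompactSpace M] {r : ℕ∞} (hr : 1 ≤ r) {Y : VF n M r} {h : M → ℝ}
    (H : Lyap Y h) : CkNhd 1 Y {Y' : VF n M r | FinitelyManySinks fun x => Y' x} := by
  classical
  have : IsManifold (𝓡 n) 1 M := IsManifold.of_le (n := ∞) (by simp)
  have hr' : (1 : ℕ∞ω) ≤ (r : ℕ∞ω) := by exact_mod_cast hr
  set Z : Set M := {x | df n h x = 0} with hZdef
  have hZ : Z.Finite := H.finite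
  have : Fintype ↥Z := hZ.fintype
  obtain ⟨O, hO, hOd⟩ := hZ.t2_separation
  have hY1 : ∀ (Y : VF n M r) (c : M), ContDiffOn ℝ 1 (rep Y c) (extChartAt (𝓡 n) c).target :=
    fun Y c => (rep_contDiffOn Y c).of_le hr'
  choose cc R κ δ B hR hκ hδ hsrc htgt hinO hsym hloc using fun p : ↥Z =>
    local_pack hr H (p := (p : M)) p.2 (O := O p) (hO p).2 (hO p).1
  have hhalf : ∀ p : ↥Z, closedBall (extChartAt (𝓡 n) (cc p) p) (R p / 2) ⊆
      closedBall (extChartAt (𝓡 n) (cc p) p) (R p) := fun p =>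
    closedBall_subset_closedBall (by linarith [hR p])
  have htgt2 : ∀ p : ↥Z, closedBall (extChartAt (𝓡 n) (cc p) p) (R p / 2) ⊆
      (extChartAt (𝓡 n) (cc p)).target := fun p => (hhalf p).trans (htgt p)
  -- the open neighbourhoods of the critical points
  set No : ↥Z → Set M := fun p => (extChartAt (𝓡 n) (cc p)).source ∩
    extChartAt (𝓡 n) (cc p) ⁻¹' (ball (extChartAt (𝓡 n) (cc p) p) (R p / 2)) with hNo
  have hNoo : ∀ p, IsOpen (No p) := fun p =>
    (continuousOn_extChartAt (cc p)).isOpen_inter_preimage (isOpen_extChartAt_source (cc p))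
      isOpen_ball
  have hNop : ∀ p : ↥Z, (p : M) ∈ No p := fun p =>
    ⟨hsrc p, mem_ball_self (half_pos (hR p))⟩
  have hNoc : ∀ p, No p ⊆ cball (cc p) (extChartAt (𝓡 n) (cc p) p) (R p / 2) := fun p x hx =>
    (mem_cball (htgt2 p)).2 ⟨hx.1, ball_subset_closedBall hx.2⟩
  have hcO : ∀ p : ↥Z, cball (cc p) (extChartAt (𝓡 n) (cc p) p) (R p / 2) ⊆ O p := by
    rintro p x ⟨z, hz, rfl⟩
    exact hinO p z (hhalf p hz)
  have hKo : IsCompact (⋃ p, No p)ᶜ := (isOpen_iUnion hNoo).isClosed_compl.isCompact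
  have hcdf : Continuous fun x => df n h x (Y x) := by
    have h1 : ContMDiff (𝓡 n) 𝓘(ℝ, ℝ) (((1 : ℕ∞) : ℕ∞ω) + 1) h := by
      refine H.smooth.of_le ?_
      norm_num
    exact (contMDiff_df h1 (Y.contMDiff.of_le hr')).continuous
  obtain ⟨c₀, hc₀, hc₀'⟩ := hKo.exists_forall_le' (a := 0) hcdf.continuousOn (by
    intro x hx
    refine H.pos x fun h0 => hx ?_
    exact mem_iUnion.2 ⟨⟨x, h0⟩, hNop ⟨x, h0⟩⟩)
  obtain ⟨t₀, R₀, B₀, hB0, hR₀, hcov, hB₀⟩ := exists_cover H.smooth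
  -- the size of the perturbation
  obtain ⟨η, hη, hη1, hη2⟩ : ∃ η > 0, (∀ p, η ≤ δ p) ∧ B₀ * η ≤ c₀ / 2 := by
    have e1 : ∀ᶠ η : ℝ in 𝓝[>] 0, ∀ p, η ≤ δ p := by
      rw [eventually_all]
      intro p
      filter_upwards [Ioc_mem_nhdsGT (hδ p)] with η hη using hη.2
    have e2 : ∀ᶠ η : ℝ in 𝓝[>] 0, η ≤ c₀ / 2 / (B₀ + 1) := by
      filter_upwards [Ioc_mem_nhdsGT (show (0:ℝ) < c₀ / 2 / (B₀ + 1) by positivity)] with η hη
        using hη.2
    have e3 : ∀ᶠ η : ℝ in 𝓝[>] 0, η ∈ Ioi (0:ℝ) := self_mem_nhdsWithin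
    obtain ⟨η, h1, h2, h3⟩ := (e1.and (e2.and e3)).exists
    have h3' : 0 < η := h3
    refine ⟨η, h3', h1, ?_⟩
    rw [le_div_iff₀ (by positivity)] at h2
    nlinarith
  -- the neighbourhood
  refine ⟨t₀ ∪ Finset.univ.image cc, fun c => closedBall (extChartAt (𝓡 n) c c) (R₀ c) ∪
    ⋃ p : ↥Z, ⋃ (_ : cc p = c), closedBall (extChartAt (𝓡 n) c p) (R p), 1, η, ?_, ?_, hη, ?_⟩
  · intro c _
    refine ⟨(isCompact_closedBall _ _).union ?_, union_subset (hR₀ c) ?_⟩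
    · exact isCompact_iUnion fun p => isCompact_iUnion fun _ => isCompact_closedBall _ _
    · refine iUnion_subset fun p => iUnion_subset fun hp => ?_
      subst hp
      exact htgt p
  · exact le_rfl
  intro Y' hY'
  have hclose0 : ∀ c ∈ t₀, ∀ z ∈ closedBall (extChartAt (𝓡 n) c c) (R₀ c),
      ‖rep Y' c z - rep Y c z‖ ≤ η := by
    intro c hc z hz
    have hzt := hR₀ c hz
    have hzn := (isOpen_extChartAt_target (I := 𝓡 n) c).mem_nhds hzt
    exact (close_one ((hY1 Y' c).contDiffAt hzn) ((hY1 Y c).contDiffAt hzn)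
      (hY' c (Finset.mem_union_left _ hc) z (Or.inl hz))).1
  have hclose1 : ∀ p : ↥Z, ∀ z ∈ closedBall (extChartAt (𝓡 n) (cc p) p) (R p),
      ‖rep Y' (cc p) z - rep Y (cc p) z‖ ≤ δ p ∧
      ‖fderiv ℝ (rep Y' (cc p)) z - fderiv ℝ (rep Y (cc p)) z‖ ≤ δ p := by
    intro p z hz
    have hzn := (isOpen_extChartAt_target (I := 𝓡 n) (cc p)).mem_nhds (htgt p hz)
    have h1 := close_one ((hY1 Y' (cc p)).contDiffAt hzn) ((hY1 Y (cc p)).contDiffAt hzn)
      (hY' (cc p) (Finset.mem_union_right _ (Finset.mem_image_of_mem _ (Finset.mem_univ p))) z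
        (Or.inr (mem_iUnion.2 ⟨p, mem_iUnion.2 ⟨rfl, hz⟩⟩)))
    exact ⟨h1.1.trans (hη1 p), h1.2.trans (hη1 p)⟩
  have hcone := fun p : ↥Z => (hloc p (rep Y' (cc p)) (hY1 Y' (cc p)) (hclose1 p)).2
  choose u z' hu hu0 hz' hYz' hpos using fun p : ↥Z =>
    (hloc p (rep Y' (cc p)) (hY1 Y' (cc p)) (hclose1 p)).1
  -- the Lyapunov function
  set h' : M → ℝ := fun x => h x + ∑ p, pull (cc p) (u p) x with hh'
  set D : M → ℝ := fun x => df n h x (Y' x) + ∑ p, dpull (fun x => Y' x) (cc p) (u p) x with hD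
  have hY'1 : ContMDiff (𝓡 n) (𝓡 n).tangent 1
      (fun x => (⟨x, Y' x⟩ : TangentBundle (𝓡 n) M)) := Y'.contMDiff.of_le hr'
  obtain ⟨ψ, hψ⟩ := exists_flow hY'1
  have hh1 : ContMDiff (𝓡 n) 𝓘(ℝ, ℝ) 1 h := H.smooth.of_le (by norm_num)
  have hh'c : Continuous h' :=
    hh1.continuous.add (continuous_finsetSum _ fun p _ => pull_continuous (htgt2 p) (hu p) (hu0 p))
  have hh'D : ∀ x t, HasDerivAt (fun s => h' (ψ x s)) (D (ψ x t)) t := by
    intro x t
    exact (hasDerivAt_along (hψ x).2 hh1 t).add (HasDerivAt.fun_sum fun p _ =>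
      pull_hasDerivAt (htgt2 p) (hu p) (hu0 p) (hψ x).2 t)
  -- positivity
  have hDx : ∀ x, 0 ≤ D x ∧ (D x = 0 → ∃ p, x = (extChartAt (𝓡 n) (cc p)).symm (z' p)) := by
    intro x
    by_cases hx : ∃ p : ↥Z, x ∈ cball (cc p) (extChartAt (𝓡 n) (cc p) p) (R p / 2)
    · obtain ⟨p, hp⟩ := hx
      have hp' := (mem_cball (htgt2 p)).1 hp
      have h1 : ∀ q ≠ p, dpull (fun x => Y' x) (cc q) (u q) x = 0 := by
        intro q hq
        refine dpull_out (htgt2 q) (hu0 q) _ fun hxq => ?_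
        have h2 : Disjoint (O q) (O p) := hOd q.2 p.2 fun h => hq (Subtype.ext h)
        exact (Set.disjoint_left.1 h2) (hcO q hxq) (hcO p hp)
      have h2 : D x = fderiv ℝ (h ∘ (extChartAt (𝓡 n) (cc p)).symm) (extChartAt (𝓡 n) (cc p) x)
          (rep Y' (cc p) (extChartAt (𝓡 n) (cc p) x)) +
          fderiv ℝ (u p) (extChartAt (𝓡 n) (cc p) x)
          (rep Y' (cc p) (extChartAt (𝓡 n) (cc p) x)) := by
        rw [hD]
        simp only
        rw [Finset.sum_eq_single p (fun q _ hq => h1 q hq) (fun h => absurd (Finset.mem_univ p) h),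
          fderiv_rep H.smooth (fun x => Y' x) hp'.1]
        congr 1
        unfold dpull
        rw [if_pos hp'.1]
      have h3 := hpos p _ hp'.2
      rw [h2]
      refine ⟨h3.1, fun h0 => ⟨p, ?_⟩⟩
      rw [← h3.2 h0, (extChartAt (𝓡 n) (cc p)).left_inv hp'.1]
    · push Not at hx
      have h1 : D x = df n h x (Y' x) := by
        rw [hD]
        simp only
        rw [Finset.sum_eq_zero fun p _ => dpull_out (htgt2 p) (hu0 p) _ (hx p), add_zero]
      have hxK : x ∈ (⋃ p, No p)ᶜ := by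
        intro hx'
        obtain ⟨p, hp⟩ := mem_iUnion.1 hx'
        exact hx p (hNoc p hp)
      obtain ⟨c, hc, hxs, hxc⟩ := hcov x
      have h2 := hclose0 c hc _ hxc
      have h3 := hB₀ c hc _ hxc
      have h4 := hc₀' x hxK
      have h5 : df n h x (Y' x) - df n h x (Y x) =
          fderiv ℝ (h ∘ (extChartAt (𝓡 n) c).symm) (extChartAt (𝓡 n) c x)
            (rep Y' c (extChartAt (𝓡 n) c x) - rep Y c (extChartAt (𝓡 n) c x)) := by
        rw [map_sub, fderiv_rep H.smooth (fun x => Y' x) hxs,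
          fderiv_rep H.smooth (fun x => Y x) hxs]
      have h6 : |df n h x (Y' x) - df n h x (Y x)| ≤ c₀ / 2 := by
        rw [h5]
        refine ((fderiv ℝ (h ∘ (extChartAt (𝓡 n) c).symm)
          (extChartAt (𝓡 n) c x)).le_opNorm _).trans ?_
        exact (mul_le_mul h3 h2 (norm_nonneg _) hB0).trans hη2
      have h7 := (abs_le.1 h6).1
      have h8 : 0 < D x := by
        rw [h1]
        linarith
      exact ⟨h8.le, fun h0 => absurd h0 h8.ne'⟩
  -- conclusion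
  set Z' : Set M := range fun p : ↥Z => (extChartAt (𝓡 n) (cc p)).symm (z' p) with hZ'
  have hZ'f : Z'.Finite := finite_range _
  have hZ'0 : ∀ z ∈ Z', Y' z = 0 := by
    rintro _ ⟨p, rfl⟩
    have h1 : z' p ∈ (extChartAt (𝓡 n) (cc p)).target := htgt2 p (hz' p)
    have h2 := hYz' p
    exact mfderiv_ext_inj ((extChartAt (𝓡 n) (cc p)).map_target h1) h2
  have h1 := core_points hY'1 hψ hh'c hh'D (fun x => (hDx x).1) hZ'f hZ'0 (fun x hx => by
    obtain ⟨p, hp⟩ := (hDx x).2 hx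
    exact ⟨p, hp.symm⟩)
  have hconv : ∀ p, ∃ z, Y' z = 0 ∧ Tendsto (ψ p) atTop (𝓝 z) := by
    intro p
    obtain ⟨z, hz, hlim⟩ := h1.1 p
    exact ⟨z, hZ'0 z hz, hlim⟩
  refine ⟨ψ, hψ, ⟨Z', hZ'f, hZ'0, h1.1, ?_, ?_⟩, h1.2⟩
  · rw [← isOpen_compl_iff]
    have e : {p | ¬∃ z ∈ Z', IsSink ψ z ∧ Tendsto (ψ p) atTop (𝓝 z)}ᶜ =
        ⋃ z ∈ {z | z ∈ Z' ∧ IsSink ψ z}, {x | Tendsto (ψ x) atTop (𝓝 z)} := by
      ext x
      simp only [mem_compl_iff, mem_ofPred_eq, not_not, mem_iUnion, exists_prop]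
      constructor
      · rintro ⟨z, h2, h3, h4⟩
        exact ⟨z, ⟨h2, h3⟩, h4⟩
      · rintro ⟨z, ⟨h2, h3⟩, h4⟩
        exact ⟨z, h2, h3, h4⟩
    rw [e]
    exact isOpen_biUnion fun z hz => isOpen_basin hY'1 hψ hz.2
  · -- the nonsinks
    have hsub : {p | ¬∃ z ∈ Z', IsSink ψ z ∧ Tendsto (ψ p) atTop (𝓝 z)} ⊆
        ⋃ p : {p : ↥Z // ∃ e, e ≠ 0 ∧ 0 ≤ B p e e},
          {x | Tendsto (ψ x) atTop (𝓝 ((extChartAt (𝓡 n) (cc p)).symm (z' p)))} := by
      intro x hx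
      obtain ⟨_, ⟨p, rfl⟩, hlim⟩ := h1.1 x
      by_cases hp : ∃ e, e ≠ 0 ∧ 0 ≤ B p e e
      · exact mem_iUnion.2 ⟨⟨p, hp⟩, hlim⟩
      · push Not at hp
        refine absurd ?_ hx
        exact ⟨_, ⟨p, rfl⟩, sink_of_cone hY'1 hψ hconv (hR p) (hκ p) (htgt p) (hsym p) (hcone p)
          (hz' p) (hYz' p) hp, hlim⟩
    refine LebesgueNull.mono (LebesgueNull.iUnion fun p => ?_) hsub
    obtain ⟨p, e, he, hBe⟩ := p
    exact null_basin hY'1 hψ (hR p) (hκ p) (htgt p) (hsym p) (hcone p) (hz' p) he hBe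

end Pool.Agent.W5h51.FL
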