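import Mathlib
import Pool.Agent.W5h51.FL.Gen
import Pool.Agent.W5h51.FL.Stab2
import Pool.Agent.W5h74.FL.PartB

/-! The main theorem on robust finiteness of attractors. -/

set_option autoImplicit false
set_option linter.unusedSectionVars false

open scoped Topology ContDiff Manifold
open Set Filter MeasureTheory Bundle Metric

noncomputable section

namespace Pool.Agent.W5h51.FL

universe u

open Pool.Agent.W5h74.FL (VField crTopology CoMap IsCr diff dirDeriv IsCrit dv inChart)

variable {n : ℕ} {M : Type u} [TopologicalSpace M] [ChartedSpace (EuclideanSpace ℝ (Fin n)) M]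
  [IsManifold (𝓡 n) ∞ M]

lemma isCrit_iff {h : M → ℝ} {x : M} : IsCrit n h x ↔ mfderiv (𝓡 n) 𝓘(ℝ, ℝ) h x = 0 := by
  constructor
  · intro h0
    refine ContinuousLinearMap.ext fun v => ?_
    exact LinearMap.congr_fun (show diff n h x = 0 from h0) v
  · intro h0
    show diff n h x = 0
    refine LinearMap.ext fun v => ?_
    exact DFunLike.congr_fun h0 v

theorem exists_lyap [T2Space M] [CompactSpace M] {r : ℕ∞} (hr : 1 ≤ r) (X : VField n M r)
    {h : M → ℝ} (hh : ContMDiff (𝓡 n) 𝓘(ℝ, ℝ) (r + 1) h)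
    (hm : ∀ x, 0 ≤ dirDeriv X.fld h x) {O : Set M} (hO : IsOpen O) {A : CoMap n M}
    (hA : IsCr r A) (hpos : ∀ (x : M) (ξ : EuclideanSpace ℝ (Fin n) →ₗ[ℝ] ℝ), 0 ≤ ξ (A x ξ))
    (hXA : ∀ x ∈ O, X.fld x = A x (diff n h x))
    (hout : ∀ x, IsCrit n h x → x ∉ O → Nondeg n h x)
    {U : Set (VField n M r)} (hU : IsOpen[crTopology n M r] U) (hXU : X ∈ U) :
    ∃ Y ∈ U, ∃ h' : M → ℝ, Lyap Y h' := by
  classical
  have hh2 : ContMDiff (𝓡 n) 𝓘(ℝ, ℝ) 2 h := hh.of_le (two_le_succ hr)
  obtain ⟨J, _, f, hf, hfO, hmor⟩ := exists_morse_on hh2 hO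
    (fun x hx hxO => hout x (isCrit_iff.2 hx) hxO)
  obtain ⟨N, W, hW, hspan⟩ := exists_frame (n := n) (M := M)
  have hf' : ∀ j, ContMDiff (𝓡 n) 𝓘(ℝ, ℝ) (r + 1) (f j) := fun j =>
    (hf j).of_le (succ_le_infty r)
  have hf2 : ∀ j, ContMDiff (𝓡 n) 𝓘(ℝ, ℝ) 2 (f j) := fun j => (hf j).of_le two_le_infty
  have hW' : ∀ i, ContMDiff (𝓡 n) (𝓡 n).tangent r
      (fun x => (⟨x, W i x⟩ : TangentBundle (𝓡 n) M)) := fun i =>
    (hW i).of_le (WithTop.coe_le_coe.2 le_top)
  have hGs : ∀ g : M → ℝ, ContMDiff (𝓡 n) 𝓘(ℝ, ℝ) (r + 1) g →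
      ContMDiff (𝓡 n) (𝓡 n).tangent r
        (fun x => (⟨x, ∑ i, df n g x (W i x) • W i x⟩ : TangentBundle (𝓡 n) M)) := by
    intro g hg
    have h1 := ContMDiff.sum_section (s := Finset.univ)
      (fun i _ => ContMDiff.smul_section (contMDiff_df hg (hW' i)) (hW' i))
    exact h1
  let Gs : (g : M → ℝ) → ContMDiff (𝓡 n) 𝓘(ℝ, ℝ) (r + 1) g → VF n M r := fun g hg =>
    ⟨fun x => ∑ i, df n g x (W i x) • W i x, hGs g hg⟩
  choose As hAs using fun j => hA (f j) (hf j)
  let Z : (Option J ⊕ J) → VField n M r := fun q => match q with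
    | Sum.inl none => Gs h hh
    | Sum.inl (some j) => As j
    | Sum.inr j => Gs (f j) (hf' j)
  obtain ⟨η, hη, hnear⟩ : ∃ η > 0, ∀ s : (Option J ⊕ J) → ℝ, (∀ q, |s q| ≤ η) →
      X + ∑ q, s q • Z q ∈ U := by
    have h1 := Pool.Agent.W5h74.FL.continuous_affine X Z
    have h2 : IsOpen ((fun a : (Option J ⊕ J) → ℝ => X + ∑ q, a q • Z q) ⁻¹' U) :=
      @IsOpen.preimage _ _ _ (crTopology n M r) _ h1 _ hU
    have h3 : (0 : (Option J ⊕ J) → ℝ) ∈
        (fun a : (Option J ⊕ J) → ℝ => X + ∑ q, a q • Z q) ⁻¹' U := by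
      show X + ∑ q, (0 : (Option J ⊕ J) → ℝ) q • Z q ∈ U
      have : ∑ q, (0 : (Option J ⊕ J) → ℝ) q • Z q = 0 :=
        Finset.sum_eq_zero fun q _ => zero_smul ℝ (Z q)
      rw [this, add_zero]
      exact hXU
    obtain ⟨δ, hδ, hδ'⟩ := Metric.isOpen_iff.1 h2 0 h3
    refine ⟨δ / 2, by positivity, fun s hs => hδ' ?_⟩
    rw [mem_ball, dist_pi_lt_iff hδ]
    intro q
    have := hs q
    rw [Pi.zero_apply, Real.dist_eq, sub_zero]
    linarith
  set ε : ℝ := min η 1 with hε
  have hε0 : 0 < ε := by positivity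
  obtain ⟨a, ha, hmorse⟩ := hmor ε hε0
  set s : (Option J ⊕ J) → ℝ := fun q => match q with
    | Sum.inl none => ε
    | Sum.inl (some j) => a j
    | Sum.inr j => ε * a j
  have hs : ∀ q, |s q| ≤ η := by
    rintro ((_ | j) | j)
    · show |ε| ≤ η
      rw [abs_of_pos hε0]
      exact min_le_left _ _
    · exact (ha j).le.trans (min_le_left _ _)
    · show |ε * a j| ≤ η
      rw [abs_mul, abs_of_pos hε0]
      have h1 : ε ≤ 1 := min_le_right _ _
      have h2 : |a j| ≤ η := (ha j).le.trans (min_le_left _ _)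
      calc ε * |a j| ≤ 1 * η := mul_le_mul h1 h2 (abs_nonneg _) zero_le_one
        _ = η := one_mul _
  set h' : M → ℝ := fun x => h x + ∑ j, a j * f j x with hh'
  have hh'2 : ContMDiff (𝓡 n) 𝓘(ℝ, ℝ) 2 h' := family_contMDiff hh2 hf2 a
  -- the field without the gradient
  let V : (x : M) → TangentSpace (𝓡 n) x := fun x => X x + ∑ j, a j • As j x
  have hd : ∀ x, df n h' x = df n h x + ∑ j, a j • df n (f j) x := fun x =>
    df_add_sum (n := n) (x := x) (hh2.mdifferentiableAt (by simp))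
      (fun j => (hf2 j).mdifferentiableAt (by simp)) a
  have hdiff : ∀ x, diff n h' x = diff n h x + ∑ j, a j • diff n (f j) x := fun x =>
    Pool.Agent.W5h74.FL.diff_fam (hh2.mdifferentiable (by simp))
      (fun j => (hf2 j).mdifferentiable (by simp)) a x
  have hVO : ∀ x ∈ O, V x = A x (diff n h' x) := by
    intro x hx
    have e1 : ∀ T : Finset J, X x + ∑ j ∈ T, a j • As j x =
        A x (diff n h x + ∑ j ∈ T, a j • diff n (f j) x) := by
      intro T
      induction T using Finset.induction_on with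
      | empty => simpa using hXA x hx
      | insert j T hj ih =>
        rw [Finset.sum_insert hj, Finset.sum_insert hj]
        have e2 : diff n h x + (a j • diff n (f j) x + ∑ i ∈ T, a i • diff n (f i) x) =
          (diff n h x + ∑ i ∈ T, a i • diff n (f i) x) + a j • diff n (f j) x := by abel
        rw [e2, map_add, map_smul, ← ih]
        have e3 : As j x = A x (diff n (f j) x) := hAs j x
        rw [e3]
        have e4 : ∀ p q r : EuclideanSpace ℝ (Fin n), p + (q + r) = (p + r) + q := by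
          intro p q r
          abel
        exact e4 _ _ _
    rw [hdiff x]
    exact e1 Finset.univ
  have hfx : ∀ x ∉ O, ∀ j, df n (f j) x = 0 := by
    intro x hx j
    have h1 : f j =ᶠ[𝓝 x] fun _ => 0 :=
      notMem_tsupport_iff_eventuallyEq.1 fun h => hx (hfO j h)
    show mfderiv (𝓡 n) 𝓘(ℝ, ℝ) (f j) x = 0
    rw [h1.mfderiv_eq]
    exact mfderiv_const
  have hVout : ∀ x ∉ O, V x = X x := by
    intro x hx
    show X x + ∑ j, a j • As j x = X x
    rw [Finset.sum_eq_zero, add_zero]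
    intro j _
    have e3 : As j x = A x (diff n (f j) x) := hAs j x
    have e4 : diff n (f j) x = 0 := isCrit_iff.2 (hfx x hx j)
    rw [e3, e4, map_zero]
    exact smul_zero (A := EuclideanSpace ℝ (Fin n)) (a j)
  have hdout : ∀ x ∉ O, df n h' x = df n h x := by
    intro x hx
    rw [hd x, Finset.sum_eq_zero, add_zero]
    intro j _
    rw [hfx x hx j]
    exact smul_zero _
  refine ⟨X + ∑ q, s q • Z q, hnear s hs, h', ?_⟩
  refine lyap_of hW hspan hε0 hh'2 (IsMorse.finite hh'2 hmorse) hmorse (V := V) ?_ ?_ ?_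
  · intro x
    by_cases hx : x ∈ O
    · have h1 := hpos x (diff n h' x)
      rw [← hVO x hx] at h1
      exact h1
    · rw [hVout x hx, hdout x hx]
      exact hm x
  · intro x hx0
    by_cases hx : x ∈ O
    · rw [hVO x hx, show diff n h' x = 0 from isCrit_iff.2 hx0, map_zero]
      rfl
    · rw [hVout x hx]
      rw [hdout x hx] at hx0
      exact zero_of_nondeg hr hh2 X hm hx0 (hout x (isCrit_iff.2 hx0) hx)
  · intro x
    have h1 : (X + ∑ q, s q • Z q : VF n M r) x = X x + ∑ q, s q • Z q x := by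
      have h2 := VF_sum_apply Finset.univ (fun q => s q • Z q) x
      show X x + (∑ q, s q • Z q : VF n M r) x = _
      rw [h2]
      rfl
    rw [h1, hd, Fintype.sum_sum_type, Fintype.sum_option]
    have e1 : ∀ i, (df n h x + ∑ j, a j • df n (f j) x) (W i x) =
        df n h x (W i x) + ∑ j, a j * df n (f j) x (W i x) := by
      intro i
      rw [add_apply, sum_apply]
      rfl
    have e2 : ∑ i, (df n h x + ∑ j, a j • df n (f j) x) (W i x) • W i x =
        ∑ i, df n h x (W i x) • W i x + ∑ j, a j • ∑ i, df n (f j) x (W i x) • W i x := by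
      have e3 : ∀ i, (df n h x + ∑ j, a j • df n (f j) x) (W i x) • W i x =
          df n h x (W i x) • W i x + ∑ j, a j • (df n (f j) x (W i x) • W i x) := by
        intro i
        rw [e1 i, add_smul, Finset.sum_smul]
        simp only [mul_smul]
      rw [Finset.sum_congr rfl fun i _ => e3 i, Finset.sum_add_distrib, Finset.sum_comm]
      simp only [Finset.smul_sum]
    have e5 : ε • ∑ j, a j • ∑ i, df n (f j) x (W i x) • W i x =
        ∑ j, (ε * a j) • ∑ i, df n (f j) x (W i x) • W i x := by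
      rw [Finset.smul_sum]
      exact Finset.sum_congr rfl fun j _ => by rw [mul_smul]
    rw [e2, smul_add, e5]
    show X x + (ε • (∑ i, df n h x (W i x) • W i x) +
        ∑ j, a j • As j x + ∑ j, (ε * a j) • ∑ i, df n (f j) x (W i x) • W i x) =
        (X x + ∑ j, a j • As j x) + _
    abel

end Pool.Agent.W5h51.FL
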