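import Mathlib
import Pool.Agent.W5h51.FL.Ham

/-! Fields which do not decrease a function. -/

set_option autoImplicit false
set_option linter.unusedSectionVars false

open scoped Topology ContDiff Manifold
open Set Filter MeasureTheory Bundle

noncomputable section

namespace Pool.Agent.W5h51.FL

universe u

variable {n : ℕ} {M : Type u} [TopologicalSpace M] [ChartedSpace (EuclideanSpace ℝ (Fin n)) M]
  [IsManifold (𝓡 n) ∞ M]

variable [T2Space M] [CompactSpace M]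

/-- A curve along which two fields agree is an integral curve of both. -/
lemma integral_congr {X Y : (x : M) → TangentSpace (𝓡 n) x} {γ : ℝ → M}
    (h : IsMIntegralCurve γ X) (he : ∀ t, Y (γ t) = X (γ t)) : IsMIntegralCurve γ Y := by
  intro t
  have := h t
  rw [← he t] at this
  exact this

theorem monotone_flows {r : ℕ∞} (hr : 1 ≤ r) (X : VF n M r) {φ : M → ℝ → M} (hφ : IsFlow X φ)
    {h : M → ℝ} (hh : ContMDiff (𝓡 n) 𝓘(ℝ, ℝ) (r + 1) h) (hm : ∀ x, 0 ≤ df n h x (X x))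
    {m : ℕ} (Λ : Fin m → Set M) (hcl : ∀ i, IsClosed (Λ i))
    (hinv : ∀ i t, (fun x => φ x t) '' Λ i = Λ i)
    (hdis : ∀ i j, i ≠ j → Disjoint (Λ i) (Λ j)) (hC : ∀ i, ∀ x ∈ Λ i, df n h x = 0)
    (htr : ∀ i, ∃ x ∈ Λ i, Λ i ⊆ closure (φ x '' Ici 0))
    (hcov : ∀ x, (∀ t, df n h (φ x t) = 0) → ∃ i, x ∈ Λ i) {U : Set (VF n M r)}
    (hU : CkNhd r X U) :
    ∃ Y ∈ U, ∃ ψ : M → ℝ → M, IsFlow Y ψ ∧ (∀ p, ∃ i, omegaFlow ψ p ⊆ Λ i) ∧
      ∀ (_ : MeasurableSpace M) (μ : Measure M), FlowFiniteAttractors μ ψ := by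
  have hM1 : IsManifold (𝓡 n) 1 M := IsManifold.of_le (n := ∞) (by simp)
  have hr1 : (1 : ℕ∞ω) ≤ (r : ℕ∞ω) := by exact_mod_cast hr
  obtain ⟨N, W, hW, hspan⟩ := exists_frame (n := n) (M := M)
  have hW' : ∀ i, ContMDiff (𝓡 n) (𝓡 n).tangent r
      (fun x => (⟨x, W i x⟩ : TangentBundle (𝓡 n) M)) := fun i =>
    (hW i).of_le (WithTop.coe_le_coe.2 le_top)
  have hG : ContMDiff (𝓡 n) (𝓡 n).tangent r
      (fun x => (⟨x, ∑ i, df n h x (W i x) • W i x⟩ : TangentBundle (𝓡 n) M)) := by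
    have h1 := ContMDiff.sum_section (s := Finset.univ)
      (fun i _ => ContMDiff.smul_section (contMDiff_df hh (hW' i)) (hW' i))
    exact h1
  let G : VF n M r := ⟨fun x => ∑ i, df n h x (W i x) • W i x, hG⟩
  obtain ⟨η, hη, hnear⟩ := family_near X (fun _ : Fin 1 => G) hU
  set Y : VF n M r := X + ∑ _i : Fin 1, η • G with hYdef
  have hYU : Y ∈ U := hnear (fun _ => η) (fun _ => by rw [abs_of_pos hη])
  have hYx : ∀ x, Y x = X x + η • ∑ i, df n h x (W i x) • W i x := by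
    intro x
    rw [hYdef, Finset.sum_const, Finset.card_univ, Fintype.card_fin, one_smul]
    rfl
  have hY1 : ContMDiff (𝓡 n) (𝓡 n).tangent 1 (fun x => (⟨x, Y x⟩ : TangentBundle (𝓡 n) M)) :=
    Y.contMDiff.of_le hr1
  have hX1 : ContMDiff (𝓡 n) (𝓡 n).tangent 1 (fun x => (⟨x, X x⟩ : TangentBundle (𝓡 n) M)) :=
    X.contMDiff.of_le hr1
  obtain ⟨ψ, hψ⟩ := exists_flow hY1
  have hYX : ∀ x, df n h x = 0 → Y x = X x := by
    intro x hx
    rw [hYx x, hx]
    simp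
  have hdY : ∀ x, df n h x (Y x) = df n h x (X x) + η * ∑ i, (df n h x (W i x)) ^ 2 := by
    intro x
    rw [hYx x, map_add, map_smul, map_sum]
    congr 1
    rw [smul_eq_mul]
    congr 1
    refine Finset.sum_congr rfl fun i _ => ?_
    rw [map_smul, smul_eq_mul, sq]
  have hpos : ∀ x, 0 ≤ df n h x (Y x) := by
    intro x
    rw [hdY x]
    have := hm x
    positivity
  have hzero : ∀ x, df n h x (Y x) = 0 → df n h x = 0 := by
    intro x hx
    rw [hdY x] at hx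
    have h1 : ∑ i, (df n h x (W i x)) ^ 2 = 0 := by
      have h2 : 0 ≤ ∑ i, (df n h x (W i x)) ^ 2 := Finset.sum_nonneg fun i _ => sq_nonneg _
      have h3 := hm x
      nlinarith
    rw [Finset.sum_eq_zero_iff_of_nonneg fun i _ => sq_nonneg _] at h1
    exact hspan x _ fun i => by
      have := h1 i (Finset.mem_univ i)
      exact pow_eq_zero_iff (two_ne_zero) |>.1 this
  have hφΛ : ∀ i, ∀ x ∈ Λ i, ∀ t, φ x t ∈ Λ i := by
    intro i x hx t
    rw [← hinv i t]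
    exact mem_image_of_mem _ hx
  have hψφ : ∀ i, ∀ x ∈ Λ i, ψ x = φ x := by
    intro i x hx
    have h1 : IsMIntegralCurve (φ x) (fun x => Y x) :=
      integral_congr (hφ x).2 fun t => hYX _ (hC i _ (hφΛ i x hx t))
    exact flow_unique hY1 (hψ x).2 h1 (by rw [(hψ x).1, (hφ x).1])
  have h1 : ∀ p, ∃ i, omegaFlow ψ p ⊆ Λ i := by
    refine core hY1 hψ (hh.of_le (one_le_succ r)) hpos Λ hcl hdis fun x hx => ?_
    have h2 : ∀ t, df n h (ψ x t) = 0 := fun t => hzero _ (hx t)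
    have h3 : IsMIntegralCurve (ψ x) (fun x => X x) :=
      integral_congr (hψ x).2 fun t => (hYX _ (h2 t)).symm
    have h4 : ψ x = φ x := flow_unique hX1 h3 (hφ x).2 (by rw [(hψ x).1, (hφ x).1])
    exact hcov x fun t => by rw [← h4]; exact h2 t
  refine ⟨Y, hYU, ψ, hψ, h1, fun _ μ => finite_of_cover μ Λ ?_ ?_ h1⟩
  · intro i t
    conv_rhs => rw [← hinv i t]
    refine image_congr fun x hx => ?_
    rw [hψφ i x hx]
  · intro i
    obtain ⟨x, hx, hd⟩ := htr i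
    refine ⟨x, hx, ?_⟩
    rw [hψφ i x hx]
    exact hd

end Pool.Agent.W5h51.FL
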