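import Mathlib
import Pool.Agent.W5h51.FL.Main

/-! Statement of the main theorem, in terms of the definitions of `Pool/Agent/W5h74/FL/Defs.lean`. -/

set_option autoImplicit false
set_option linter.unusedSectionVars false

open scoped Topology ContDiff Manifold
open Set Filter MeasureTheory Bundle Metric

noncomputable section

namespace Pool.Agent.W5h51.FL

universe u

open Pool.Agent.W5h74.FL (VField crTopology CoMap IsCr diff dirDeriv IsCrit dv inChart)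

section defs

variable {N : Type u} [TopologicalSpace N]

/-- `z` is a sink of the flow `φ` (an asymptotically stable equilibrium), and the forward orbit of
`p` converges to `z`. -/
def ToSink (φ : N → ℝ → N) (z p : N) : Prop := IsSink φ z ∧ Tendsto (φ p) atTop (𝓝 z)

variable {n : ℕ} [ChartedSpace (EuclideanSpace ℝ (Fin n)) N]

/-- The mixed second derivative `∂²/∂s∂t`, at `s = t = 0`, of `h` at the point with the coordinates
`φ(x) + s v + t w` in the chart `φ` at `x`. -/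
def hess (h : N → ℝ) (x : N) (v w : EuclideanSpace ℝ (Fin n)) : ℝ :=
  deriv (fun s : ℝ => deriv (fun t : ℝ =>
    h ((extChartAt (𝓡 n) x).symm (extChartAt (𝓡 n) x x + s • v + t • w))) 0) 0

variable (n)

/-- The Hessian of `h` at `x` is nondegenerate. -/
def NondegHess (h : N → ℝ) (x : N) : Prop :=
  ∀ v : EuclideanSpace ℝ (Fin n), v ≠ 0 → ∃ w : EuclideanSpace ℝ (Fin n), hess h x v w ≠ 0

variable [IsManifold (𝓡 n) ∞ N]

/-- For the flow `φ` there is a finite set `Z` such that all forward orbits converge to points of `Z`,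
and the set of the points whose forward orbit does not converge to a sink in `Z` is closed and has
Lebesgue measure zero. -/
def SinksAttract (φ : N → ℝ → N) : Prop :=
  ∃ Z : Set N, Z.Finite ∧ (∀ p, ∃ z ∈ Z, Tendsto (φ p) atTop (𝓝 z)) ∧
    IsClosed {p | ∀ z ∈ Z, ¬ ToSink φ z p} ∧ LebesgueNull n {p | ∀ z ∈ Z, ¬ ToSink φ z p}

variable {n}

/-- `h` does not decrease along `X`, and for some open set `O` we have `X = A dh` on `O`, where the
field `A` of linear maps `T*N → TN` is of class `C^r` and `ξ (A ξ) ≥ 0` for all covectors `ξ`, while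
all critical points of `h` outside `O` are nondegenerate.

Examples. `O = N`: all fields `X = A dh` with any function `h`, for instance all Hamiltonian fields of
symplectic and Poisson structures, all gradient fields and damped Hamiltonian fields. `O = ∅`: all
fields `X` with `X h ≥ 0` for a Morse function `h`, for instance a Morse first integral. -/
def IsLyapForm {r : ℕ∞} (X : VField n N r) (h : N → ℝ) : Prop :=
  (∀ x, 0 ≤ dirDeriv X.fld h x) ∧ ∃ (O : Set N) (A : CoMap n N), IsOpen O ∧ IsCr r A ∧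
    (∀ (x : N) (ξ : EuclideanSpace ℝ (Fin n) →ₗ[ℝ] ℝ), 0 ≤ ξ (A x ξ)) ∧
    (∀ x ∈ O, X.fld x = A x (diff n h x)) ∧ ∀ x, IsCrit n h x → x ∉ O → NondegHess n h x

end defs

variable {n : ℕ} {M : Type u} [TopologicalSpace M] [ChartedSpace (EuclideanSpace ℝ (Fin n)) M]
  [IsManifold (𝓡 n) ∞ M]

lemma hess_eq {h : M → ℝ} (hh : ContMDiff (𝓡 n) 𝓘(ℝ, ℝ) 2 h) (x : M)
    (v w : EuclideanSpace ℝ (Fin n)) : hess h x v w =
      inner ℝ (fderiv ℝ (gr (h ∘ (extChartAt (𝓡 n) x).symm)) (extChartAt (𝓡 n) x x) v) w := by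
  set φ := extChartAt (𝓡 n) x with hφ
  have hTo : IsOpen φ.target := isOpen_extChartAt_target x
  have hzT : φ x ∈ φ.target := mem_extChartAt_target x
  have cd := chart_contDiffOn hh x
  have hgd : HasFDerivAt (gr (h ∘ φ.symm)) (fderiv ℝ (gr (h ∘ φ.symm)) (φ x)) (φ x) :=
    (((gr_contDiffOn hTo cd).contDiffAt (hTo.mem_nhds hzT)).differentiableAt
      (by norm_num)).hasFDerivAt
  have hl : ∀ (z u : EuclideanSpace ℝ (Fin n)), HasDerivAt (fun t : ℝ => z + t • u) u 0 := by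
    intro z u
    simpa using ((hasDerivAt_id (0:ℝ)).smul_const u).const_add z
  have hin : ∀ z ∈ φ.target, deriv (fun t : ℝ => h (φ.symm (z + t • w))) 0 =
      inner ℝ (gr (h ∘ φ.symm) z) w := by
    intro z hz
    have hz0 : z = z + (0:ℝ) • w := by simp
    have h1 : HasFDerivAt (h ∘ φ.symm) (fderiv ℝ (h ∘ φ.symm) z) (z + (0:ℝ) • w) := by
      rw [← hz0]
      exact ((cd.contDiffAt (hTo.mem_nhds hz)).differentiableAt (by norm_num)).hasFDerivAt
    have h2 := h1.comp_hasDerivAt 0 (hl z w)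
    have h3 : deriv (fun t : ℝ => h (φ.symm (z + t • w))) 0 = fderiv ℝ (h ∘ φ.symm) z w := h2.deriv
    rw [h3, inner_gr]
  have h1 : (fun s : ℝ => deriv (fun t : ℝ => h (φ.symm (φ x + s • v + t • w))) 0) =ᶠ[𝓝 0]
      fun s : ℝ => inner ℝ (gr (h ∘ φ.symm) (φ x + s • v)) w := by
    have h5 : ∀ᶠ s : ℝ in 𝓝 0, φ x + s • v ∈ φ.target := by
      have h6 : ContinuousAt (fun t : ℝ => φ x + t • v) 0 := (hl (φ x) v).continuousAt
      refine h6.preimage_mem_nhds (hTo.mem_nhds ?_)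
      simpa using hzT
    filter_upwards [h5] with s hs using hin _ hs
  unfold hess
  rw [h1.deriv_eq]
  have hz0 : φ x = φ x + (0:ℝ) • v := by simp
  have h2 : HasFDerivAt (gr (h ∘ φ.symm)) (fderiv ℝ (gr (h ∘ φ.symm)) (φ x))
      (φ x + (0:ℝ) • v) := by
    rw [← hz0]
    exact hgd
  have h3 := (h2.comp_hasDerivAt 0 (hl (φ x) v)).inner ℝ (hasDerivAt_const 0 w)
  have h4 := h3.deriv
  rw [inner_zero_right, zero_add] at h4
  exact h4

lemma nondeg_of_hess {h : M → ℝ} (hh : ContMDiff (𝓡 n) 𝓘(ℝ, ℝ) 2 h) {x : M}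
    (hx : NondegHess n h x) : Nondeg n h x := by
  refine ⟨x, mem_extChartAt_source x, fun hdet => ?_⟩
  set T := fderiv ℝ (gr (h ∘ (extChartAt (𝓡 n) x).symm)) (extChartAt (𝓡 n) x x) with hT
  have h1 : LinearMap.det (T : EuclideanSpace ℝ (Fin n) →ₗ[ℝ] EuclideanSpace ℝ (Fin n)) = 0 := hdet
  have h2 := LinearMap.bot_lt_ker_of_det_eq_zero h1
  obtain ⟨v, hv, hv0⟩ := (Submodule.ne_bot_iff _).1 h2.ne'
  obtain ⟨w, hw⟩ := hx v hv0
  apply hw
  rw [hess_eq hh, ← hT]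
  have h3 : T v = 0 := hv
  rw [h3, inner_zero_left]

/-- neighbourhoods in the sense of `CkNhd` contain open sets -/
lemma exists_open {r k : ℕ∞} (hk : k ≤ r) {Y : VF n M r} {𝒱 : Set (VF n M r)}
    (h : CkNhd k Y 𝒱) : ∃ 𝒩 : Set (VField n M r), IsOpen[crTopology n M r] 𝒩 ∧ Y ∈ 𝒩 ∧ 𝒩 ⊆ 𝒱 := by
  obtain ⟨t, K, m, δ, hK, hm, hδ, h𝒱⟩ := h
  let S : M → Set (VField n M r) := fun c =>
    {Y' | ∀ x ∈ (extChartAt (𝓡 n) c).symm '' K c, ∀ j ≤ m, ‖dv c j Y' x - dv c j Y x‖ < δ}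
  refine ⟨⋂ c ∈ t, S c, ?_, ?_, ?_⟩
  · refine @isOpen_biInter_finset _ _ (crTopology n M r) _ _ fun c hc => ?_
    refine TopologicalSpace.isOpen_generateFrom_of_mem ?_
    refine ⟨c, (extChartAt (𝓡 n) c).symm '' K c, m, δ, Y, ?_, ?_, hm.trans hk, rfl⟩
    · exact (hK c hc).1.image_of_continuousOn
        ((continuousOn_extChartAt_symm (I := 𝓡 n) c).mono (hK c hc).2)
    · rintro _ ⟨z, hz, rfl⟩
      exact (extChartAt (𝓡 n) c).map_target ((hK c hc).2 hz)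
  · refine mem_iInter₂.2 fun c _ x _ j _ => ?_
    rw [sub_self, norm_zero]
    exact hδ
  · intro Y' hY'
    refine h𝒱 Y' fun c hc z hz j hj => ?_
    have h1 := mem_iInter₂.1 hY' c hc ((extChartAt (𝓡 n) c).symm z) (mem_image_of_mem _ hz) j hj
    have h2 : extChartAt (𝓡 n) c ((extChartAt (𝓡 n) c).symm z) = z :=
      (extChartAt (𝓡 n) c).right_inv ((hK c hc).2 hz)
    have h3 : ∀ Y : VF n M r, dv c j Y ((extChartAt (𝓡 n) c).symm z) =
        iteratedFDeriv ℝ j (rep Y c) z := by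
      intro Y
      show iteratedFDeriv ℝ j (inChart c (fun x => Y x))
        (extChartAt (𝓡 n) c ((extChartAt (𝓡 n) c).symm z)) = _
      rw [h2]
      rfl
    rw [← h3, ← h3]
    exact h1.le

theorem main [T2Space M] [CompactSpace M] {r : ℕ∞} (hr : 1 ≤ r) (X : VField n M r) {h : M → ℝ}
    (hh : ContMDiff (𝓡 n) 𝓘(ℝ, ℝ) (r + 1) h) (hX : IsLyapForm X h)
    {U : Set (VField n M r)} (hU : IsOpen[crTopology n M r] U) (hXU : X ∈ U) :
    ∃ Y ∈ U, ∃ 𝒩 : Set (VField n M 1), IsOpen[crTopology n M 1] 𝒩 ∧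
      (∃ Y₁ ∈ 𝒩, ∀ x, Y₁.fld x = Y.fld x) ∧
      ∀ Z ∈ 𝒩, ∃ φ, Pool.Agent.W5h74.FL.IsFlow Z.fld φ ∧ SinksAttract n φ ∧
        ∀ (_ : MeasurableSpace M) (μ : Measure M), Pool.Agent.W5h74.FL.FiniteAttractors μ φ := by
  obtain ⟨hm, O, A, hO, hA, hpos, hXA, hout⟩ := hX
  have hh2 : ContMDiff (𝓡 n) 𝓘(ℝ, ℝ) 2 h := hh.of_le (two_le_succ hr)
  obtain ⟨Y, hYU, h', hL⟩ := exists_lyap hr X hh hm hO hA hpos hXA
    (fun x hx hxO => nondeg_of_hess hh2 (hout x hx hxO)) hU hXU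
  have hr' : (1 : ℕ∞ω) ≤ (r : ℕ∞ω) := by exact_mod_cast hr
  let Y₁ : VF n M 1 := ⟨fun x => Y x, Y.contMDiff.of_le hr'⟩
  have hL₁ : Lyap Y₁ h' := hL.congr fun x => rfl
  obtain ⟨𝒩, h𝒩, hY𝒩, hsub⟩ := exists_open le_rfl (robust_sinks le_rfl hL₁)
  refine ⟨Y, hYU, 𝒩, h𝒩, ⟨Y₁, hY𝒩, fun x => rfl⟩, fun Z hZ => ?_⟩
  obtain ⟨ψ, hψ, ⟨Z₀, h1, -, h3, h4, h5⟩, h6⟩ := hsub hZ
  have e : {p | ∀ z ∈ Z₀, ¬ ToSink ψ z p} =
      {p | ¬∃ z ∈ Z₀, IsSink ψ z ∧ Tendsto (ψ p) atTop (𝓝 z)} := by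
    ext p
    simp only [ToSink, mem_ofPred_eq, not_exists, not_and]
  refine ⟨ψ, hψ, ⟨Z₀, h1, h3, ?_, ?_⟩, h6⟩
  · rw [e]
    exact h4
  · rw [e]
    exact h5

end Pool.Agent.W5h51.FL
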